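import Pool.Agent.TH408.SP.Stm3

/-!
# Sum-product with exponent 91/68: assembly
-/

set_option autoImplicit false
set_option linter.unusedSectionVars false

open Finset
open scoped Classical Pointwise

namespace Pool.Agent.TH408.SP.AS3

open Pool.Agent.W904.AK Pool.Agent.W798.SP

lemma Cst_mono {n N : ℕ} (h : n ≤ N) : Cst n ≤ Cst N := by
  unfold Cst
  have h1 : (Nat.log 2 n : ℝ) ≤ (Nat.log 2 N : ℝ) := by
    exact_mod_cast Nat.log_mono_right h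
  have h0 : (0 : ℝ) ≤ (Nat.log 2 n : ℝ) := Nat.cast_nonneg _
  refine Real.log_le_log (by positivity) ?_
  linarith

/-- Each form has conditional entropy at most `log n`. -/
lemma CH_fib (hGC : S_GC) {Ω γ : Type} [Fintype Ω] {A : Finset ℝ} {p : Ω → ℝ}
    {l : Fin 4 → Ω → ℝ} {u : Fin 3 → Ω → ℝ} {n : ℕ} (hB : Base A p l u n) (i : Fin 3)
    (Q : Ω → γ) (φ : γ → ℝ) (h : ∀ ω, φ (Q ω) = l i.castSucc ω) :
    CH p Q (u i) ≤ Real.log n := by
  have h1 := hGC p Q (u i) (fun _ => ())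
    (fun g => if (fib A (φ g)).card ≤ n then fib A (φ g) else ∅) (fun _ _ => {()}) 0 (n : ℝ) hB.law
    (fun ω hω => ⟨by
      have hc := hB.card ω hω i
      rw [h, if_pos hc]
      exact hB.mem ω hω i, Finset.mem_singleton_self _⟩)
    (fun ω hω => by
      have hc := hB.card ω hω i
      rw [h, if_pos hc]
      simp only [pow_zero, Finset.sum_const, nsmul_eq_mul, mul_one]
      exact_mod_cast hc)
  simp only [Nat.cast_zero, zero_mul, zero_sub, neg_mul, one_mul, neg_neg] at h1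
  exact h1

theorem tAS3 (hCL : S_CL3) (hTR : S_TR) (hGC : S_GC) (hJ : S_J3) (hEX : S_EX3) (hFI : S_FI3) :
    S_AS3 := by
  intro A S T M hAne hA hT hM hMS hS hK
  obtain ⟨Ω, _, p, l, u, hB, hH0, hz, hhA, hh, hcl, hT3⟩ := hCL A S T M hA hT hM hMS hS hK
  have hp := hB.law
  obtain ⟨n, hn⟩ : ∃ n : ℕ, n = 2 * T := ⟨_, rfl⟩
  obtain ⟨N, hN⟩ : ∃ N : ℕ, N = 2 * T * M := ⟨_, rfl⟩
  rw [← hN, ← hn] at hT3
  rw [← hN, ← hn]
  rw [← hn] at hB
  have hnN : n ≤ N := by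
    rw [hn, hN]
    exact Nat.le_mul_of_pos_right _ (by omega)
  obtain ⟨c, Sf, hSf, hrel⟩ := (hTR A p l u n hA hB).rel
  -- the permuted structures
  have hT3' : Tri3 p (Lm l) ![u 1, u 0, v2 l u] n N := by
    obtain ⟨c', S', hS', hrel'⟩ := hT3.rel
    refine ⟨hp, ![c' 1, c' 0, c' 2], ![S' 1, S' 0, S' 2], fun g => ⟨(hS' g).2.1, (hS' g).1,
      (hS' g).2.2⟩, fun ω hω => ⟨?_, ?_⟩⟩
    · intro i
      fin_cases i
      · exact (hrel' ω hω).1 1
      · exact (hrel' ω hω).1 0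
      · exact (hrel' ω hω).1 2
    · have h1 := (hrel' ω hω).2
      rw [Fin.sum_univ_three] at h1 ⊢
      simp only [Matrix.cons_val_zero, Matrix.cons_val_one, Matrix.cons_val] at h1 ⊢
      linarith
  have hTf : Tri3 p (zz l) ![u 2, u 0, u 1] n n := by
    refine ⟨hp, ![c 2, c 0, c 1], ![Sf 2, Sf 0, Sf 1], fun g => ⟨hSf 2 g, hSf 0 g,
      hSf 1 g⟩, fun ω hω => ⟨?_, ?_⟩⟩
    · intro i
      fin_cases i
      · exact (hrel ω hω).1 2
      · exact (hrel ω hω).1 0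
      · exact (hrel ω hω).1 1
    · have h1 := (hrel ω hω).2
      rw [Fin.sum_univ_three] at h1 ⊢
      simp only [Matrix.cons_val_zero, Matrix.cons_val_one, Matrix.cons_val] at h1 ⊢
      linarith
  -- equal entropies of the permuted structures
  have hperm : CH p (Lm l) (zz (![u 1, u 0, v2 l u] : Fin 3 → Ω → ℝ)) =
      CH p (Lm l) (zz (![u 0, u 1, v2 l u] : Fin 3 → Ω → ℝ)) := by
    refine CH_eq hp (Det.mk' (fun t => ![t.2 1, t.2 0, t.2 2]) fun ω _ => ?_)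
      (Det.mk' (fun t => ![t.2 1, t.2 0, t.2 2]) fun ω _ => ?_)
    all_goals
      funext i
      fin_cases i <;> rfl
  have hfull : CH p (zz l) (zz (![u 2, u 0, u 1] : Fin 3 → Ω → ℝ)) = CH p (zz l) (zz u) := by
    refine CH_eq hp (Det.mk' (fun t => ![t.2 1, t.2 2, t.2 0]) fun ω _ => ?_)
      (Det.mk' (fun t => ![t.2 2, t.2 0, t.2 1]) fun ω _ => ?_)
    all_goals
      funext i
      fin_cases i <;> rfl
  -- the ratio
  have hJa := hJ p (Lm l) ![u 0, u 1, v2 l u] (fun t => (t.1, t.2.1)) p (Lm l)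
    ![u 1, u 0, v2 l u] (fun t => (t.1, t.2.1)) n N p (fun ω => (l 0 ω, l 1 ω))
    (fun ω => (l 0 ω, l 1 ω)) (u 0) (u 1) (fun ω => (l 0 ω, l 1 ω)) hT3 hT3' hnN hp
    (fun _ => rfl) (fun _ => rfl) (Det.refl _ _) (Det.refl _ _)
  rw [hperm] at hJa
  have c0 := CH_fib hGC hB 0 (fun ω => (l 0 ω, l 1 ω)) (fun t => t.1) (fun ω => rfl)
  have c1 := CH_fib hGC hB 1 (fun ω => (l 0 ω, l 1 ω)) (fun t => t.2) (fun ω => rfl)
  have c0' : CH p (fun ω => ((fun t : ℝ × (ℝ × ℝ) => (t.1, t.2.1)) (Lm l ω)))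
      ((![u 0, u 1, v2 l u] : Fin 3 → Ω → ℝ) 0) ≤ Real.log n := c0
  have c1' : CH p (fun ω => ((fun t : ℝ × (ℝ × ℝ) => (t.1, t.2.1)) (Lm l ω)))
      ((![u 1, u 0, v2 l u] : Fin 3 → Ω → ℝ) 0) ≤ Real.log n := c1
  have hratio : CH p (fun ω => (l 0 ω, l 1 ω)) (fun ω => u 1 ω / u 0 ω) -
      2 * Real.log M ≤ CH p (zz l) (fun ω => u 1 ω / u 0 ω) := by
    have e1 : H p (zz l) = H p (fun ω => ((l 0 ω, l 1 ω), (l 2 ω, l 3 ω))) := by
      refine H_congr hp (Det.mk' (fun t => ((t 0, t 1), (t 2, t 3))) fun ω _ => rfl)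
        (Det.mk' (fun t => ![t.1.1, t.1.2, t.2.1, t.2.2]) fun ω _ => ?_)
      funext i
      fin_cases i <;> rfl
    have e2 : H p (fun ω => ((l 0 ω, l 1 ω), u 1 ω / u 0 ω)) ≤
        H p (fun ω => (zz l ω, u 1 ω / u 0 ω)) :=
      H_mono hp (Det.mk' (fun t => ((t.1 0, t.1 1), t.2)) fun ω _ => rfl)
    unfold CH at hcl ⊢
    rw [e1]
    linarith
  -- the extensions
  have hE1 := hEX A p l u n N N 1 (Lm l) ![u 0, u 1, v2 l u] (fun t => t.1) (Lm l)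
    ![u 1, u 0, v2 l u] (fun t => (t.1, t.2.1)) hAne hA hB hnN hnN hT3
    (fun ω => ⟨rfl, rfl⟩) hT3' (fun ω => ⟨rfl, rfl⟩)
  have hE2 := hEX A p l u n N n 2 (Lm l) ![u 0, u 1, v2 l u] (fun t => t.1) (zz l)
    ![u 2, u 0, u 1] (fun t => (t 0, t 2)) hAne hA hB hnN le_rfl hT3
    (fun ω => ⟨rfl, rfl⟩) hTf (fun ω => ⟨rfl, rfl⟩)
  have hF := hFI A p (zz l) u c _ _ _ _ hA hp
    (fun ω hω => ⟨fun i => ((hrel ω hω).1 i).1, (hrel ω hω).2⟩) hE1 hE2
  rw [hperm, hfull] at hF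
  -- the joint entropies of the pairs
  have hz1 : CH p (fun ω => (l 0 ω, l (Fin.castSucc 1) ω)) (fun ω => (u 1 ω, u 0 ω)) =
      CH p (fun ω => (l 0 ω, l 1 ω)) (fun ω => (u 0 ω, u 1 ω)) :=
    CH_eq hp (Det.mk' (fun t => (t.2.2, t.2.1)) fun ω _ => rfl)
      (Det.mk' (fun t => (t.2.2, t.2.1)) fun ω _ => rfl)
  have hz2 : CH p (zz l) (zz u) ≤
      CH p (fun ω => (l 0 ω, l (Fin.castSucc 2) ω)) (fun ω => (u 2 ω, u 0 ω)) := by
    have e1 : CH p (zz l) (zz u) ≤ CH p (zz l) (fun ω => (u 2 ω, u 0 ω)) := by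
      apply CH_mono hp
      refine Det.mk' (fun t => ![t.2.2, (-(c 0 t.1 * t.2.2) - c 2 t.1 * t.2.1) / c 1 t.1,
        t.2.1]) fun ω hω => ?_
      have h1 := (hrel ω hω).2
      have h2 := ((hrel ω hω).1 1).1
      rw [Fin.sum_univ_three] at h1
      funext i
      fin_cases i
      · rfl
      · show u 1 ω = (-(c 0 (zz l ω) * u 0 ω) - c 2 (zz l ω) * u 2 ω) / c 1 (zz l ω)
        rw [eq_div_iff h2]
        linarith
      · rfl
    exact e1.trans (CH_anti hp (Det.mk' (fun t => (t 0, t 2)) fun ω _ => rfl))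
  rw [hz1] at hF
  have hCn : Cst n ≤ Cst N := Cst_mono hnN
  generalize CH p (fun ω => (l 0 ω, l (Fin.castSucc 2) ω)) (fun ω => (u 2 ω, u 0 ω)) = z2 at *
  generalize CH p (zz l) (fun ω => u 1 ω / u 0 ω) = r1 at *
  linarith

end Pool.Agent.TH408.SP.AS3
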