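import Pool.Agent.TH408.SP.Stm3
import Pool.Agent.W883.SP.C0
import Pool.Agent.W290.SPX.CL

/-!
# Sum-product (exponent 91/68): the configuration set and the basic law

Jobs 860 of `helper408`: `tC03` adapts `tC0` of `W883/SP/C0.lean`, `tCL3` adapts `tCL` of
`W290/SPX/CL.lean`.
-/

set_option autoImplicit false
set_option linter.unusedSectionVars false

open Finset
open scoped Classical Pointwise

namespace Pool.Agent.TH408.SP.C3

open Pool.Agent.W904.AK Pool.Agent.W798.SP Pool.Agent.TH408.SP Pool.Agent.W883.SP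
  Pool.Agent.W290.SPX

theorem tC03 (hCC : Pool.Agent.W798.SP.S_CC) : S_C03 := by
  intro A S T M hA hT hM hMS hS hK
  obtain ⟨c, cmono, ccls, ccnt⟩ := hCC S M hM hMS
  have fpos : ∀ l x, x ∈ fib A l → 0 < x := fun l x hx => hA x (Finset.mem_filter.1 hx).1
  set P := (S ×ˢ S).filter (fun q => q.1 < q.2 ∧ c q.1 = c q.2) with hP
  set E : Finset Et := ((S ×ˢ S) ×ˢ (A ×ˢ A)).filter
    (fun e => e.1.1 < e.1.2 ∧ c e.1.1 = c e.1.2 ∧ e.2.1 ∈ fib A e.1.1 ∧ e.2.2 ∈ fib A e.1.2) with hE
  have memE : ∀ e, e ∈ E ↔ e.1.1 ∈ S ∧ e.1.2 ∈ S ∧ e.1.1 < e.1.2 ∧ c e.1.1 = c e.1.2 ∧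
      e.2.1 ∈ fib A e.1.1 ∧ e.2.2 ∈ fib A e.1.2 := by
    intro e
    rw [hE, Finset.mem_filter, Finset.mem_product, Finset.mem_product, Finset.mem_product]
    constructor
    · rintro ⟨⟨⟨h1, h2⟩, _⟩, h3, h4, h5, h6⟩
      exact ⟨h1, h2, h3, h4, h5, h6⟩
    · rintro ⟨h1, h2, h3, h4, h5, h6⟩
      exact ⟨⟨⟨h1, h2⟩, (Finset.mem_filter.1 h5).1, (Finset.mem_filter.1 h6).1⟩, h3, h4, h5, h6⟩
  have hEP : P.card * T ^ 2 ≤ E.card := by
    have h1 : E.card = ∑ q ∈ P, (E.filter (fun e => e.1 = q)).card := by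
      apply Finset.card_eq_sum_card_fiberwise
      intro e he
      have := (memE e).1 he
      rw [hP]
      exact Finset.mem_coe.2 (Finset.mem_filter.2 ⟨Finset.mem_product.2 ⟨this.1, this.2.1⟩, this.2.2.1,
        this.2.2.2.1⟩)
    rw [h1, ← smul_eq_mul, ← Finset.sum_const]
    apply Finset.sum_le_sum
    intro q hq
    rw [hP, Finset.mem_filter, Finset.mem_product] at hq
    obtain ⟨⟨q1, q2⟩, q3, q4⟩ := hq
    calc T ^ 2 = T * T := sq T
      _ ≤ (fib A q.1).card * (fib A q.2).card :=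
          Nat.mul_le_mul (hS q.1 q1).2.1 (hS q.2 q2).2.1
      _ = (fib A q.1 ×ˢ fib A q.2).card := (Finset.card_product _ _).symm
      _ ≤ (E.filter (fun e => e.1 = q)).card := by
          apply Finset.card_le_card_of_injOn (fun r => (q, r))
          · intro r hr
            have hr' := Finset.mem_product.1 (Finset.mem_coe.1 hr)
            exact Finset.mem_coe.2 (Finset.mem_filter.2 ⟨(memE _).2 ⟨q1, q2, q3, q4, hr'.1, hr'.2⟩, rfl⟩)
          · intro r _ r' _ h
            exact (Prod.mk.inj h).2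
  have hzmem : ∀ e ∈ E, zf e ∈ (A + A) ×ˢ (A + A) := by
    intro e he
    obtain ⟨h1, h2, h3, h4, h5, h6⟩ := (memE e).1 he
    rw [fib, Finset.mem_filter] at h5 h6
    exact Finset.mem_product.2 ⟨Finset.add_mem_add h5.1 h6.1, Finset.add_mem_add h5.2 h6.2⟩
  have hb : ∀ e ∈ E, e.1.1 * (zf e).1 < (zf e).2 ∧ (zf e).2 < e.1.2 * (zf e).1 ∧ 0 < (zf e).1 := by
    intro e he
    obtain ⟨h1, h2, h3, h4, h5, h6⟩ := (memE e).1 he
    have hx := fpos _ _ h5
    have hy := fpos _ _ h6
    exact ⟨(zf_bd h3 hx hy).1, (zf_bd h3 hx hy).2, add_pos hx hy⟩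
  have hcl : ∀ e ∈ E, ∀ e' ∈ E, zf e' = zf e → ¬ (c e.1.1 < c e'.1.1) := by
    intro e he e' he' hz hlt
    obtain ⟨h1, h2, h3, h4, h5, h6⟩ := (memE e).1 he
    obtain ⟨h1', h2', h3', h4', h5', h6'⟩ := (memE e').1 he'
    have hba : e.1.2 < e'.1.1 := by
      by_contra hcon
      have := cmono _ h1' _ h2 (not_lt.1 hcon)
      omega
    have b1 := hb e he
    have b2 := hb e' he'
    rw [hz] at b2
    have := mul_lt_mul_of_pos_right hba b1.2.2
    linarith [b1.2.1, b2.1]
  have hiii : ∀ e ∈ E, ∀ e' ∈ E, zf e' = zf e → e'.1.1 = e.1.1 → e'.1.2 = e.1.2 → e' = e := by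
    intro e he e' he' hz ha hb'
    obtain ⟨h1, h2, h3, h4, h5, h6⟩ := (memE e).1 he
    have z1 : e'.2.1 + e'.2.2 = e.2.1 + e.2.2 := congrArg Prod.fst hz
    have z2 : e'.1.1 * e'.2.1 + e'.1.2 * e'.2.2 = e.1.1 * e.2.1 + e.1.2 * e.2.2 :=
      congrArg Prod.snd hz
    rw [ha, hb'] at z2
    have hne : e.1.2 - e.1.1 ≠ 0 := (sub_pos.2 h3).ne'
    have hy : e'.2.2 = e.2.2 := by
      have : (e.1.2 - e.1.1) * (e'.2.2 - e.2.2) = 0 := by linear_combination z2 - e.1.1 * z1
      rcases mul_eq_zero.1 this with h | h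
      · exact absurd h hne
      · linarith
    have hx : e'.2.1 = e.2.1 := by linarith
    exact Prod.ext (Prod.ext ha hb') (Prod.ext hx hy)
  set O := E.filter (fun e => ∃ e' ∈ E, e' ≠ e ∧ zf e' = zf e) with hO
  have hOc : E.card ≤ O.card + (A + A).card ^ 2 := by
    have h1 : (E.filter (fun e => ¬ ∃ e' ∈ E, e' ≠ e ∧ zf e' = zf e)).card ≤ (A + A).card ^ 2 := by
      rw [sq, ← Finset.card_product]
      apply Finset.card_le_card_of_injOn zf
      · intro e he
        exact Finset.mem_coe.2 (hzmem e (Finset.mem_filter.1 (Finset.mem_coe.1 he)).1)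
      · intro e he e' he' hz
        have h2 := Finset.mem_filter.1 (Finset.mem_coe.1 he)
        have h3 := Finset.mem_filter.1 (Finset.mem_coe.1 he')
        by_contra hne
        exact h2.2 ⟨e', h3.1, fun h => hne h.symm, hz.symm⟩
    have h2 := Finset.card_filter_add_card_filter_not (s := E)
      (fun e => ∃ e' ∈ E, e' ≠ e ∧ zf e' = zf e)
    rw [← hO] at h2
    omega
  have hOE : ∀ e ∈ O, e ∈ E := fun e he => (Finset.mem_filter.1 he).1
  have hpart : ∀ e ∈ O, ∃ e' ∈ E, e' ≠ e ∧ zf e' = zf e := fun e he => (Finset.mem_filter.1 he).2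
  choose! g gE gne gz using hpart
  have hcc : ∀ e ∈ O, c (g e).1.1 = c e.1.1 := by
    intro e he
    have h1 := hcl e (hOE e he) (g e) (gE e he) (gz e he)
    have h2 := hcl (g e) (gE e he) e (hOE e he) (gz e he).symm
    omega
  have hinj : Set.InjOn (Phi g) O := by
    intro e _ e' _ h
    have v := Phi_vals g e
    have v' := Phi_vals g e'
    rw [h] at v
    exact Prod.ext (Prod.ext (v.1.symm.trans v'.1) (v.2.1.symm.trans v'.2.1))
      (Prod.ext (v.2.2.1.symm.trans v'.2.2.1) (v.2.2.2.symm.trans v'.2.2.2))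
  have hlab : ∀ e ∈ O, ∀ i, (Phi g e).1 i ∈ S ∧ c ((Phi g e).1 i) = c e.1.1 := by
    intro e he i
    obtain ⟨h1, h2, h3, h4, h5, h6⟩ := (memE e).1 (hOE e he)
    obtain ⟨h1', h2', h3', h4', h5', h6'⟩ := (memE (g e)).1 (gE e he)
    have h7 := hcc e he
    unfold Phi
    split_ifs with hcase
    · fin_cases i
      · exact ⟨h1, rfl⟩
      · exact ⟨h2, h4.symm⟩
      · exact ⟨h1', h7⟩
      · exact ⟨h2', h4'.symm.trans h7⟩
    · fin_cases i
      · exact ⟨h1, rfl⟩
      · exact ⟨h2, h4.symm⟩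
      · exact ⟨h2', h4'.symm.trans h7⟩
      · exact ⟨h1', h7⟩
  have hclsc : ∀ a, (S.filter (fun b => c b = c a)).card ≤ M := fun a => ccls (c a)
  refine ⟨O.image (Phi g), c, ?_, ?_, ccls, ?_⟩
  · intro w hw
    obtain ⟨e, he, rfl⟩ := Finset.mem_image.1 hw
    obtain ⟨h1, h2, h3, h4, h5, h6⟩ := (memE e).1 (hOE e he)
    obtain ⟨h1', h2', h3', h4', h5', h6'⟩ := (memE (g e)).1 (gE e he)
    have z1 : (g e).2.1 + (g e).2.2 = e.2.1 + e.2.2 := congrArg Prod.fst (gz e he)
    have z2 : (g e).1.1 * (g e).2.1 + (g e).1.2 * (g e).2.2 = e.1.1 * e.2.1 + e.1.2 * e.2.2 :=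
      congrArg Prod.snd (gz e he)
    refine ⟨fun i => ⟨(hlab e he i).1, (hlab e he i).2.trans (hlab e he 0).2.symm⟩, ?_, ?_, ?_⟩
    · intro i
      unfold Phi
      split_ifs with hcase
      · fin_cases i
        · exact h5
        · exact h6
        · exact h5'
      · fin_cases i
        · exact h5
        · exact h6
        · exact h6'
    · intro i
      unfold Phi
      split_ifs with hcase
      · fin_cases i
        · exact fun h => hcase.1 h.symm
        · exact fun h => hcase.2 h.symm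
        · exact fun h => h3'.ne h
      · have hor : (g e).1.2 = e.1.1 ∨ (g e).1.2 = e.1.2 := by
          by_contra hcon
          push Not at hcon
          exact hcase hcon
        fin_cases i
        · show e.1.1 ≠ (g e).1.1
          intro h
          rcases hor with h' | h'
          · rw [h', h] at h3'; exact lt_irrefl _ h3'
          · exact gne e he (hiii e (hOE e he) (g e) (gE e he) (gz e he) h.symm h')
        · show e.1.2 ≠ (g e).1.1
          intro h
          rcases hor with h' | h'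
          · rw [h', ← h] at h3'; exact lt_irrefl _ (h3'.trans h3)
          · rw [h', h] at h3'; exact lt_irrefl _ h3'
        · exact fun h => h3'.ne' h
    · unfold Phi
      split_ifs with hcase
      · show (e.1.1 - (g e).1.2) * e.2.1 + (e.1.2 - (g e).1.2) * e.2.2 =
          ((g e).1.1 - (g e).1.2) * (g e).2.1
        linear_combination (g e).1.2 * z1 - z2
      · show (e.1.1 - (g e).1.1) * e.2.1 + (e.1.2 - (g e).1.1) * e.2.2 =
          ((g e).1.2 - (g e).1.1) * (g e).2.2
        linear_combination (g e).1.1 * z1 - z2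
  · rw [Finset.card_image_of_injOn hinj]
    have h1 : S.card * M * T ^ 2 ≤ 8 * P.card * T ^ 2 := Nat.mul_le_mul_right _ ccnt
    have h2 : M * S.card * T ^ 2 = S.card * M * T ^ 2 := by ring
    have h3 : 8 * P.card * T ^ 2 = 8 * (P.card * T ^ 2) := by ring
    omega
  · intro w hw w' hw' k0 k1 k2 k3
    obtain ⟨e, he, rfl⟩ := Finset.mem_image.1 hw
    obtain ⟨e', he', rfl⟩ := Finset.mem_image.1 hw'
    obtain ⟨v1, v2, v3, v4⟩ := Phi_vals g e
    obtain ⟨v1', v2', v3', v4'⟩ := Phi_vals g e'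
    have : e = e' := Prod.ext
      (Prod.ext (v1.symm.trans (k0.trans v1')) (v2.symm.trans (k1.trans v2')))
      (Prod.ext (v3.symm.trans (k2.trans v3')) (v4.symm.trans (k3.trans v4')))
    rw [this]

/-- A conditional entropy is at most the logarithm of the number of values. -/
lemma CH_le_card {Ω γ α : Type} [Fintype Ω] {p : Ω → ℝ} (hp : IsLaw p) (Q : Ω → γ) (f : Ω → α)
    (F : γ → Finset α) (B : ℝ) (hF : ∀ ω, p ω ≠ 0 → f ω ∈ F (Q ω))
    (hB : ∀ ω, p ω ≠ 0 → ((F (Q ω)).card : ℝ) ≤ B) : CH p Q f ≤ Real.log B := by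
  have h1 : Real.log B = ∑ x, p x * Real.log B := by
    rw [← Finset.sum_mul, hp.total, one_mul]
  rw [CH_eq_sum hp, h1]
  refine Finset.sum_le_sum fun ω _ => ?_
  by_cases h : p ω = 0
  · rw [h, zero_mul, zero_mul]
  refine mul_le_mul_of_nonneg_left ?_ (hp.nonneg ω)
  have h2 : H (cd p Q (Q ω)) f ≤ Real.log (F (Q ω)).card := by
    refine H_le (cd_law hp Q (im_pos hp Q h).ne') f (F (Q ω)) ?_
    intro x hx
    unfold cd at hx
    by_cases hQ : Q x = Q ω
    · rw [if_pos hQ] at hx
      have hpx : p x ≠ 0 := fun h0 => hx (by rw [h0, zero_div])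
      rw [← hQ]
      exact hF x hpx
    · rw [if_neg hQ] at hx
      exact absurd rfl hx
  refine h2.trans (Real.log_le_log ?_ (hB ω h))
  exact_mod_cast Finset.card_pos.2 ⟨f ω, hF ω h⟩

theorem tCL3 (h : S_C03) : S_CL3 := by
  intro A S T M hA hT hM hMS hS hAA
  obtain ⟨W, c, hW, hcard, hcls, hinj⟩ := h A S T M hA hT hM hMS hS hAA
  have hSpos : 0 < S.card := by omega
  have hWpos : 0 < W.card := by
    have h1 : 0 < M * S.card * T ^ 2 := by positivity
    omega
  have hSr : (0 : ℝ) < S.card := by exact_mod_cast hSpos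
  have hTr : (0 : ℝ) < T := by exact_mod_cast (show 0 < T by omega)
  have hMr : (0 : ℝ) < M := by exact_mod_cast (show 0 < M by omega)
  have hWr : (0 : ℝ) < W.card := by exact_mod_cast hWpos
  have hcr : (M : ℝ) * S.card * T ^ 2 ≤ 16 * W.card := by exact_mod_cast hcard
  have : Nonempty {w // w ∈ W} := by
    obtain ⟨w, hw⟩ := Finset.card_pos.1 hWpos
    exact ⟨⟨w, hw⟩⟩
  have hlaw := unif_law {w // w ∈ W}
  have hp : ∀ x : {w // w ∈ W}, unif {w // w ∈ W} x = 1 / (W.card : ℝ) := by
    intro x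
    unfold unif
    rw [Fintype.card_coe]
  have hclsc : ∀ a, (S.filter (fun b => c b = c a)).card ≤ M := fun a => hcls (c a)
  -- the number of configurations with a given first slope
  have hf0 : ∀ a, (W.filter (fun w => w.1 0 = a)).card ≤ 4 * T ^ 2 * M := by
    intro a
    by_cases haS : a ∈ S
    · have h1 : (W.filter (fun w => w.1 0 = a)).card ≤
          ((S.filter (fun b => c b = c a)).biUnion (fun b => ({b} : Finset ℝ) ×ˢ
            (fib A a ×ˢ fib A b))).card := by
        apply Finset.card_le_card_of_injOn (fun w => (w.1 1, (w.2 0, w.2 1)))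
        · intro w hw
          obtain ⟨hw1, hw2⟩ := Finset.mem_filter.1 (Finset.mem_coe.1 hw)
          obtain ⟨k1, k2, k3, k4⟩ := hW w hw1
          subst hw2
          apply Finset.mem_coe.2
          refine Finset.mem_biUnion.2 ⟨w.1 1, Finset.mem_filter.2 ⟨(k1 1).1, (k1 1).2⟩, ?_⟩
          exact Finset.mem_product.2 ⟨Finset.mem_singleton_self _,
            Finset.mem_product.2 ⟨k2 0, k2 1⟩⟩
        · intro w hw w' hw' h
          obtain ⟨hw1, hw2⟩ := Finset.mem_filter.1 (Finset.mem_coe.1 hw)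
          obtain ⟨hw1', hw2'⟩ := Finset.mem_filter.1 (Finset.mem_coe.1 hw')
          simp only [Prod.mk.injEq] at h
          exact hinj w hw1 w' hw1' (hw2.trans hw2'.symm) h.1 h.2.1 h.2.2
      refine h1.trans (Finset.card_biUnion_le.trans ?_)
      calc ∑ b ∈ S.filter (fun b => c b = c a), (({b} : Finset ℝ) ×ˢ (fib A a ×ˢ fib A b)).card
          ≤ ∑ b ∈ S.filter (fun b => c b = c a), 4 * T ^ 2 := by
            apply Finset.sum_le_sum
            intro b hb'
            rw [Finset.card_product, Finset.card_product, Finset.card_singleton, one_mul]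
            have i1 := (hS a haS).2.2.le
            have i2 := (hS b (Finset.mem_filter.1 hb').1).2.2.le
            calc (fib A a).card * (fib A b).card ≤ (2 * T) * (2 * T) := Nat.mul_le_mul i1 i2
              _ = 4 * T ^ 2 := by ring
        _ = (S.filter (fun b => c b = c a)).card * (4 * T ^ 2) := by
            rw [Finset.sum_const, smul_eq_mul]
        _ ≤ M * (4 * T ^ 2) := Nat.mul_le_mul_right _ (hclsc a)
        _ = 4 * T ^ 2 * M := by ring
    · have : W.filter (fun w => w.1 0 = a) = ∅ := by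
        apply Finset.filter_false_of_mem
        intro w hw h
        exact haS (h ▸ ((hW w hw).1 0).1)
      rw [this]; simp
  have hl0 : Real.log (S.card / 64) ≤
      H (unif {w // w ∈ W}) (fun ω : {w // w ∈ W} => ω.1.1 0) := by
    have h1 : Real.log (S.card / 64) = -Real.log (64 / S.card) := by
      rw [← Real.log_inv, inv_div]
    rw [h1]
    apply H_ge hlaw
    intro x _
    have e1 : im (unif {w // w ∈ W}) (fun ω : {w // w ∈ W} => ω.1.1 0) (x.1.1 0) =
        ((W.filter (fun w => w.1 0 = x.1.1 0)).card : ℝ) * (1 / W.card) := by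
      rw [← sum_sub W (fun w => w.1 0 = x.1.1 0)]
      unfold im
      refine Finset.sum_congr rfl fun y _ => ?_
      rw [hp y]
    rw [e1]
    have h2 : ((W.filter (fun w => w.1 0 = x.1.1 0)).card : ℝ) ≤ 4 * T ^ 2 * M := by
      exact_mod_cast hf0 (x.1.1 0)
    rw [mul_one_div, div_le_div_iff₀ hWr hSr]
    nlinarith
  -- entropy of an injective function
  have hent : ∀ {α : Type} (f : {w // w ∈ W} → α), Function.Injective f →
      Real.log ((M : ℝ) * S.card * T ^ 2 / 16) ≤ H (unif {w // w ∈ W}) f := by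
    intro α f hf
    have h3 : -Real.log (1 / (W.card : ℝ)) ≤ H (unif {w // w ∈ W}) f := by
      apply H_ge hlaw
      intro x _
      unfold im
      rw [Finset.sum_eq_single x]
      · rw [if_pos rfl, hp x]
      · intro y _ hy
        rw [if_neg]
        intro he
        exact hy (hf he)
      · intro hx
        exact absurd (Finset.mem_univ x) hx
    rw [one_div, Real.log_inv, neg_neg] at h3
    refine le_trans ?_ h3
    apply Real.log_le_log (by positivity)
    rw [div_le_iff₀ (by norm_num)]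
    linarith
  -- injectivity
  have hdet : ∀ x y : {w // w ∈ W}, x.1.1 0 = y.1.1 0 → x.1.1 1 = y.1.1 1 →
      x.1.2 0 = y.1.2 0 → x.1.2 1 = y.1.2 1 → x = y := fun x y k0 k1 k2 k3 =>
    Subtype.ext (hinj x.1 x.2 y.1 y.2 k0 k1 k2 k3)
  -- the entropy of the slopes
  have hup : ∀ {α : Type} (f : {w // w ∈ W} → α) (F : Finset α) (k : ℕ), (∀ x, f x ∈ F) →
      F.card ≤ S.card * M ^ k →
      H (unif {w // w ∈ W}) f ≤ Real.log (S.card * (M : ℝ) ^ k) := by
    intro α f F k hF hk
    refine (H_le hlaw f F fun x _ => hF x).trans ?_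
    apply Real.log_le_log
    · obtain ⟨x⟩ := (inferInstance : Nonempty {w // w ∈ W})
      exact_mod_cast Finset.card_pos.2 ⟨f x, hF x⟩
    · exact_mod_cast hk
  have hB1 : (S.biUnion (fun a => ({a} : Finset ℝ) ×ˢ (S.filter (fun b => c b = c a)))).card ≤
      S.card * M ^ 1 := by
    refine Finset.card_biUnion_le.trans ?_
    rw [← smul_eq_mul, ← Finset.sum_const]
    apply Finset.sum_le_sum
    intro a _
    rw [Finset.card_product, Finset.card_singleton, one_mul, pow_one]
    exact hclsc a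
  have hB2 : (S.biUnion (fun a => ({a} : Finset ℝ) ×ˢ ((S.filter (fun b => c b = c a)) ×ˢ
      (S.filter (fun b => c b = c a))))).card ≤ S.card * M ^ 2 := by
    refine Finset.card_biUnion_le.trans ?_
    rw [← smul_eq_mul, ← Finset.sum_const]
    apply Finset.sum_le_sum
    intro a _
    rw [Finset.card_product, Finset.card_product, Finset.card_singleton, one_mul, sq]
    exact Nat.mul_le_mul (hclsc a) (hclsc a)
  have hB3 : (W.image Prod.fst).card ≤ S.card * M ^ 3 := by
    have h1 : (W.image Prod.fst).card ≤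
        (S.biUnion (fun a => ({a} : Finset ℝ) ×ˢ ((S.filter (fun b => c b = c a)) ×ˢ
          ((S.filter (fun b => c b = c a)) ×ˢ (S.filter (fun b => c b = c a)))))).card := by
      apply Finset.card_le_card_of_injOn (fun l => (l 0, (l 1, (l 2, l 3))))
      · intro l hl
        obtain ⟨w, hw, rfl⟩ := Finset.mem_image.1 (Finset.mem_coe.1 hl)
        have h := (hW w hw).1
        apply Finset.mem_coe.2
        refine Finset.mem_biUnion.2 ⟨w.1 0, (h 0).1, ?_⟩
        refine Finset.mem_product.2 ⟨Finset.mem_singleton_self _, Finset.mem_product.2 ⟨?_,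
          Finset.mem_product.2 ⟨?_, ?_⟩⟩⟩
        · exact Finset.mem_filter.2 ⟨(h 1).1, (h 1).2⟩
        · exact Finset.mem_filter.2 ⟨(h 2).1, (h 2).2⟩
        · exact Finset.mem_filter.2 ⟨(h 3).1, (h 3).2⟩
      · intro l _ l' _ h
        simp only [Prod.mk.injEq] at h
        funext i
        fin_cases i
        · exact h.1
        · exact h.2.1
        · exact h.2.2.1
        · exact h.2.2.2
    refine h1.trans (Finset.card_biUnion_le.trans ?_)
    rw [← smul_eq_mul, ← Finset.sum_const]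
    apply Finset.sum_le_sum
    intro a _
    rw [Finset.card_product, Finset.card_product, Finset.card_product, Finset.card_singleton]
    have := hclsc a
    calc 1 * ((S.filter (fun b => c b = c a)).card * ((S.filter (fun b => c b = c a)).card *
          (S.filter (fun b => c b = c a)).card)) ≤ 1 * (M * (M * M)) := by gcongr
      _ = M ^ 3 := by ring
  refine ⟨{w // w ∈ W}, inferInstance, unif {w // w ∈ W}, fun i ω => ω.1.1 i,
    fun i ω => ω.1.2 i, ?_, hl0, ?_, ?_, ?_, ?_, ?_⟩
  · refine ⟨hlaw, ?_, ?_, ?_, ?_, ?_⟩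
    · intro ω _ i
      exact (hS _ ((hW ω.1 ω.2).1 i).1).1
    · intro ω _ i
      exact (hW ω.1 ω.2).2.1 i
    · intro ω _ i
      exact (hW ω.1 ω.2).2.2.1 i
    · intro ω _
      exact (hW ω.1 ω.2).2.2.2
    · intro ω _ i
      exact (hS _ ((hW ω.1 ω.2).1 i.castSucc).1).2.2.le
  · have h1 := hup (fun ω => (ω.1.1 0, ω.1.1 1)) _ 1 (fun x => by
      refine Finset.mem_biUnion.2 ⟨x.1.1 0, ((hW x.1 x.2).1 0).1, Finset.mem_product.2
        ⟨Finset.mem_singleton_self _, Finset.mem_filter.2 ((hW x.1 x.2).1 1)⟩⟩) hB1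
    have h2 := hent (fun ω => ((ω.1.1 0, ω.1.1 1), (ω.1.2 0, ω.1.2 1))) (by
      intro x y hxy
      simp only [Prod.mk.injEq] at hxy
      exact hdet x y hxy.1.1 hxy.1.2 hxy.2.1 hxy.2.2)
    have h5 : Real.log ((T : ℝ) ^ 2 / 16) =
        Real.log ((M : ℝ) * S.card * T ^ 2 / 16) - Real.log (S.card * (M : ℝ) ^ 1) := by
      rw [← Real.log_div (by positivity) (by positivity)]
      congr 1
      field_simp
    rw [h5]
    unfold CH
    exact sub_le_sub h2 h1
  · have h1 := hup (Lm (fun (i : Fin 4) (ω : {w // w ∈ W}) => ω.1.1 i)) _ 2 (fun x => by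
      refine Finset.mem_biUnion.2 ⟨x.1.1 0, ((hW x.1 x.2).1 0).1, Finset.mem_product.2
        ⟨Finset.mem_singleton_self _, Finset.mem_product.2
          ⟨Finset.mem_filter.2 ((hW x.1 x.2).1 1), Finset.mem_filter.2 ((hW x.1 x.2).1 3)⟩⟩⟩) hB2
    have h2 := hent (fun ω => (Lm (fun (i : Fin 4) (ω : {w // w ∈ W}) => ω.1.1 i) ω,
      zz (![fun ω : {w // w ∈ W} => ω.1.2 0, fun ω => ω.1.2 1,
        v2 (fun i ω => ω.1.1 i) (fun i ω => ω.1.2 i)] : Fin 3 → {w // w ∈ W} → ℝ) ω)) (by
      intro x y hxy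
      have e1 := congrArg Prod.fst hxy
      have e2 := congrArg Prod.snd hxy
      have e3 := congrFun e2 0
      have e4 := congrFun e2 1
      exact hdet x y (congrArg Prod.fst e1) (congrArg (fun t => t.2.1) e1) e3 e4)
    have h5 : Real.log ((T : ℝ) ^ 2 / (16 * (M : ℝ))) =
        Real.log ((M : ℝ) * S.card * T ^ 2 / 16) - Real.log (S.card * (M : ℝ) ^ 2) := by
      rw [← Real.log_div (by positivity) (by positivity)]
      congr 1
      field_simp
    rw [h5]
    unfold CH
    exact sub_le_sub h2 h1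
  · have h1 := hup (zz (fun (i : Fin 4) (ω : {w // w ∈ W}) => ω.1.1 i)) _ 3
      (fun x => Finset.mem_image.2 ⟨x.1, x.2, rfl⟩) hB3
    have h2 := hent (fun ω => (zz (fun (i : Fin 4) (ω : {w // w ∈ W}) => ω.1.1 i) ω,
          zz (fun (i : Fin 3) (ω : {w // w ∈ W}) => ω.1.2 i) ω)) (by
      intro x y hxy
      have e1 := congrArg Prod.fst hxy
      have e2 := congrArg Prod.snd hxy
      exact Subtype.ext (Prod.ext e1 e2))
    have h5 : Real.log ((T : ℝ) ^ 2 / (16 * (M : ℝ) ^ 2)) =
        Real.log ((M : ℝ) * S.card * T ^ 2 / 16) - Real.log (S.card * (M : ℝ) ^ 3) := by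
      rw [← Real.log_div (by positivity) (by positivity)]
      congr 1
      field_simp
    rw [h5]
    unfold CH
    exact sub_le_sub h2 h1
  · have h1 := CH_le_card hlaw (fun ω : {w // w ∈ W} => (ω.1.1 0, ω.1.1 1))
      (fun ω => (ω.1.1 2, ω.1.1 3))
      (fun g => (S.filter (fun b => c b = c g.1)) ×ˢ (S.filter (fun b => c b = c g.1)))
      ((M : ℝ) ^ 2)
      (fun ω _ => Finset.mem_product.2 ⟨Finset.mem_filter.2 ((hW ω.1 ω.2).1 2),
        Finset.mem_filter.2 ((hW ω.1 ω.2).1 3)⟩)
      (fun ω _ => by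
        rw [Finset.card_product, Nat.cast_mul, sq]
        have := hclsc (ω.1.1 0)
        gcongr)
    rw [Real.log_pow] at h1
    exact_mod_cast h1
  · refine ⟨hlaw, ?_⟩
    refine ⟨![fun g => g.1 - g.2.2, fun g => g.2.1 - g.2.2, fun _ => -1],
      ![fun g => if (fib A g.1).card ≤ 2 * T then fib A g.1 else ∅,
        fun g => if (fib A g.2.1).card ≤ 2 * T then fib A g.2.1 else ∅,
        fun g => (S.filter (fun b => c b = c g.1)).biUnion
          (fun b => (fib A b).image (fun x => (b - g.2.2) * x))], ?_, ?_⟩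
    · intro g
      refine ⟨?_, ?_, ?_⟩
      · show (if (fib A g.1).card ≤ 2 * T then fib A g.1 else ∅).card ≤ 2 * T
        split_ifs with hc
        · exact hc
        · simp
      · show (if (fib A g.2.1).card ≤ 2 * T then fib A g.2.1 else ∅).card ≤ 2 * T
        split_ifs with hc
        · exact hc
        · simp
      · show ((S.filter (fun b => c b = c g.1)).biUnion
          (fun b => (fib A b).image (fun x => (b - g.2.2) * x))).card ≤ 2 * T * M
        refine Finset.card_biUnion_le.trans ?_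
        calc ∑ b ∈ S.filter (fun b => c b = c g.1),
              ((fib A b).image (fun x => (b - g.2.2) * x)).card
            ≤ ∑ b ∈ S.filter (fun b => c b = c g.1), 2 * T := by
              apply Finset.sum_le_sum
              intro b hb
              exact Finset.card_image_le.trans (hS b (Finset.mem_filter.1 hb).1).2.2.le
          _ = (S.filter (fun b => c b = c g.1)).card * (2 * T) := by
              rw [Finset.sum_const, smul_eq_mul]
          _ ≤ M * (2 * T) := Nat.mul_le_mul_right _ (hclsc g.1)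
          _ = 2 * T * M := by ring
    · intro ω _
      obtain ⟨k1, k2, k3, k4⟩ := hW ω.1 ω.2
      have hpos : ∀ i : Fin 3, 0 < ω.1.2 i := fun i => hA _ (Finset.mem_filter.1 (k2 i)).1
      refine ⟨?_, ?_⟩
      · intro i
        fin_cases i
        · refine ⟨sub_ne_zero.2 (k3 0), (hpos 0).ne', ?_⟩
          show ω.1.2 0 ∈ if (fib A (ω.1.1 0)).card ≤ 2 * T then fib A (ω.1.1 0) else ∅
          rw [if_pos (hS _ (k1 0).1).2.2.le]
          exact k2 0
        · refine ⟨sub_ne_zero.2 (k3 1), (hpos 1).ne', ?_⟩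
          show ω.1.2 1 ∈ if (fib A (ω.1.1 1)).card ≤ 2 * T then fib A (ω.1.1 1) else ∅
          rw [if_pos (hS _ (k1 1).1).2.2.le]
          exact k2 1
        · refine ⟨by show (-1 : ℝ) ≠ 0; norm_num, mul_ne_zero (sub_ne_zero.2 (k3 2)) (hpos 2).ne', ?_⟩
          show (ω.1.1 2 - ω.1.1 3) * ω.1.2 2 ∈ (S.filter (fun b => c b = c (ω.1.1 0))).biUnion
            (fun b => (fib A b).image (fun x => (b - ω.1.1 3) * x))
          exact Finset.mem_biUnion.2 ⟨ω.1.1 2, Finset.mem_filter.2 (k1 2),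
            Finset.mem_image.2 ⟨ω.1.2 2, k2 2, rfl⟩⟩
      · rw [Fin.sum_univ_three]
        show (ω.1.1 0 - ω.1.1 3) * ω.1.2 0 + (ω.1.1 1 - ω.1.1 3) * ω.1.2 1 +
          (-1) * ((ω.1.1 2 - ω.1.1 3) * ω.1.2 2) = 0
        linarith

end Pool.Agent.TH408.SP.C3
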