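import Pool.Agent.TH408.SP.Stm3

/-!
# Sum-product with exponent 91/68: the entropy of the two products and of a random ratio
-/

set_option autoImplicit false
set_option linter.unusedSectionVars false

open Finset
open scoped Classical

namespace Pool.Agent.TH408.SP.RB3

open Pool.Agent.W904.AK Pool.Agent.W798.SP

/-- Image laws only depend on the values on the support. -/
lemma im_congr_supp {Ω α : Type} [Fintype Ω] {p : Ω → ℝ} {f g : Ω → α}
    (h : ∀ ω, p ω ≠ 0 → f ω = g ω) (a : α) : im p f a = im p g a := by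
  rw [im_eq_sum, im_eq_sum]
  refine Finset.sum_congr rfl fun x _ => ?_
  by_cases hx : p x = 0
  · simp [hx]
  · rw [h x hx]

theorem tRB3 (hJ : S_J3) (hSR : S_SR) : S_RB3 := by
  intro Ω Ω₁ Γ₁ Ω₂ Γ₂ K Λ _ _ _ A p κ ℓ a b x y p₁ Lam₁ α κ₁ p₂ Lam₂ β κ₂ n N₁ N₂
    hA hp hN1 hN2 hT1 hT2 hb hx ha hne hE
  -- the gluing
  set F : Ω → K × (ℝ × ℝ) := fun ω => (κ ω, (a ω * x ω, b ω * y ω)) with hF
  have hfg : ∀ t, im p F t = im p F t := fun _ => rfl
  set pG : Ω × Ω → ℝ := glue p p F F with hpG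
  have hG : IsLaw pG := glue_law hp hp hfg
  set LL : Ω × Ω → K := fun z => κ z.1 with hLL
  have hsupp : ∀ z, pG z ≠ 0 → p z.1 ≠ 0 ∧ p z.2 ≠ 0 ∧ κ z.1 = κ z.2 ∧
      a z.1 * x z.1 = a z.2 * x z.2 ∧ b z.1 * y z.1 = b z.2 * y z.2 := by
    intro z hz
    obtain ⟨h0, h1, h2⟩ := glue_supp hz
    have h3 := congrArg Prod.fst h0
    have h4 := congrArg (fun t => t.2.1) h0
    have h5 := congrArg (fun t => t.2.2) h0
    exact ⟨h1, h2, h3, h4, h5⟩
  -- marginals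
  have m1 : ∀ {δ : Type} (f : Ω → δ), CH pG LL (fun z => f z.1) = CH p κ f := by
    intro δ f
    unfold CH
    have e1 : H pG (fun z => (LL z, f z.1)) = H p (fun ω => (κ ω, f ω)) :=
      H_glue_fst hp hfg (fun ω => (κ ω, f ω))
    have e2 : H pG LL = H p κ := H_glue_fst hp hfg κ
    rw [e1, e2]
  have hH : H pG LL = H p κ := H_glue_fst hp hfg κ
  have m2 : ∀ {δ : Type} (f : Ω → δ), CH pG LL (fun z => f z.2) = CH p κ f := by
    intro δ f
    have e0 : CH pG LL (fun z => f z.2) = CH pG (fun z => κ z.2) (fun z => f z.2) :=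
      CH_congr hG (Det.mk' (fun t => t) fun z hz => (hsupp z hz).2.2.1.symm)
        (Det.mk' (fun t => t) fun z hz => (hsupp z hz).2.2.1) (Det.snd _ _ _) (Det.snd _ _ _)
    rw [e0]
    unfold CH
    have e1 : H pG (fun z => (κ z.2, f z.2)) = H p (fun ω => (κ ω, f ω)) :=
      H_glue_snd hp hfg (fun ω => (κ ω, f ω))
    have e2 : H pG (fun z => κ z.2) = H p κ := H_glue_snd hp hfg κ
    rw [e1, e2]
  -- numbers
  set hxx := CH p κ x with hhxx
  set R := CH p κ (fun ω => (a ω * x ω, b ω * y ω)) with hR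
  set hl := CH p κ ℓ with hhl
  set ca := CH p (fun ω => (κ ω, ℓ ω)) a with hca
  set cab := CH p (fun ω => (κ ω, ℓ ω)) (fun ω => (a ω, b ω)) with hcab
  have hbx : CH p κ b = hxx := by
    have e1 := CH_of_im (Q := κ) (f := b) (Q' := fun ω => κ₁ (Lam₁ ω)) (f' := α 0) hb
    have e2 := CH_of_im (Q := κ) (f := x) (Q' := fun ω => κ₁ (Lam₁ ω)) (f' := α 0) hx
    rw [e1, ← e2]
  have hE1 : CH p κ (fun ω => (ℓ ω, (a ω, b ω))) = hl + cab :=
    CH_chain hp κ ℓ (fun ω => (a ω, b ω))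
  have hla : CH p κ (fun ω => (ℓ ω, a ω)) = hl + ca := CH_chain hp κ ℓ a
  -- the full pair
  set U : Ω → K × ((Λ × (ℝ × ℝ)) × (ℝ × ℝ)) :=
    fun ω => (κ ω, ((ℓ ω, (a ω, b ω)), (x ω, y ω))) with hU
  have hUF : Det p U F := Det.mk' (fun t => (t.1, (t.2.1.2.1 * t.2.2.1, t.2.1.2.2 * t.2.2.2)))
    fun ω _ => rfl
  have hTT : CH pG LL (fun z => (U z.1, U z.2)) =
      2 * (hl + cab + (hxx + Real.log A.card)) - R := by
    have e1 : H pG (fun z => (LL z, (U z.1, U z.2))) = H pG (fun z => (U z.1, U z.2)) :=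
      H_congr hG (Det.mk' (fun t => t.2) fun ω _ => rfl)
        (Det.mk' (fun t => (t.1.1, t)) fun ω _ => rfl)
    have e2 : H pG (fun z => (U z.1, U z.2)) = H p U + H p U - H p F :=
      H_glue hp hp hfg hUF hUF
    have e3 : H p U - H p κ = CH p κ (fun ω => (ℓ ω, (a ω, b ω))) + (hxx + Real.log A.card) := hE
    have e4 : H p F - H p κ = R := rfl
    unfold CH
    rw [e1, e2, hH]
    linarith
  -- the ratios
  set r1 : Ω × Ω → ℝ := fun z => a z.2 / a z.1 with hr1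
  set r3 : Ω × Ω → ℝ := fun z => b z.2 / b z.1 with hr3
  have q1 : ∀ z, pG z ≠ 0 → r1 z = x z.1 / x z.2 := by
    intro z hz
    obtain ⟨h1, h2, h3, h4, h5⟩ := hsupp z hz
    simp only [hr1]
    rw [div_eq_div_iff (hne _ h1).2.2.1 (hne _ h2).2.1]
    rw [← h4, mul_comm]
  have q3 : ∀ z, pG z ≠ 0 → r3 z = y z.1 / y z.2 := by
    intro z hz
    obtain ⟨h1, h2, h3, h4, h5⟩ := hsupp z hz
    simp only [hr3]
    rw [div_eq_div_iff (hne _ h1).2.2.2 (hA _ (hne _ h2).1).ne']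
    rw [← h5, mul_comm]
  -- the pairs
  set P : Ω × Ω → (Λ × (ℝ × ℝ)) × (Λ × (ℝ × ℝ)) :=
    fun z => ((ℓ z.1, (a z.1, b z.1)), (ℓ z.2, (a z.2, b z.2))) with hP
  set Qx : Ω × Ω → ℝ × ℝ := fun z => (x z.1, x z.2) with hQx
  set Qy : Ω × Ω → ℝ × ℝ := fun z => (y z.1, y z.2) with hQy
  set Wi : Ω × Ω → (Λ × ℝ) × (Λ × ℝ) := fun z => ((ℓ z.1, a z.1), (ℓ z.2, a z.2)) with hWi
  set Wk : Ω × Ω → ℝ × ℝ := fun z => (b z.1, b z.2) with hWk
  have s1 : CH pG LL (fun z => (P z, Qx z)) + CH pG LL r1 ≤ CH pG LL P + CH pG LL Qx := by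
    apply CH_submod hG
    · exact Det.mk' (fun t => t.2.2.2.1 / t.2.1.2.1) fun ω _ => rfl
    · exact Det.mk' (fun t => t.2.1 / t.2.2) fun ω hω => q1 ω hω
    · exact Det.mk' (fun t => t.2) fun ω _ => rfl
  have s2 : CH pG LL (fun z => (U z.1, U z.2)) + CH pG LL r3 ≤
      CH pG LL (fun z => (P z, Qx z)) + CH pG LL Qy := by
    apply CH_submod hG
    · exact Det.mk' (fun t => t.2.1.2.2.2 / t.2.1.1.2.2) fun ω _ => rfl
    · exact Det.mk' (fun t => t.2.1 / t.2.2) fun ω hω => q3 ω hω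
    · refine Det.mk' (fun t => ((t.1, (t.2.1.1.1, (t.2.1.2.1, t.2.2.1))),
        (t.1, (t.2.1.1.2, (t.2.1.2.2, t.2.2.2))))) fun ω hω => ?_
      obtain ⟨h1, h2, h3, h4, h5⟩ := hsupp ω hω
      simp only [hU, hP, hQx, hQy, hLL]
      rw [h3]
  have s3 : CH pG LL (fun z => (Wi z, b z.1)) + CH pG LL (fun z => (ℓ z.1, a z.1)) ≤
      CH pG LL Wi + CH pG LL (fun z => (ℓ z.1, (a z.1, b z.1))) := by
    apply CH_submod hG
    · exact Det.mk' (fun t => t.2.1) fun ω _ => rfl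
    · exact Det.mk' (fun t => (t.2.1, t.2.2.1)) fun ω _ => rfl
    · exact Det.mk' (fun t => (t.2.1, t.2.2.2.2)) fun ω _ => rfl
  have s4 : CH pG LL P + CH pG LL (fun z => b z.1) ≤
      CH pG LL (fun z => (Wi z, b z.1)) + CH pG LL Wk := by
    apply CH_submod hG
    · exact Det.mk' (fun t => t.2.2) fun ω _ => rfl
    · exact Det.mk' (fun t => t.2.1) fun ω _ => rfl
    · exact Det.mk' (fun t => ((t.2.1.1.1.1, (t.2.1.1.1.2, t.2.1.2)),
        (t.2.1.1.2.1, (t.2.1.1.2.2, t.2.2.2)))) fun ω _ => rfl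
  have s5 : CH pG LL (fun z => (ℓ z.1, (a z.1, b z.1))) = hl + cab := by
    have e1 := m1 (fun ω => (ℓ ω, (a ω, b ω)))
    rw [e1, hE1]
  have s6 : CH pG LL (fun z => (ℓ z.1, a z.1)) = hl + ca := by
    have e1 := m1 (fun ω => (ℓ ω, a ω))
    rw [e1, hla]
  have s7 : CH pG LL (fun z => b z.1) = hxx := by rw [m1 b, hbx]
  -- the pair `Wi`
  have s8 : CH pG LL Wi ≤ 2 * hl + CH pG (fun z => (LL z, (ℓ z.1, ℓ z.2)))
      (fun z => (a z.1, a z.2)) := by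
    have e1 : CH pG LL Wi = CH pG LL (fun z => ((ℓ z.1, ℓ z.2), (a z.1, a z.2))) :=
      CH_eq hG (Det.mk' (fun t => ((t.2.1.1, t.2.2.1), (t.2.1.2, t.2.2.2))) fun ω _ => rfl)
        (Det.mk' (fun t => ((t.2.1.1, t.2.2.1), (t.2.1.2, t.2.2.2))) fun ω _ => rfl)
    have e2 := CH_chain hG LL (fun z => (ℓ z.1, ℓ z.2)) (fun z => (a z.1, a z.2))
    have e3 := CH_subadd hG (Q := LL) (f := fun z => ℓ z.1) (g := fun z => ℓ z.2)
      (k := fun z => (ℓ z.1, ℓ z.2)) (Det.mk' (fun t => t.2) fun ω _ => rfl)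
    rw [m1 ℓ, m2 ℓ] at e3
    rw [e1, e2]
    linarith
  -- laws of the copies
  have im1 : ∀ (f : Ω → ℝ) (t : K × ℝ), im pG (fun z => (LL z, f z.1)) t =
      im p (fun ω => (κ ω, f ω)) t := by
    intro f t
    exact im_glue_fst hp hfg (fun ω => (κ ω, f ω)) t
  have im2 : ∀ (f : Ω → ℝ) (t : K × ℝ), im pG (fun z => (LL z, f z.2)) t =
      im p (fun ω => (κ ω, f ω)) t := by
    intro f t
    have e1 : im pG (fun z => (LL z, f z.2)) t = im pG (fun z => (κ z.2, f z.2)) t := by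
      apply im_congr_supp
      intro z hz
      simp only [hLL]
      rw [(hsupp z hz).2.2.1]
    rw [e1]
    exact im_glue_snd hp hfg (fun ω => (κ ω, f ω)) t
  have im3 : ∀ (t : (K × Λ) × ℝ), im pG (fun z => ((LL z, ℓ z.1), a z.1)) t =
      im p (fun ω => ((κ ω, ℓ ω), a ω)) t := by
    intro t
    exact im_glue_fst hp hfg (fun ω => ((κ ω, ℓ ω), a ω)) t
  have im4 : ∀ (t : (K × Λ) × ℝ), im pG (fun z => ((LL z, ℓ z.2), a z.2)) t =
      im p (fun ω => ((κ ω, ℓ ω), a ω)) t := by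
    intro t
    have e1 : im pG (fun z => ((LL z, ℓ z.2), a z.2)) t =
        im pG (fun z => ((κ z.2, ℓ z.2), a z.2)) t := by
      apply im_congr_supp
      intro z hz
      simp only [hLL]
      rw [(hsupp z hz).2.2.1]
    rw [e1]
    exact im_glue_snd hp hfg (fun ω => ((κ ω, ℓ ω), a ω)) t
  have hk1 : CH p₁ (fun ω => κ₁ (Lam₁ ω)) (α 0) = hxx :=
    (CH_of_im (Q := κ) (f := x) (Q' := fun ω => κ₁ (Lam₁ ω)) (f' := α 0) hx).symm
  have hk2 : CH p₂ (fun ω => κ₂ (Lam₂ ω)) (β 0) = ca :=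
    (CH_of_im (Q := fun ω => (κ ω, ℓ ω)) (f := a) (Q' := fun ω => κ₂ (Lam₂ ω))
      (f' := β 0) ha).symm
  have j1 := hJ p₂ Lam₂ β κ₂ p₂ Lam₂ β κ₂ n N₂ pG (fun z => (LL z, ℓ z.1))
    (fun z => (LL z, ℓ z.2)) (fun z => a z.1) (fun z => a z.2)
    (fun z => (LL z, (ℓ z.1, ℓ z.2))) hT2 hT2 hN2 hG
    (fun t => (im3 t).trans (ha t)) (fun t => (im4 t).trans (ha t))
    (Det.mk' (fun t => (t.1, t.2.1)) fun ω _ => rfl)
    (Det.mk' (fun t => (t.1, t.2.2)) fun ω _ => rfl)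
  have j2 := hJ p₁ Lam₁ α κ₁ p₁ Lam₁ α κ₁ n N₁ pG LL LL (fun z => b z.1) (fun z => b z.2) LL
    hT1 hT1 hN1 hG (fun t => (im1 b t).trans (hb t)) (fun t => (im2 b t).trans (hb t))
    (Det.refl _ _) (Det.refl _ _)
  have j3 := hJ p₁ Lam₁ α κ₁ p₁ Lam₁ α κ₁ n N₁ pG LL LL (fun z => x z.1) (fun z => x z.2) LL
    hT1 hT1 hN1 hG (fun t => (im1 x t).trans (hx t)) (fun t => (im2 x t).trans (hx t))
    (Det.refl _ _) (Det.refl _ _)
  have j4 := hSR A pG LL (fun z => y z.1) (fun z => y z.2) hA hG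
    (fun z hz => ⟨(hne _ (hsupp z hz).1).1, (hne _ (hsupp z hz).2.1).1⟩)
  have r3' : CH pG LL (fun z => y z.2 / y z.1) ≤ CH pG LL r3 := by
    apply CH_mono hG
    refine Det.mk' (fun t => t.2⁻¹) fun z hz => ?_
    simp only
    rw [q3 z hz, inv_div]
  have r1' : CH pG LL (fun z => x z.2 / x z.1) ≤ CH pG LL r1 := by
    apply CH_mono hG
    refine Det.mk' (fun t => t.2⁻¹) fun z hz => ?_
    simp only
    rw [q1 z hz, inv_div]
  have r1'' : CH pG (fun z => (LL z, (ℓ z.1, ℓ z.2))) r1 ≤ CH pG LL r1 :=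
    CH_anti hG (Det.mk' (fun t => t.1) fun ω _ => rfl)
  rw [hk2] at j1
  rw [hk1] at j2 j3
  rw [hTT] at s2
  rw [s6, s5] at s3
  rw [s7] at s4
  have j1' : 2 * CH pG (fun z => (LL z, (ℓ z.1, ℓ z.2))) (fun z => (a z.1, a z.2)) ≤
    CH pG (fun z => (LL z, (ℓ z.1, ℓ z.2))) r1 + 3 * Real.log n + 3 * Real.log N₂ + Cst N₂ -
      2 * (CH p₂ Lam₂ (zz β) - ca) - 2 * (CH p₂ Lam₂ (zz β) - ca) := j1
  have j2' : 2 * CH pG LL Wk ≤ CH pG LL r3 + 3 * Real.log n + 3 * Real.log N₁ + Cst N₁ -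
      2 * (CH p₁ Lam₁ (zz α) - hxx) - 2 * (CH p₁ Lam₁ (zz α) - hxx) := j2
  have j3' : 2 * CH pG LL Qx ≤ CH pG LL (fun z => x z.2 / x z.1) + 3 * Real.log n +
      3 * Real.log N₁ + Cst N₁ -
      2 * (CH p₁ Lam₁ (zz α) - hxx) - 2 * (CH p₁ Lam₁ (zz α) - hxx) := j3
  have j4' : 2 * CH pG LL Qy ≤ CH pG LL (fun z => y z.2 / y z.1) + Real.log (en A) := j4
  rw [hbx]
  linarith

theorem tKB3 (hJ : S_J3) (hSR : S_SR) : S_KB3 := by
  intro Ω Ω₁ Γ₁ K _ _ A p κ x y p₁ Lam₁ α κ₁ n N₁ hA hp hN1 hT1 hx hne hE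
  -- the gluing
  set F : Ω → K × ℝ := fun ω => (κ ω, y ω / x ω) with hF
  have hfg : ∀ t, im p F t = im p F t := fun _ => rfl
  set pG : Ω × Ω → ℝ := glue p p F F with hpG
  have hG : IsLaw pG := glue_law hp hp hfg
  set LL : Ω × Ω → K := fun z => κ z.1 with hLL
  have hsupp : ∀ z, pG z ≠ 0 → p z.1 ≠ 0 ∧ p z.2 ≠ 0 ∧ κ z.1 = κ z.2 ∧
      y z.1 / x z.1 = y z.2 / x z.2 := by
    intro z hz
    obtain ⟨h0, h1, h2⟩ := glue_supp hz
    have h3 := congrArg Prod.fst h0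
    have h4 := congrArg Prod.snd h0
    exact ⟨h1, h2, h3, h4⟩
  have hH : H pG LL = H p κ := H_glue_fst hp hfg κ
  -- numbers
  set hxx := CH p κ x with hhxx
  set R := CH p κ (fun ω => y ω / x ω) with hR
  -- the full pair
  set U : Ω → K × (ℝ × ℝ) := fun ω => (κ ω, (x ω, y ω)) with hU
  have hUF : Det p U F := Det.mk' (fun t => (t.1, t.2.2 / t.2.1)) fun ω _ => rfl
  have hTT : CH pG LL (fun z => (U z.1, U z.2)) = 2 * (hxx + Real.log A.card) - R := by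
    have e1 : H pG (fun z => (LL z, (U z.1, U z.2))) = H pG (fun z => (U z.1, U z.2)) :=
      H_congr hG (Det.mk' (fun t => t.2) fun ω _ => rfl)
        (Det.mk' (fun t => (t.1.1, t)) fun ω _ => rfl)
    have e2 : H pG (fun z => (U z.1, U z.2)) = H p U + H p U - H p F :=
      H_glue hp hp hfg hUF hUF
    have e3 : H p U - H p κ = hxx + Real.log A.card := hE
    have e4 : H p F - H p κ = R := rfl
    unfold CH
    rw [e1, e2, hH]
    linarith
  -- the ratio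
  have hyne : ∀ ω, p ω ≠ 0 → y ω ≠ 0 := fun ω hω => (hA _ (hne ω hω).1).ne'
  set r : Ω × Ω → ℝ := fun z => y z.2 / y z.1 with hr
  have q1 : ∀ z, pG z ≠ 0 → r z = x z.2 / x z.1 := by
    intro z hz
    obtain ⟨h1, h2, h3, h4⟩ := hsupp z hz
    simp only [hr]
    rw [div_eq_div_iff (hne _ h1).2 (hne _ h2).2] at h4
    rw [div_eq_div_iff (hyne _ h1) (hne _ h1).2]
    linarith
  set Qx : Ω × Ω → ℝ × ℝ := fun z => (x z.1, x z.2) with hQx
  set Qy : Ω × Ω → ℝ × ℝ := fun z => (y z.1, y z.2) with hQy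
  have s1 : CH pG LL (fun z => (U z.1, U z.2)) + CH pG LL r ≤ CH pG LL Qx + CH pG LL Qy := by
    apply CH_submod hG
    · exact Det.mk' (fun t => t.2.2 / t.2.1) fun ω hω => q1 ω hω
    · exact Det.mk' (fun t => t.2.2 / t.2.1) fun ω _ => rfl
    · refine Det.mk' (fun t => ((t.1, (t.2.1.1, t.2.2.1)), (t.1, (t.2.1.2, t.2.2.2))))
        fun ω hω => ?_
      obtain ⟨h1, h2, h3, h4⟩ := hsupp ω hω
      simp only [hU, hQx, hQy, hLL]
      rw [h3]
  have im1 : ∀ (f : Ω → ℝ) (t : K × ℝ), im pG (fun z => (LL z, f z.1)) t =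
      im p (fun ω => (κ ω, f ω)) t := by
    intro f t
    exact im_glue_fst hp hfg (fun ω => (κ ω, f ω)) t
  have im2 : ∀ (f : Ω → ℝ) (t : K × ℝ), im pG (fun z => (LL z, f z.2)) t =
      im p (fun ω => (κ ω, f ω)) t := by
    intro f t
    have e1 : im pG (fun z => (LL z, f z.2)) t = im pG (fun z => (κ z.2, f z.2)) t := by
      apply im_congr_supp
      intro z hz
      simp only [hLL]
      rw [(hsupp z hz).2.2.1]
    rw [e1]
    exact im_glue_snd hp hfg (fun ω => (κ ω, f ω)) t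
  have hk1 : CH p₁ (fun ω => κ₁ (Lam₁ ω)) (α 0) = hxx :=
    (CH_of_im (Q := κ) (f := x) (Q' := fun ω => κ₁ (Lam₁ ω)) (f' := α 0) hx).symm
  have j3 := hJ p₁ Lam₁ α κ₁ p₁ Lam₁ α κ₁ n N₁ pG LL LL (fun z => x z.1) (fun z => x z.2) LL
    hT1 hT1 hN1 hG (fun t => (im1 x t).trans (hx t)) (fun t => (im2 x t).trans (hx t))
    (Det.refl _ _) (Det.refl _ _)
  have j4 := hSR A pG LL (fun z => y z.1) (fun z => y z.2) hA hG
    (fun z hz => ⟨(hne _ (hsupp z hz).1).1, (hne _ (hsupp z hz).2.1).1⟩)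
  have r3' : CH pG LL (fun z => x z.2 / x z.1) ≤ CH pG LL r := by
    apply CH_mono hG
    refine Det.mk' (fun t => t.2) fun z hz => ?_
    simp only
    rw [q1 z hz]
  rw [hTT] at s1
  rw [hk1] at j3
  have j3' : 2 * CH pG LL Qx ≤ CH pG LL (fun z => x z.2 / x z.1) + 3 * Real.log n +
      3 * Real.log N₁ + Cst N₁ -
      2 * (CH p₁ Lam₁ (zz α) - hxx) - 2 * (CH p₁ Lam₁ (zz α) - hxx) := j3
  have j4' : 2 * CH pG LL Qy ≤ CH pG LL r + Real.log (en A) := j4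
  linarith

end Pool.Agent.TH408.SP.RB3
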