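import Pool.Agent.TH408.SP.Stm4
import Pool.Agent.TH408.SP.RB3
import Pool.Agent.W342.SPY.EX2

/-!
# Sum-product with exponent 122/91: existence of the extensions
-/

set_option autoImplicit false
set_option linter.unusedSectionVars false

open Finset
open scoped Classical Pointwise

namespace Pool.Agent.TH408.SP.EX4

open Pool.Agent.W904.AK Pool.Agent.W798.SP Pool.Agent.W135.SPX.EX Pool.Agent.W342.SPY.EX2
open Pool.Agent.TH408.SP.RB3

/-- Entropy after adding a conditionally independent copy. -/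
lemma copyH {Ω Ω' γ α β : Type} [Fintype Ω] [Fintype Ω'] {P : Ω' → ℝ} {p : Ω → ℝ} {f : Ω' → γ}
    {g : Ω → γ} (hP : IsLaw P) (hp : IsLaw p) (hfg : ∀ c, im P f c = im p g c) {U : Ω' → α}
    (hU : Det P U f) (v : Ω → β) :
    H (glue P p f g) (fun z => (U z.1, v z.2)) = H P U + CH p g v := by
  have h1 := H_glue hP hp hfg (u := U) (v := fun ω => (g ω, v ω)) hU (Det.fst p g v)
  have hl := glue_law hP hp hfg
  have h2 : H (glue P p f g) (fun z => (U z.1, v z.2)) =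
      H (glue P p f g) (fun z => (U z.1, (g z.2, v z.2))) := by
    refine H_congr hl ?_ (Det.mk' (fun t => (t.1, t.2.2)) fun _ _ => rfl)
    intro x y hx hy hxy
    obtain ⟨a1, a2, a3⟩ := glue_supp hx
    obtain ⟨b1, b2, b3⟩ := glue_supp hy
    have e1 : U x.1 = U y.1 := congrArg Prod.fst hxy
    have e2 : v x.2 = v y.2 := congrArg Prod.snd hxy
    have e3 : g x.2 = g y.2 := by rw [← a1, ← b1]; exact hU _ _ a2 b2 e1
    show (U x.1, (g x.2, v x.2)) = (U y.1, (g y.2, v y.2))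
    rw [e1, e2, e3]
  have h3 : H P f = H p g := H_eq_of_im_eq hfg
  rw [h2, h1, h3]
  unfold CH
  ring

/-- The entropy of a ratio of elements of `A`. -/
lemma ratio_bound (hSR : S_SR) {Ω γ δ : Type} [Fintype Ω] {P : Ω → ℝ} (hP : IsLaw P)
    {A : Finset ℝ} (hpos : ∀ a ∈ A, 0 < a) {Q : Ω → γ} {L : Ω → δ} (hQL : Det P Q L)
    {x y : Ω → ℝ} (hx : ∀ ω, P ω ≠ 0 → x ω ∈ A ∧ y ω ∈ A) :
    3 * CH P Q (fun ω => (x ω, y ω)) - Real.log (en A) - 2 * Real.log A.card ≤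
      3 * CH P Q (fun ω => y ω / x ω) - 2 * CH P L (fun ω => y ω / x ω) := by
  have h1 := hSR A P (fun _ => ()) x y hpos hP hx
  -- submodularity over the trivial condition
  have h2 : CH P Q (fun ω => (x ω, y ω)) + CH P (fun _ => ()) (fun ω => y ω / x ω) ≤
      CH P Q (fun ω => y ω / x ω) + CH P (fun _ => ()) (fun ω => (x ω, y ω)) := by
    have s := submod' hP (f := fun ω => (Q ω, y ω / x ω)) (g := fun ω => ((), (x ω, y ω)))
      (h := fun ω => ((), y ω / x ω)) (k := fun ω => (Q ω, (x ω, y ω)))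
      (Det.mk' (fun t => ((), t.2)) fun _ _ => rfl)
      (Det.mk' (fun t => ((), t.2.2 / t.2.1)) fun _ _ => rfl)
      (Det.mk' (fun t => (t.1.1, t.2.2)) fun _ _ => rfl)
    unfold CH
    linarith
  have h3 : CH P L (fun ω => y ω / x ω) ≤ CH P (fun _ => ()) (fun ω => y ω / x ω) :=
    CH_anti hP (Det.of_unit _ _)
  have h4 : CH P Q (fun ω => (x ω, y ω)) + CH P L (fun ω => y ω / x ω) ≤
      CH P Q (fun ω => y ω / x ω) + CH P L (fun ω => (x ω, y ω)) := by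
    have hQL' : Det P (fun ω => (Q ω, y ω / x ω)) L := (Det.fst _ _ _).trans hQL
    have s := submod' hP (f := fun ω => (Q ω, y ω / x ω)) (g := fun ω => (L ω, (x ω, y ω)))
      (h := fun ω => (L ω, y ω / x ω)) (k := fun ω => (Q ω, (x ω, y ω)))
      (Det.pair hQL' (Det.snd _ _ _))
      (Det.mk' (fun t => (t.1, t.2.2 / t.2.1)) fun _ _ => rfl)
      (Det.mk' (fun t => (t.1.1, t.2.2)) fun _ _ => rfl)
    unfold CH
    linarith
  have h5 : CH P L (fun ω => (x ω, y ω)) ≤ 2 * Real.log A.card := by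
    refine (CH_le_avg hP L _ (fun _ => A ×ˢ A) fun ω hω =>
      Finset.mem_product.2 (hx ω hω)).trans ?_
    rw [← Finset.sum_mul, hP.total, one_mul, Finset.card_product, Nat.cast_mul, ← pow_two,
      Real.log_pow]
    norm_num
  linarith

/-- EX4. -/
theorem tEX4 (hPR : S_PR4) (hSR : S_SR) : S_EX4 := by
  intro Ω Γ₁ Γ₂ _ A p l u n N i Lam₁ α κ₁ Lam₂ β κ₂ hA hpos hB hN hT1 hk1 hT2 hk2
  have hp := hB.law
  have hfibA : ∀ (a : ℝ) {x : ℝ}, x ∈ fib A a → x ∈ A := fun a x hx =>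
    (Finset.mem_filter.1 hx).1
  have hfibA' : ∀ (a : ℝ) {x : ℝ}, x ∈ fib A a → a * x ∈ A := fun a x hx =>
    (Finset.mem_filter.1 hx).2
  have hm : ∀ ω, p ω ≠ 0 → ∀ j : Fin 3, u j ω ∈ fib A (l j.castSucc ω) := hB.mem
  have hm0 : ∀ ω, p ω ≠ 0 → u 0 ω ∈ fib A (l 0 ω) := fun ω h => hB.mem ω h 0
  have hu : ∀ ω, p ω ≠ 0 → ∀ j : Fin 3, u j ω ≠ 0 := fun ω h j =>
    (hpos _ (hfibA _ (hm ω h j))).ne'
  have hl : ∀ ω, p ω ≠ 0 → ∀ j, l j ω ≠ 0 := fun ω h j => (hB.lpos ω h j).ne'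
  have hf1 : (fun ω => (κ₁ (Lam₁ ω), α 0 ω)) = fun ω => (l 0 ω, u 0 ω) :=
    funext fun ω => by rw [(hk1 ω).1, (hk1 ω).2]
  have hf2 : (fun ω => (κ₂ (Lam₂ ω), β 0 ω)) = fun ω => (l i.castSucc ω, u i ω) :=
    funext fun ω => by rw [(hk2 ω).1, (hk2 ω).2]
  -- the first law
  have g1 : ∀ c, im p (u 0) c = im p (u 0) c := fun _ => rfl
  obtain ⟨P1, hP1⟩ : ∃ P, P = glue p p (u 0) (u 0) := ⟨_, rfl⟩
  have L1 : IsLaw P1 := by rw [hP1]; exact glue_law hp hp g1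
  have S1 : ∀ z, P1 z ≠ 0 → u 0 z.1 = u 0 z.2 ∧ p z.1 ≠ 0 ∧ p z.2 ≠ 0 := by
    intro z hz
    rw [hP1] at hz
    exact glue_supp hz
  have I1 : ∀ {δ : Type} (f : Ω → δ) (c : δ), im P1 (fun z => f z.1) c = im p f c := by
    intro δ f c
    rw [hP1]
    exact im_glue_fst hp g1 f c
  -- the second law
  have g2 : ∀ c, im P1 (fun z => u i z.1) c = im p (u i) c := fun c => I1 (u i) c
  obtain ⟨P2, hP2⟩ : ∃ P, P = glue P1 p (fun z => u i z.1) (u i) := ⟨_, rfl⟩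
  have L2 : IsLaw P2 := by rw [hP2]; exact glue_law L1 hp g2
  have S2 : ∀ z, P2 z ≠ 0 → u i z.1.1 = u i z.2 ∧ P1 z.1 ≠ 0 ∧ p z.2 ≠ 0 := by
    intro z hz
    rw [hP2] at hz
    exact glue_supp hz
  have I2 : ∀ {δ : Type} (f : Ω × Ω → δ) (c : δ), im P2 (fun z => f z.1) c = im P1 f c := by
    intro δ f c
    rw [hP2]
    exact im_glue_fst L1 g2 f c
  -- the third law
  have g3 : ∀ c, im P2 (fun z => l 0 z.1.2) c = im p (l 0) c := by
    intro c
    refine (I2 (fun z => l 0 z.2) c).trans ?_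
    rw [hP1]
    exact im_glue_snd hp g1 (l 0) c
  obtain ⟨P3, hP3⟩ : ∃ P, P = glue P2 p (fun z => l 0 z.1.2) (l 0) := ⟨_, rfl⟩
  have L3 : IsLaw P3 := by rw [hP3]; exact glue_law L2 hp g3
  have S3 : ∀ z, P3 z ≠ 0 → l 0 z.1.1.2 = l 0 z.2 ∧ P2 z.1 ≠ 0 ∧ p z.2 ≠ 0 := by
    intro z hz
    rw [hP3] at hz
    exact glue_supp hz
  have I3 : ∀ {δ : Type} (f : (Ω × Ω) × Ω → δ) (c : δ),
      im P3 (fun z => f z.1) c = im P2 f c := by
    intro δ f c
    rw [hP3]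
    exact im_glue_fst L2 g3 f c
  -- the fourth law
  have g4 : ∀ c, im P3 (fun z => l i.castSucc z.1.2) c = im p (l i.castSucc) c := by
    intro c
    refine (I3 (fun z => l i.castSucc z.2) c).trans ?_
    rw [hP2]
    exact im_glue_snd hp g2 (l i.castSucc) c
  obtain ⟨P4, hP4⟩ : ∃ P, P = glue P3 p (fun z => l i.castSucc z.1.2) (l i.castSucc) := ⟨_, rfl⟩
  have L4 : IsLaw P4 := by rw [hP4]; exact glue_law L3 hp g4
  have S4 : ∀ z, P4 z ≠ 0 → l i.castSucc z.1.1.2 = l i.castSucc z.2 ∧ P3 z.1 ≠ 0 ∧ p z.2 ≠ 0 := by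
    intro z hz
    rw [hP4] at hz
    exact glue_supp hz
  have I4 : ∀ {δ : Type} (f : ((Ω × Ω) × Ω) × Ω → δ) (c : δ),
      im P4 (fun z => f z.1) c = im P3 f c := by
    intro δ f c
    rw [hP4]
    exact im_glue_fst L3 g4 f c
  -- facts on the support of `P2`
  have F2 : ∀ z, P2 z ≠ 0 → p z.1.1 ≠ 0 ∧ p z.1.2 ≠ 0 ∧ p z.2 ≠ 0 ∧ u 0 z.1.1 = u 0 z.1.2 ∧
      u i z.1.1 = u i z.2 := by
    intro z hz
    obtain ⟨a1, a2, a3⟩ := S2 z hz
    obtain ⟨b1, b2, b3⟩ := S1 _ a2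
    exact ⟨b2, b3, a3, b1, a1⟩
  have X2 : ∀ z, P2 z ≠ 0 → l 0 z.1.2 * u 0 z.1.1 ∈ A ∧ l i.castSucc z.2 * u i z.1.1 ∈ A := by
    intro z hz
    obtain ⟨c1, c2, c3, c4, c5⟩ := F2 z hz
    rw [c4, c5]
    exact ⟨hfibA' _ (hm0 _ c2), hfibA' _ (hm _ c3 i)⟩
  -- entropies of the second law
  have H1 : H P1 (fun z => ((zz l z.1, zz u z.1), l 0 z.2)) =
      H p (fun ω => (zz l ω, zz u ω)) + CH p (u 0) (l 0) := by
    rw [hP1]
    exact copyH hp hp g1 (U := fun ω => (zz l ω, zz u ω))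
      (Det.mk' (fun t => t.2 0) fun _ _ => rfl) (l 0)
  have H2 : H P2 (fun z => (((zz l z.1.1, zz u z.1.1), l 0 z.1.2), l i.castSucc z.2)) =
      H p (fun ω => (zz l ω, zz u ω)) + CH p (u 0) (l 0) + CH p (u i) (l i.castSucc) := by
    rw [← H1, hP2]
    exact copyH L1 hp g2 (U := fun z => ((zz l z.1, zz u z.1), l 0 z.2))
      (Det.mk' (fun t => t.1.2 i) fun _ _ => rfl) (l i.castSucc)
  have H3 : H P2 (fun z => (zz l z.1.1, zz u z.1.1)) = H p (fun ω => (zz l ω, zz u ω)) := by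
    refine (H_eq_of_im_eq (I2 (fun z => (zz l z.1, zz u z.1)))).trans ?_
    exact H_eq_of_im_eq (I1 (fun ω => (zz l ω, zz u ω)))
  have Hxy : CH P2 (fun z => (zz l z.1.1, zz u z.1.1))
      (fun z => (l 0 z.1.2 * u 0 z.1.1, l i.castSucc z.2 * u i z.1.1)) =
      CH p (u 0) (l 0) + CH p (u i) (l i.castSucc) := by
    have e1 : H P2 (fun z => ((zz l z.1.1, zz u z.1.1),
        (l 0 z.1.2 * u 0 z.1.1, l i.castSucc z.2 * u i z.1.1))) =
        H P2 (fun z => (((zz l z.1.1, zz u z.1.1), l 0 z.1.2), l i.castSucc z.2)) := by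
      refine H_congr L2 (Det.mk' (fun t => ((t.1, t.2.1 / t.1.2 0), t.2.2 / t.1.2 i)) ?_)
        (Det.mk' (fun t => (t.1.1, (t.1.2 * t.1.1.2 0, t.2 * t.1.1.2 i))) fun _ _ => rfl)
      intro z hz
      obtain ⟨c1, c2, c3, c4, c5⟩ := F2 z hz
      have d0 := hu _ c1 0
      have di := hu _ c1 i
      show (((zz l z.1.1, zz u z.1.1), l 0 z.1.2), l i.castSucc z.2) =
        (((zz l z.1.1, zz u z.1.1), l 0 z.1.2 * u 0 z.1.1 / u 0 z.1.1),
          l i.castSucc z.2 * u i z.1.1 / u i z.1.1)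
      rw [mul_div_assoc, div_self d0, mul_one, mul_div_assoc, div_self di, mul_one]
    unfold CH at H2 ⊢
    rw [e1, H2, H3]
    ring
  -- the bound for `B`
  have hBb := ratio_bound hSR L2 hpos (Q := fun z => (zz l z.1.1, zz u z.1.1))
    (L := fun z => zz l z.1.1) (Det.fst _ _ _) X2
  rw [Hxy] at hBb
  have hlA : ∀ j : Fin 3, H p (u j) ≤ Real.log A.card := fun j =>
    H_le_card hp (u j) A fun ω hω => hfibA _ (hm ω hω j)
  have hc : ∀ j : Fin 3, H p (fun ω => (l j.castSucc ω, u j ω)) - Real.log A.card ≤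
      CH p (u j) (l j.castSucc) := by
    intro j
    have e1 : H p (fun ω => (u j ω, l j.castSucc ω)) = H p (fun ω => (l j.castSucc ω, u j ω)) :=
      H_congr hp (Det.mk' (fun t => (t.2, t.1)) fun _ _ => rfl)
        (Det.mk' (fun t => (t.2, t.1)) fun _ _ => rfl)
    unfold CH
    rw [e1]
    linarith [hlA j]
  have hc0 : H p (fun ω => (l 0 ω, u 0 ω)) - Real.log A.card ≤ CH p (u 0) (l 0) := hc 0
  have hci := hc i
  -- the ratio
  have hrat : ∀ z, P2 z ≠ 0 → u i z.1.1 / (u 0 z.1.1 *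
      (l i.castSucc z.2 * u i z.1.1 / (l 0 z.1.2 * u 0 z.1.1))) =
      l 0 z.1.2 / l i.castSucc z.2 := by
    intro z hz
    obtain ⟨c1, c2, c3, c4, c5⟩ := F2 z hz
    have d0 := hu _ c1 0
    have di := hu _ c1 i
    have d1 := hl _ c2 0
    have d2 := hl _ c3 i.castSucc
    field_simp
  -- elements of the fibre
  have hfibAA : ∀ {a b x y : ℝ}, 0 < b → x ∈ fib A a → y ∈ fib A b →
      x * (b * y) ∈ fib (A * A) (a / b) := by
    intro a b x y hb hx hy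
    refine Finset.mem_filter.2 ⟨Finset.mul_mem_mul (hfibA _ hx) (hfibA' _ hy), ?_⟩
    have : a / b * (x * (b * y)) = (a * x) * y := by
      field_simp
    rw [this]
    exact Finset.mul_mem_mul (hfibA' _ hx) (hfibA _ hy)
  -- the law of the product
  have F4 : ∀ z, P4 z ≠ 0 → P2 z.1.1 ≠ 0 ∧ p z.1.2 ≠ 0 ∧ p z.2 ≠ 0 ∧
      l 0 z.1.1.1.2 = l 0 z.1.2 ∧ l i.castSucc z.1.1.2 = l i.castSucc z.2 := by
    intro z hz
    obtain ⟨a1, a2, a3⟩ := S4 z hz
    obtain ⟨b1, b2, b3⟩ := S3 _ a2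
    exact ⟨b2, b3, a3, b1, a1⟩
  have K1 : ∀ c, im P4 (fun z => (l 0 z.1.1.1.2, u 0 z.1.2)) c =
      im p (fun ω => (l 0 ω, u 0 ω)) c := by
    intro c
    refine (I4 (fun z => (l 0 z.1.1.2, u 0 z.2)) c).trans ?_
    have e1 : im P3 (fun z => (l 0 z.1.1.2, u 0 z.2)) c =
        im P3 (fun z => (l 0 z.2, u 0 z.2)) c :=
      im_congr_supp (fun z hz => by rw [(S3 z hz).1]) c
    rw [e1, hP3]
    exact im_glue_snd hp g3 (fun ω => (l 0 ω, u 0 ω)) c
  have K2 : ∀ c, im P4 (fun z => (l i.castSucc z.1.1.2, u i z.2)) c =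
      im p (fun ω => (l i.castSucc ω, u i ω)) c := by
    intro c
    have e1 : im P4 (fun z => (l i.castSucc z.1.1.2, u i z.2)) c =
        im P4 (fun z => (l i.castSucc z.2, u i z.2)) c :=
      im_congr_supp (fun z hz => by rw [(S4 z hz).1]) c
    rw [e1, hP4]
    exact im_glue_snd hp g4 (fun ω => (l i.castSucc ω, u i ω)) c
  have E1 : H P3 (fun z => ((l 0 z.1.1.2, l i.castSucc z.1.2), u 0 z.2)) =
      H P2 (fun z => (l 0 z.1.2, l i.castSucc z.2)) + CH p (l 0) (u 0) := by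
    rw [hP3]
    exact copyH L2 hp g3 (U := fun z => (l 0 z.1.2, l i.castSucc z.2))
      (Det.mk' (fun t => t.1) fun _ _ => rfl) (u 0)
  have E2 : H P4 (fun z => (((l 0 z.1.1.1.2, l i.castSucc z.1.1.2), u 0 z.1.2), u i z.2)) =
      H P2 (fun z => (l 0 z.1.2, l i.castSucc z.2)) + CH p (l 0) (u 0) +
        CH p (l i.castSucc) (u i) := by
    rw [← E1, hP4]
    exact copyH L3 hp g4 (U := fun z => ((l 0 z.1.1.2, l i.castSucc z.1.2), u 0 z.2))
      (Det.mk' (fun t => t.1.2) fun _ _ => rfl) (u i)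
  have E3 : H P4 (fun z => (l 0 z.1.1.1.2, l i.castSucc z.1.1.2)) =
      H P2 (fun z => (l 0 z.1.2, l i.castSucc z.2)) := by
    refine (H_eq_of_im_eq (I4 (fun z => (l 0 z.1.1.2, l i.castSucc z.1.2)))).trans ?_
    exact H_eq_of_im_eq (I3 (fun z => (l 0 z.1.2, l i.castSucc z.2)))
  have E4 : CH P4 (fun z => (l 0 z.1.1.1.2, l i.castSucc z.1.1.2))
      (fun z => (u 0 z.1.2, u i z.2)) =
      CH P4 (fun z => l 0 z.1.1.1.2) (fun z => u 0 z.1.2) +
        CH P4 (fun z => l i.castSucc z.1.1.2) (fun z => u i z.2) := by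
    rw [CH_of_im K1, CH_of_im K2]
    have e1 : H P4 (fun z => ((l 0 z.1.1.1.2, l i.castSucc z.1.1.2), (u 0 z.1.2, u i z.2))) =
        H P4 (fun z => (((l 0 z.1.1.1.2, l i.castSucc z.1.1.2), u 0 z.1.2), u i z.2)) :=
      H_congr L4 (Det.mk' (fun t => ((t.1, t.2.1), t.2.2)) fun _ _ => rfl)
        (Det.mk' (fun t => (t.1.1, (t.1.2, t.2))) fun _ _ => rfl)
    have e2 : CH P4 (fun z => (l 0 z.1.1.1.2, l i.castSucc z.1.1.2))
      (fun z => (u 0 z.1.2, u i z.2)) =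
      H P4 (fun z => ((l 0 z.1.1.1.2, l i.castSucc z.1.1.2), (u 0 z.1.2, u i z.2))) -
      H P4 (fun z => (l 0 z.1.1.1.2, l i.castSucc z.1.1.2)) := rfl
    rw [e2, e1, E2, E3]
    ring
  have hprod := hPR P4 (fun z => l 0 z.1.1.1.2) (fun z => l i.castSucc z.1.1.2)
    (fun z => u 0 z.1.2) (fun z => u i z.2) p Lam₁ α κ₁ p Lam₂ β κ₂ n N L4 hN hT1 hT2
    (fun c => by rw [K1 c, hf1]) (fun c => by rw [K2 c, hf2])
    (fun z hz => ⟨hu _ (F4 z hz).2.1 0, hu _ (F4 z hz).2.2.1 i⟩) E4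
  have havg := CH_le_avg L4 (fun z => (l 0 z.1.1.1.2, l i.castSucc z.1.1.2))
    (fun z => u 0 z.1.2 * u i z.2)
    (fun q => (fib (A * A) (q.1 / q.2)).image (fun t => t / q.2))
    (by
      intro z hz
      obtain ⟨c1, c2, c3, c4, c5⟩ := F4 z hz
      have hlp := hB.lpos _ c3 i.castSucc
      refine Finset.mem_image.2 ⟨u 0 z.1.2 * (l i.castSucc z.2 * u i z.2), ?_, ?_⟩
      · show u 0 z.1.2 * (l i.castSucc z.2 * u i z.2) ∈
          fib (A * A) (l 0 z.1.1.1.2 / l i.castSucc z.1.1.2)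
        rw [c4, c5]
        exact hfibAA hlp (hm0 _ c2) (hm _ c3 i)
      · show u 0 z.1.2 * (l i.castSucc z.2 * u i z.2) / l i.castSucc z.1.1.2 = _
        rw [c5]
        field_simp)
  -- the sum over the big law
  have hfin : ∑ z, P4 z * Real.log ((((fib (A * A)
      ((l 0 z.1.1.1.2) / (l i.castSucc z.1.1.2))).image
        (fun t => t / l i.castSucc z.1.1.2)).card : ℕ) : ℝ) ≤
      ∑ z, P4 z * Real.log ((fib (A * A)
      ((l 0 z.1.1.1.2) / (l i.castSucc z.1.1.2))).card : ℝ) := by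
    refine Finset.sum_le_sum fun z _ => ?_
    by_cases h : P4 z = 0
    · simp [h]
    refine mul_le_mul_of_nonneg_left ?_ (L4.nonneg z)
    obtain ⟨c1, c2, c3, c4, c5⟩ := F4 z h
    have hne : ((fib (A * A) ((l 0 z.1.1.1.2) / (l i.castSucc z.1.1.2))).image
        (fun t => t / l i.castSucc z.1.1.2)).Nonempty := by
      refine Finset.Nonempty.image ⟨u 0 z.1.2 * (l i.castSucc z.2 * u i z.2), ?_⟩ _
      rw [c4, c5]
      exact hfibAA (hB.lpos _ c3 i.castSucc) (hm0 _ c2) (hm _ c3 i)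
    refine Real.log_le_log (by exact_mod_cast Finset.card_pos.2 hne) ?_
    exact_mod_cast Finset.card_image_le
  have T1 : ∑ z, P4 z * Real.log ((fib (A * A)
      ((l 0 z.1.1.1.2) / (l i.castSucc z.1.1.2))).card : ℝ) =
      ∑ z, P2 z * Real.log ((fib (A * A) ((l 0 z.1.2) / (l i.castSucc z.2))).card : ℝ) := by
    have e1 := sum_im_mul P4 Prod.fst (fun z => Real.log ((fib (A * A)
      ((l 0 z.1.1.2) / (l i.castSucc z.1.2))).card : ℝ))
    have e2 : im P4 Prod.fst = P3 := by rw [hP4]; exact glue_fst L3 g4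
    rw [e2] at e1
    have e3 := sum_im_mul P3 Prod.fst (fun z => Real.log ((fib (A * A)
      ((l 0 z.1.2) / (l i.castSucc z.2))).card : ℝ))
    have e4 : im P3 Prod.fst = P2 := by rw [hP3]; exact glue_fst L2 g3
    rw [e4] at e3
    rw [← e1, ← e3]
  have T2 : ∑ z, P2 z * Real.log ((fib (A * A) ((l 0 z.1.2) / (l i.castSucc z.2))).card : ℝ) =
      ∑ z, P2 z * Real.log ((fib (A * A) (u i z.1.1 / (u 0 z.1.1 *
      (l i.castSucc z.2 * u i z.1.1 / (l 0 z.1.2 * u 0 z.1.1))))).card : ℝ) := by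
    refine Finset.sum_congr rfl fun z _ => ?_
    by_cases h : P2 z = 0
    · simp [h]
    rw [hrat z h]
  refine ⟨(Ω × Ω) × Ω, inferInstance, P2, fun z => zz l z.1.1, fun k z => u k z.1.1,
    fun z => l i.castSucc z.2 * u i z.1.1 / (l 0 z.1.2 * u 0 z.1.1), L2, ?_, ?_, ?_, ?_⟩
  · intro a
    refine (I2 (fun z => (zz l z.1, zz u z.1)) a).trans ?_
    exact I1 (fun ω => (zz l ω, zz u ω)) a
  · intro z hz
    obtain ⟨c1, c2, c3, c4, c5⟩ := F2 z hz
    obtain ⟨x1, x2⟩ := X2 z hz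
    refine ⟨div_ne_zero (hpos _ x2).ne' (hpos _ x1).ne', Finset.div_mem_div x2 x1, hu _ c1 i,
      hu _ c1 0, ?_⟩
    show 1 ≤ (fib (A * A) (u i z.1.1 / (u 0 z.1.1 *
      (l i.castSucc z.2 * u i z.1.1 / (l 0 z.1.2 * u 0 z.1.1))))).card
    rw [hrat z hz, Nat.one_le_iff_ne_zero, ← Nat.pos_iff_ne_zero, Finset.card_pos]
    exact ⟨_, hfibAA (hB.lpos _ c3 i.castSucc) (hm0 _ c2) (hm _ c3 i)⟩
  · have : CH P2 (fun z => (zz l z.1.1, zz u z.1.1)) (fun z => l i.castSucc z.2 * u i z.1.1 /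
        (l 0 z.1.2 * u 0 z.1.1)) = CH P2 (fun z => (zz l z.1.1, zz (fun k z => u k z.1.1) z))
        (fun z => l i.castSucc z.2 * u i z.1.1 / (l 0 z.1.2 * u 0 z.1.1)) := rfl
    rw [this] at hBb
    linarith
  · show _ ≤ ∑ z, P2 z * Real.log ((fib (A * A) (u i z.1.1 / (u 0 z.1.1 *
      (l i.castSucc z.2 * u i z.1.1 / (l 0 z.1.2 * u 0 z.1.1))))).card : ℝ)
    rw [← T2, ← T1]
    exact hprod.trans (havg.trans hfin)

end Pool.Agent.TH408.SP.EX4
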