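import Pool.Agent.TH408.SP.Stm3
import Pool.Agent.W612.SPY.FI2

/-!
# Sum-product with exponent 91/68: the final row
-/

set_option autoImplicit false
set_option linter.unusedSectionVars false

open Finset
open scoped Classical Pointwise

namespace Pool.Agent.TH408.SP.FI3

open Pool.Agent.W904.AK Pool.Agent.W798.SP Pool.Agent.TH408.SP
open Pool.Agent.W612.SPY (pos_mul cls sz cls_card card_le mem_cls fib_le le_div' log_size low
  sum_fst sum_snd)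

variable {Γ : Type}

/-- The slope and the intercept. -/
noncomputable def lin (c : Fin 3 → Γ → ℝ) (q : Γ) (t : ℝ × ℝ) : ℝ × ℝ :=
  (-(c 1 q / c 2 q) * (t.1 / t.2), -(c 0 q / c 2 q) / t.2)

/-- The set of lines. -/
noncomputable def LL (A : Finset ℝ) (c : Fin 3 → Γ → ℝ) (q : Γ × (ℕ × ℕ)) : Finset (ℝ × ℝ) :=
  if 2 ^ q.2.1 ≤ (A * A).card ∧ 2 ^ q.2.2 ≤ (A * A).card then
    ((A / A) ×ˢ (A / A)).image (lin c q.1) else ∅

lemma LL_card {A : Finset ℝ} (hA : ∀ a ∈ A, 0 < a) (c : Fin 3 → Γ → ℝ) (q : Γ × (ℕ × ℕ)) :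
    (LL A c q).card ≤ (sz (A * A).card q.2.1 * sz (A * A).card q.2.2) ^ 2 := by
  unfold LL sz
  split_ifs with h
  · have h1 := le_div' h.1
    have h2 := le_div' h.2
    have h3 : (A / A).card ≤ (A * A).card * (A * A).card :=
      Finset.card_div_le.trans (Nat.mul_le_mul (card_le hA) (card_le hA))
    calc (((A / A) ×ˢ (A / A)).image (lin c q.1)).card ≤ ((A / A) ×ˢ (A / A)).card :=
          Finset.card_image_le
      _ = (A / A).card * (A / A).card := Finset.card_product _ _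
      _ ≤ ((A * A).card * (A * A).card) * ((A * A).card * (A * A).card) := Nat.mul_le_mul h3 h3
      _ = ((A * A).card * (A * A).card) ^ 2 := (sq _).symm
      _ ≤ _ := Nat.pow_le_pow_left (Nat.mul_le_mul h1 h2) 2
  · simp

section core

variable {Ω : Type} [Fintype Ω] {p : Ω → ℝ} (A : Finset ℝ) (L : Ω → Γ)
  (v : Fin 3 → Ω → ℝ) (ka kb : Ω → ℝ) (c : Fin 3 → Γ → ℝ)

/-- The first ratio. -/
noncomputable def xa (ω : Ω) : ℝ := v 1 ω / (v 0 ω * ka ω)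

/-- The second ratio. -/
noncomputable def xb (ω : Ω) : ℝ := v 2 ω / (v 0 ω * kb ω)

/-- The condition. -/
noncomputable def QQ (ω : Ω) : Γ × (ℕ × ℕ) :=
  (L ω, (Nat.log 2 (fib (A * A) (xa v ka ω)).card, Nat.log 2 (fib (A * A) (xb v kb ω)).card))

lemma CH_QQ (hp : IsLaw p) {β : Type} (f : Ω → β) :
    CH p L f ≤ CH p (QQ A L v ka kb) f + CH p L (fun ω => (QQ A L v ka kb ω).2) := by
  have h1 : H p (fun ω => (L ω, f ω)) ≤ H p (fun ω => (QQ A L v ka kb ω, f ω)) :=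
    H_mono hp (Det.mk' (fun t => (t.1.1, t.2)) fun ω _ => rfl)
  have h2 : H p (fun ω => (L ω, (QQ A L v ka kb ω).2)) = H p (QQ A L v ka kb) := rfl
  unfold CH
  rw [h2]
  linarith

lemma CH_cls (hp : IsLaw p) :
    CH p L (fun ω => (QQ A L v ka kb ω).2) ≤
      2 * Real.log ((Nat.log 2 (A * A).card : ℝ) + 1) := by
  have hm : ∀ x : ℝ, Nat.log 2 (fib (A * A) x).card ∈
      Finset.range (Nat.log 2 (A * A).card + 1) := by
    intro x
    rw [Finset.mem_range]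
    have := Nat.log_mono_right (b := 2) (fib_le (A * A) x)
    omega
  have gc := Pool.Agent.W554.SPX.t_GC p L (fun ω => (QQ A L v ka kb ω).2) (fun _ : Ω => ())
    (fun _ => Finset.range (Nat.log 2 (A * A).card + 1) ×ˢ
      Finset.range (Nat.log 2 (A * A).card + 1)) (fun _ _ => {()}) 0
    (((Nat.log 2 (A * A).card : ℝ) + 1) ^ 2) hp
    (fun ω _ => ⟨Finset.mem_product.2 ⟨hm _, hm _⟩, Finset.mem_singleton_self _⟩) (fun ω _ => by
      simp [sq])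
  rw [Real.log_pow] at gc
  push_cast at gc
  linarith

lemma qq1 (ω : Ω) : (QQ A L v ka kb ω).2.1 = Nat.log 2 (fib (A * A) (xa v ka ω)).card := rfl

lemma qq2 (ω : Ω) : (QQ A L v ka kb ω).2.2 = Nat.log 2 (fib (A * A) (xb v kb ω)).card := rfl

theorem std (h1 : S_STD) (hp : IsLaw p) (hA : ∀ a ∈ A, 0 < a)
    (h0 : ∀ ω, p ω ≠ 0 → v 0 ω ≠ 0 ∧ ka ω ≠ 0 ∧ kb ω ≠ 0)
    (hk : ∀ ω, p ω ≠ 0 → ka ω ∈ A / A ∧ kb ω ∈ A / A)
    (hf : ∀ ω, p ω ≠ 0 → 1 ≤ (fib (A * A) (xa v ka ω)).card ∧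
      1 ≤ (fib (A * A) (xb v kb ω)).card)
    (hL : ∀ ω, p ω ≠ 0 → ∀ i, c i (L ω) ≠ 0)
    (hr : ∀ ω, p ω ≠ 0 → ∑ i, c i (L ω) * v i ω = 0) :
    3 * CH p (QQ A L v ka kb) (fun ω => (((lin c (L ω) (ka ω, kb ω)).1,
      (lin c (L ω) (ka ω, kb ω)).2), (xa v ka ω, xb v kb ω))) ≤
      2 * CH p (QQ A L v ka kb) (fun ω => ((lin c (L ω) (ka ω, kb ω)).1,
      (lin c (L ω) (ka ω, kb ω)).2)) +
      2 * ∑ ω, p ω * (Real.log (sz (A * A).card (QQ A L v ka kb ω).2.1) +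
        Real.log (sz (A * A).card (QQ A L v ka kb ω).2.2)) + Cst ((A * A).card ^ 2) := by
  refine h1 p (QQ A L v ka kb) (xa v ka) (xb v kb) (fun ω => (lin c (L ω) (ka ω, kb ω)).1)
    (fun ω => (lin c (L ω) (ka ω, kb ω)).2)
    (fun q => sz (A * A).card q.2.1) (fun q => sz (A * A).card q.2.2) ((A * A).card ^ 2)
    (fun q => cls A q.2.1) (fun q => cls A q.2.2) (LL A c) hp
    (fun q => cls_card hA _) (fun q => cls_card hA _) (fun q => LL_card hA c q)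
    (fun q => Nat.div_le_self _ _) ?_
  intro ω hω
  obtain ⟨v0, a0, b0⟩ := h0 ω hω
  obtain ⟨f0, f1⟩ := hf ω hω
  have l1 := hL ω hω 1
  have l2 := hL ω hω 2
  refine ⟨mem_cls hA f0, mem_cls hA f1, ?_, ?_, ?_⟩
  · show -(c 1 (L ω) / c 2 (L ω)) * (ka ω / kb ω) ≠ 0
    exact mul_ne_zero (neg_ne_zero.2 (div_ne_zero l1 l2)) (div_ne_zero a0 b0)
  · show v 2 ω / (v 0 ω * kb ω) = -(c 1 (L ω) / c 2 (L ω)) * (ka ω / kb ω) *
      (v 1 ω / (v 0 ω * ka ω)) + -(c 0 (L ω) / c 2 (L ω)) / kb ω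
    have r := hr ω hω
    rw [Fin.sum_univ_three] at r
    field_simp
    linear_combination r
  · have : LL A c (QQ A L v ka kb ω) = ((A / A) ×ˢ (A / A)).image (lin c (L ω)) :=
      if_pos ⟨low A f0, low A f1⟩
    rw [this]
    exact Finset.mem_image.2 ⟨(ka ω, kb ω), Finset.mem_product.2 (hk ω hω), rfl⟩

theorem logs (hp : IsLaw p) (hf : ∀ ω, p ω ≠ 0 → 1 ≤ (fib (A * A) (xa v ka ω)).card ∧
      1 ≤ (fib (A * A) (xb v kb ω)).card) :
    ∑ ω, p ω * (Real.log (sz (A * A).card (QQ A L v ka kb ω).2.1) +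
        Real.log (sz (A * A).card (QQ A L v ka kb ω).2.2)) ≤
      4 * Real.log (A * A).card + 2 * Real.log 2 -
        ∑ ω, p ω * Real.log ((fib (A * A) (xa v ka ω)).card : ℝ) -
        ∑ ω, p ω * Real.log ((fib (A * A) (xb v kb ω)).card : ℝ) := by
  have e : 4 * Real.log (A * A).card + 2 * Real.log 2 =
      ∑ ω, p ω * (4 * Real.log (A * A).card + 2 * Real.log 2) := by
    rw [← Finset.sum_mul, hp.total, one_mul]
  rw [e, ← Finset.sum_sub_distrib, ← Finset.sum_sub_distrib]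
  refine Finset.sum_le_sum fun ω _ => ?_
  by_cases hω : p ω = 0
  · rw [hω, zero_mul, zero_mul, zero_mul, zero_mul]; norm_num
  obtain ⟨f0, f1⟩ := hf ω hω
  have g0 := log_size f0 (fib_le (A * A) _)
  have g1 := log_size f1 (fib_le (A * A) _)
  rw [qq1, qq2, ← mul_sub, ← mul_sub]
  refine mul_le_mul_of_nonneg_left ?_ (hp.nonneg ω)
  linarith

theorem dets (hp : IsLaw p) (h0 : ∀ ω, p ω ≠ 0 → v 0 ω ≠ 0 ∧ ka ω ≠ 0 ∧ kb ω ≠ 0)
    (hL : ∀ ω, p ω ≠ 0 → ∀ i, c i (L ω) ≠ 0) :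
    CH p (QQ A L v ka kb) (fun ω => (v 1 ω / v 0 ω, (ka ω, kb ω))) ≤
      CH p (QQ A L v ka kb) (fun ω => (((lin c (L ω) (ka ω, kb ω)).1,
      (lin c (L ω) (ka ω, kb ω)).2), (xa v ka ω, xb v kb ω))) := by
  refine CH_mono hp (Det.mk' (fun t =>
    ((-t.2.1.1 * (-(c 0 t.1.1 / c 2 t.1.1) / t.2.1.2) *
      (c 2 t.1.1 / c 1 t.1.1)) * t.2.2.1,
    (-t.2.1.1 * (-(c 0 t.1.1 / c 2 t.1.1) / t.2.1.2) *
      (c 2 t.1.1 / c 1 t.1.1),
      -(c 0 t.1.1 / c 2 t.1.1) / t.2.1.2))) ?_)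
  intro ω hω
  obtain ⟨v0, a0, b0⟩ := h0 ω hω
  have l0 := hL ω hω 0
  have l1 := hL ω hω 1
  have l2 := hL ω hω 2
  have e1 : -(c 0 (L ω) / c 2 (L ω)) / (-(c 0 (L ω) / c 2 (L ω)) / kb ω) = kb ω := by
    field_simp
  have e2 : -(-(c 1 (L ω) / c 2 (L ω)) * (ka ω / kb ω)) * kb ω *
      (c 2 (L ω) / c 1 (L ω)) = ka ω := by
    field_simp
  have e3 : ka ω * (v 1 ω / (v 0 ω * ka ω)) = v 1 ω / v 0 ω := by
    field_simp
  show (v 1 ω / v 0 ω, (ka ω, kb ω)) =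
    ((-(-(c 1 (L ω) / c 2 (L ω)) * (ka ω / kb ω)) *
      (-(c 0 (L ω) / c 2 (L ω)) / (-(c 0 (L ω) / c 2 (L ω)) / kb ω)) *
      (c 2 (L ω) / c 1 (L ω))) * (v 1 ω / (v 0 ω * ka ω)),
    (-(-(c 1 (L ω) / c 2 (L ω)) * (ka ω / kb ω)) *
      (-(c 0 (L ω) / c 2 (L ω)) / (-(c 0 (L ω) / c 2 (L ω)) / kb ω)) *
      (c 2 (L ω) / c 1 (L ω)),
      -(c 0 (L ω) / c 2 (L ω)) / (-(c 0 (L ω) / c 2 (L ω)) / kb ω)))
  rw [e1, e2, e3]

theorem core (h1 : S_STD) (hp : IsLaw p) (hA : ∀ a ∈ A, 0 < a)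
    (h0 : ∀ ω, p ω ≠ 0 → v 0 ω ≠ 0 ∧ ka ω ≠ 0 ∧ kb ω ≠ 0)
    (hk : ∀ ω, p ω ≠ 0 → ka ω ∈ A / A ∧ kb ω ∈ A / A)
    (hf : ∀ ω, p ω ≠ 0 → 1 ≤ (fib (A * A) (xa v ka ω)).card ∧
      1 ≤ (fib (A * A) (xb v kb ω)).card)
    (hL : ∀ ω, p ω ≠ 0 → ∀ i, c i (L ω) ≠ 0)
    (hr : ∀ ω, p ω ≠ 0 → ∑ i, c i (L ω) * v i ω = 0) :
    3 * CH p L (fun ω => (v 1 ω / v 0 ω, (ka ω, kb ω))) +
      2 * ∑ ω, p ω * Real.log ((fib (A * A) (xa v ka ω)).card : ℝ) +
      2 * ∑ ω, p ω * Real.log ((fib (A * A) (xb v kb ω)).card : ℝ) ≤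
      2 * CH p L (fun ω => (ka ω, kb ω)) + 8 * Real.log (A * A).card + Er (A * A).card := by
  have st := std A L v ka kb c h1 hp hA h0 hk hf hL hr
  have hs := logs A L v ka kb hp hf
  have hmono := dets A L v ka kb c hp h0 hL
  have h31 : Det p (QQ A L v ka kb) L := fun x y _ _ hxy => congrArg Prod.fst hxy
  have h32 : Det p (fun ω => (L ω, (ka ω, kb ω))) (fun ω => ((lin c (L ω) (ka ω, kb ω)).1,
      (lin c (L ω) (ka ω, kb ω)).2)) := by
    intro x y _ _ hxy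
    have e1 : L x = L y := congrArg Prod.fst hxy
    have e2 : (ka x, kb x) = (ka y, kb y) := congrArg Prod.snd hxy
    show ((lin c (L x) (ka x, kb x)).1, (lin c (L x) (ka x, kb x)).2) =
      ((lin c (L y) (ka y, kb y)).1, (lin c (L y) (ka y, kb y)).2)
    rw [e1, e2]
  have h3 : CH p (QQ A L v ka kb) (fun ω => ((lin c (L ω) (ka ω, kb ω)).1,
      (lin c (L ω) (ka ω, kb ω)).2)) ≤ CH p L (fun ω => (ka ω, kb ω)) :=
    le_trans (CH_anti hp h31) (CH_mono hp h32)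
  have h4 := CH_QQ (p := p) A L v ka kb hp (fun ω => (v 1 ω / v 0 ω, (ka ω, kb ω)))
  have h5 := CH_cls (p := p) A L v ka kb hp
  have h6 : Er (A * A).card = 4 * Real.log 2 + Cst ((A * A).card ^ 2) +
    6 * Real.log ((Nat.log 2 (A * A).card : ℝ) + 1) := rfl
  rw [h6]
  generalize CH p (QQ A L v ka kb) (fun ω => (((lin c (L ω) (ka ω, kb ω)).1,
      (lin c (L ω) (ka ω, kb ω)).2), (xa v ka ω, xb v kb ω))) = t1 at *
  generalize CH p (QQ A L v ka kb) (fun ω => ((lin c (L ω) (ka ω, kb ω)).1,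
      (lin c (L ω) (ka ω, kb ω)).2)) = t2 at *
  generalize CH p (QQ A L v ka kb) (fun ω => (v 1 ω / v 0 ω, (ka ω, kb ω))) = t3 at *
  generalize CH p L (fun ω => (QQ A L v ka kb ω).2) = t4 at *
  generalize Cst ((A * A).card ^ 2) = t5 at *
  linarith

end core

/-- The entropy of the three ratios. -/
lemma three {Ω : Type} [Fintype Ω] {p : Ω → ℝ} (hp : IsLaw p) (L : Ω → Γ)
    (v : Fin 3 → Ω → ℝ) (ka kb : Ω → ℝ) (ca cb : ℝ)
    (hG : H p (fun ω => ((L ω, zz v ω), (ka ω, kb ω))) = H p (fun ω => (L ω, zz v ω)) + ca + cb) :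
    CH p L (fun ω => v 1 ω / v 0 ω) + ca + cb ≤
      CH p L (fun ω => (v 1 ω / v 0 ω, (ka ω, kb ω))) := by
  have s2 := submod' hp (f := fun ω => (L ω, zz v ω))
    (g := fun ω => (L ω, (v 1 ω / v 0 ω, (ka ω, kb ω))))
    (h := fun ω => (L ω, v 1 ω / v 0 ω)) (k := fun ω => ((L ω, zz v ω), (ka ω, kb ω)))
    (Det.mk' (fun t => (t.1, t.2 1 / t.2 0)) fun ω _ => rfl)
    (Det.mk' (fun t => (t.1, t.2.1)) fun ω _ => rfl)
    (Det.mk' (fun t => (t.1, t.2.2.2)) fun ω _ => rfl)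
  unfold CH
  linarith

theorem tFI3 (h1 : Pool.Agent.W798.SP.S_STD) : Pool.Agent.TH408.SP.S_FI3 := by
  intro Ω Γ _ A p Lam u c K₁ D₁ K₂ D₂ hA hp hrel e0 e1
  obtain ⟨Ωa, _, pa, La, va, ka, hpa, ia, sa, ca, ka', da⟩ := e0
  obtain ⟨Ωb, _, pb, Lb, vb, kb, hpb, ib, sb, cb, kb', db⟩ := e1
  have hfg : ∀ c, im pa (fun ω => (La ω, zz va ω)) c = im pb (fun ω => (Lb ω, zz vb ω)) c :=
    fun c => (ia c).trans (ib c).symm
  obtain ⟨P, hP⟩ : ∃ P, P = glue pa pb (fun ω => (La ω, zz va ω)) (fun ω => (Lb ω, zz vb ω)) :=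
    ⟨_, rfl⟩
  have hPl : IsLaw P := by
    rw [hP]
    exact glue_law hpa hpb hfg
  -- the support
  have hsup : ∀ z, P z ≠ 0 → pa z.1 ≠ 0 ∧ pb z.2 ≠ 0 ∧ La z.1 = Lb z.2 ∧
      ∀ i, va i z.1 = vb i z.2 := by
    intro z hz
    rw [hP] at hz
    obtain ⟨e, z1, z2⟩ := glue_supp hz
    exact ⟨z1, z2, congrArg Prod.fst e, fun i => congrFun (congrArg Prod.snd e) i⟩
  have hbase : ∀ x, pa x ≠ 0 → (∀ i, c i (La x) ≠ 0) ∧ ∑ i, c i (La x) * va i x = 0 := by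
    intro x hx
    obtain ⟨ω, hω, e⟩ := supp_of_im hpa ia hx
    have e1 : Lam ω = La x := congrArg Prod.fst e
    have e2 : zz u ω = zz va x := congrArg Prod.snd e
    have f2 : ∀ i, u i ω = va i x := fun i => congrFun e2 i
    obtain ⟨g1, g2⟩ := hrel ω hω
    rw [← e1]
    refine ⟨g1, ?_⟩
    rw [← g2]
    exact Finset.sum_congr rfl fun i _ => by rw [f2]
  -- entropies
  have E0 : H P (fun z => (La z.1, zz va z.1)) = H pa (fun ω => (La ω, zz va ω)) := by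
    rw [hP]
    exact H_glue_fst hpa hfg (fun ω => (La ω, zz va ω))
  have Eg : H pb (fun ω => (Lb ω, zz vb ω)) = H pa (fun ω => (La ω, zz va ω)) :=
    (H_eq_of_im_eq hfg).symm
  have Ra : H pa (fun ω => ((La ω, zz va ω), ka ω)) =
      H pa (fun ω => (La ω, zz va ω)) + CH pa La ka := by
    have : H pa (fun ω => ((La ω, zz va ω), ka ω)) =
        H pa (fun ω => (La ω, (zz va ω, ka ω))) :=
      H_congr hpa (Det.mk' (fun t => (t.1.1, (t.1.2, t.2))) fun ω _ => rfl)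
        (Det.mk' (fun t => ((t.1, t.2.1), t.2.2)) fun ω _ => rfl)
    rw [this]
    unfold CH at ca ⊢
    linarith
  have Rb : H pb (fun ω => ((Lb ω, zz vb ω), kb ω)) =
      H pb (fun ω => (Lb ω, zz vb ω)) + CH pb Lb kb := by
    have : H pb (fun ω => ((Lb ω, zz vb ω), kb ω)) =
        H pb (fun ω => (Lb ω, (zz vb ω, kb ω))) :=
      H_congr hpb (Det.mk' (fun t => (t.1.1, (t.1.2, t.2))) fun ω _ => rfl)
        (Det.mk' (fun t => ((t.1, t.2.1), t.2.2)) fun ω _ => rfl)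
    rw [this]
    unfold CH at cb ⊢
    linarith
  have G1 : H P (fun z => (((La z.1, zz va z.1), ka z.1), ((Lb z.2, zz vb z.2), kb z.2))) =
      H pa (fun ω => ((La ω, zz va ω), ka ω)) +
      H pb (fun ω => ((Lb ω, zz vb ω), kb ω)) - H pa (fun ω => (La ω, zz va ω)) := by
    rw [hP]
    exact H_glue hpa hpb hfg (u := fun ω => ((La ω, zz va ω), ka ω))
      (v := fun ω => ((Lb ω, zz vb ω), kb ω)) (Det.fst _ _ _) (Det.fst _ _ _)
  have eqz : ∀ z : Ωa × Ωb, P z ≠ 0 → (La z.1 = Lb z.2 ∧ zz va z.1 = zz vb z.2) := fun z hz =>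
    ⟨(hsup z hz).2.2.1, funext fun i => (hsup z hz).2.2.2 i⟩
  have C1 : H P (fun z => ((La z.1, zz (fun i z => va i z.1) z), (ka z.1, kb z.2))) =
      H P (fun z => (((La z.1, zz va z.1), ka z.1), ((Lb z.2, zz vb z.2), kb z.2))) :=
    H_congr hPl
      (Det.mk' (fun t => ((t.1, t.2.1), (t.1, t.2.2))) fun z hz => by
        obtain ⟨a1, a2⟩ := eqz z hz
        show _ = (((La z.1, zz va z.1), ka z.1), ((La z.1, zz va z.1), kb z.2))
        rw [a1, a2])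
      (Det.mk' (fun t => (t.1.1, (t.1.2, t.2.2))) fun z _ => rfl)
  have C3 : CH P (fun z => La z.1) (fun z => ka z.1) = CH pa La ka := by
    unfold CH
    rw [hP, ← H_glue_fst hpa hfg La, ← H_glue_fst hpa hfg (fun ω => (La ω, ka ω))]
  have C4 : CH P (fun z => La z.1) (fun z => kb z.2) = CH pb Lb kb := by
    have : CH P (fun z => La z.1) (fun z => kb z.2) = CH P (fun z => Lb z.2) (fun z => kb z.2) :=
      CH_congr hPl (Det.mk' (fun t => t) fun z hz => ((eqz z hz).1).symm)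
        (Det.mk' (fun t => t) fun z hz => (eqz z hz).1) (Det.snd _ _ _) (Det.snd _ _ _)
    rw [this]
    unfold CH
    rw [hP, ← H_glue_snd hpb hfg Lb, ← H_glue_snd hpb hfg (fun ω => (Lb ω, kb ω))]
  have A1 := three hPl (fun z => La z.1) (fun i z => va i z.1) (fun z => ka z.1)
    (fun z => kb z.2) (CH pa La ka) (CH pb Lb kb) (by
      rw [C1, G1, Ra, Rb, Eg]
      have : H P (fun z => (La z.1, zz (fun i z => va i z.1) z)) =
        H pa (fun ω => (La ω, zz va ω)) := E0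
      rw [this]
      ring)
  have A2 := core A (fun z : Ωa × Ωb => La z.1) (fun i z => va i z.1) (fun z => ka z.1)
    (fun z => kb z.2) c h1 hPl hA
    (fun z hz => by
      obtain ⟨z1, z2, -, -⟩ := hsup z hz
      exact ⟨(sa z.1 z1).2.2.2.1, (sa z.1 z1).1, (sb z.2 z2).1⟩)
    (fun z hz => by
      obtain ⟨z1, z2, -, -⟩ := hsup z hz
      exact ⟨(sa z.1 z1).2.1, (sb z.2 z2).2.1⟩)
    (fun z hz => by
      obtain ⟨z1, z2, -, hv⟩ := hsup z hz
      refine ⟨(sa z.1 z1).2.2.2.2, ?_⟩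
      show 1 ≤ (fib (A * A) (va 2 z.1 / (va 0 z.1 * kb z.2))).card
      rw [hv 0, hv 2]
      exact (sb z.2 z2).2.2.2.2)
    (fun z hz => (hbase z.1 (hsup z hz).1).1) (fun z hz => (hbase z.1 (hsup z hz).1).2)
  have A3 : CH P (fun z => La z.1) (fun z => va 1 z.1 / va 0 z.1) =
      CH p Lam (fun ω => u 1 ω / u 0 ω) := by
    have h3 : ∀ a, im P (fun z => (La z.1, zz va z.1)) a = im p (fun ω => (Lam ω, zz u ω)) a := by
      intro a
      rw [hP]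
      exact (im_glue_fst hpa hfg (fun ω => (La ω, zz va ω)) a).trans (ia a)
    exact CH_of_im' h3 (fun t => t.2 1 / t.2 0)
  have A4 : CH P (fun z => La z.1) (fun z => (ka z.1, kb z.2)) ≤ CH pa La ka + CH pb Lb kb := by
    rw [← C3, ← C4]
    exact CH_subadd hPl (Det.snd _ _ _)
  have A5 : ∑ z, P z * Real.log ((fib (A * A) (xa (fun i (z : Ωa × Ωb) => va i z.1)
      (fun z => ka z.1) z)).card : ℝ) =
      ∑ x, pa x * Real.log ((fib (A * A) (va 1 x / (va 0 x * ka x))).card : ℝ) := by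
    rw [hP]
    exact sum_fst hpa hfg (fun x => Real.log ((fib (A * A) (va 1 x / (va 0 x * ka x))).card : ℝ))
  have A6 : ∑ z, P z * Real.log ((fib (A * A) (xb (fun i (z : Ωa × Ωb) => va i z.1)
      (fun z => kb z.2) z)).card : ℝ) =
      ∑ x, pb x * Real.log ((fib (A * A) (vb 2 x / (vb 0 x * kb x))).card : ℝ) := by
    have : ∑ z, P z * Real.log ((fib (A * A) (xb (fun i (z : Ωa × Ωb) => va i z.1)
      (fun z => kb z.2) z)).card : ℝ) =
        ∑ z, P z * Real.log ((fib (A * A) (vb 2 z.2 / (vb 0 z.2 * kb z.2))).card : ℝ) := by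
      refine Finset.sum_congr rfl fun z _ => ?_
      by_cases hz : P z = 0
      · rw [hz, zero_mul, zero_mul]
      obtain ⟨-, -, -, hv⟩ := hsup z hz
      show P z * Real.log ((fib (A * A) (va 2 z.1 / (va 0 z.1 * kb z.2))).card : ℝ) = _
      rw [hv 0, hv 2]
    rw [this, hP]
    exact sum_snd hpb hfg (fun x => Real.log ((fib (A * A) (vb 2 x / (vb 0 x * kb x))).card : ℝ))
  rw [A5, A6] at A2
  rw [A3] at A1
  linarith

end Pool.Agent.TH408.SP.FI3
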