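import Pool.Agent.TH408.SP.Stm4
import Pool.Agent.TH408.SP.FI3

/-!
# Sum-product with exponent 122/91: the final row
-/

set_option autoImplicit false
set_option linter.unusedSectionVars false

open Finset
open scoped Classical Pointwise

namespace Pool.Agent.TH408.SP.FI4

open Pool.Agent.W904.AK Pool.Agent.W798.SP Pool.Agent.TH408.SP
open Pool.Agent.W612.SPY (pos_mul cls sz cls_card card_le mem_cls fib_le le_div' log_size low
  sum_fst sum_snd)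
open Pool.Agent.TH408.SP.FI3 (lin xa xb QQ CH_QQ CH_cls qq1 qq2 logs dets)

/-- The product of the number of ratios and the number of elements. -/
lemma div_mul_le {A : Finset ℝ} (hA : ∀ a ∈ A, 0 < a) :
    (A / A).card * A.card ≤ (A * A).card * (A * A).card := by
  have hch : ∀ d : ℝ, ∃ t : ℝ × ℝ, d ∈ A / A → t.1 ∈ A ∧ t.2 ∈ A ∧ t.1 / t.2 = d := by
    intro d
    by_cases h : d ∈ A / A
    · obtain ⟨x, hx, y, hy, e⟩ := Finset.mem_div.1 h
      exact ⟨(x, y), fun _ => ⟨hx, hy, e⟩⟩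
    · exact ⟨(0, 0), fun h' => absurd h' h⟩
  choose t ht using hch
  rw [← Finset.card_product, ← Finset.card_product]
  refine Finset.card_le_card_of_injOn (fun z => ((t z.1).1 * z.2, (t z.1).2 * z.2)) ?_ ?_
  · rintro ⟨d, b⟩ h
    obtain ⟨h1, h2⟩ := Finset.mem_product.1 h
    obtain ⟨h3, h4, -⟩ := ht d h1
    exact Finset.mem_product.2 ⟨Finset.mul_mem_mul h3 h2, Finset.mul_mem_mul h4 h2⟩
  · rintro ⟨d, b⟩ h ⟨d', b'⟩ h' e
    obtain ⟨h1, h2⟩ := Finset.mem_product.1 h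
    obtain ⟨h1', h2'⟩ := Finset.mem_product.1 h'
    simp only at h1 h2 h1' h2'
    obtain ⟨h3, h4, h5⟩ := ht d h1
    obtain ⟨h3', h4', h5'⟩ := ht d' h1'
    simp only [Prod.mk.injEq] at e
    obtain ⟨e1, e2⟩ := e
    have p1 := hA _ h4
    have p2 := hA _ h4'
    have p3 := hA _ h2
    have p4 := hA _ h2'
    have hd : d = d' := by
      rw [← h5, ← h5', div_eq_div_iff p1.ne' p2.ne']
      have : ((t d).1 * (t d').2) * (b * b') = ((t d').1 * (t d).2) * (b * b') := by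
        linear_combination (t d').2 * b' * e1 - (t d').1 * b' * e2
      exact mul_right_cancel₀ (mul_pos p3 p4).ne' this
    rw [← hd] at e2 ⊢
    rw [mul_left_cancel₀ p1.ne' e2]

lemma div_cube_le {A : Finset ℝ} (hA : ∀ a ∈ A, 0 < a) :
    (A / A).card * ((A / A).card * (A / A).card) ≤ ((A * A).card * (A * A).card) ^ 2 := by
  have h1 := div_mul_le hA
  have h2 : (A / A).card ≤ A.card * A.card := Finset.card_div_le
  calc (A / A).card * ((A / A).card * (A / A).card)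
      ≤ (A / A).card * ((A / A).card * (A.card * A.card)) :=
        Nat.mul_le_mul_left _ (Nat.mul_le_mul_left _ h2)
    _ = ((A / A).card * A.card) ^ 2 := by ring
    _ ≤ _ := Nat.pow_le_pow_left h1 2

variable {Γ : Type}

/-- The set of lines, with a given set `B` for the second parameter. -/
noncomputable def LL (A : Finset ℝ) (B : Γ → Finset ℝ) (c : Fin 3 → Γ → ℝ) (q : Γ × (ℕ × ℕ)) :
    Finset (ℝ × ℝ) :=
  if 2 ^ q.2.1 ≤ (A * A).card ∧ 2 ^ q.2.2 ≤ (A * A).card then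
    ((A / A) ×ˢ B q.1).image (lin c q.1) else ∅

lemma LL_card {A : Finset ℝ} (hA : ∀ a ∈ A, 0 < a) (B : Γ → Finset ℝ)
    (hB : ∀ g, (B g).card ≤ (A / A).card * (A / A).card) (c : Fin 3 → Γ → ℝ)
    (q : Γ × (ℕ × ℕ)) :
    (LL A B c q).card ≤ (sz (A * A).card q.2.1 * sz (A * A).card q.2.2) ^ 2 := by
  unfold LL sz
  split_ifs with h
  · have h1 := le_div' h.1
    have h2 := le_div' h.2
    calc (((A / A) ×ˢ B q.1).image (lin c q.1)).card ≤ ((A / A) ×ˢ B q.1).card :=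
          Finset.card_image_le
      _ = (A / A).card * (B q.1).card := Finset.card_product _ _
      _ ≤ (A / A).card * ((A / A).card * (A / A).card) := Nat.mul_le_mul_left _ (hB _)
      _ ≤ ((A * A).card * (A * A).card) ^ 2 := div_cube_le hA
      _ ≤ _ := Nat.pow_le_pow_left (Nat.mul_le_mul h1 h2) 2
  · simp

section core

variable {Ω : Type} [Fintype Ω] {p : Ω → ℝ} (A : Finset ℝ) (B : Γ → Finset ℝ) (L : Ω → Γ)
  (v : Fin 3 → Ω → ℝ) (ka kb : Ω → ℝ) (c : Fin 3 → Γ → ℝ)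

theorem std (h1 : S_STD) (hp : IsLaw p) (hA : ∀ a ∈ A, 0 < a)
    (hB : ∀ g, (B g).card ≤ (A / A).card * (A / A).card)
    (h0 : ∀ ω, p ω ≠ 0 → v 0 ω ≠ 0 ∧ ka ω ≠ 0 ∧ kb ω ≠ 0)
    (hk : ∀ ω, p ω ≠ 0 → ka ω ∈ A / A ∧ kb ω ∈ B (L ω))
    (hf : ∀ ω, p ω ≠ 0 → 1 ≤ (fib (A * A) (xa v ka ω)).card ∧
      1 ≤ (fib (A * A) (xb v kb ω)).card)
    (hL : ∀ ω, p ω ≠ 0 → ∀ i, c i (L ω) ≠ 0)
    (hr : ∀ ω, p ω ≠ 0 → ∑ i, c i (L ω) * v i ω = 0) :
    3 * CH p (QQ A L v ka kb) (fun ω => (((lin c (L ω) (ka ω, kb ω)).1,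
      (lin c (L ω) (ka ω, kb ω)).2), (xa v ka ω, xb v kb ω))) ≤
      2 * CH p (QQ A L v ka kb) (fun ω => ((lin c (L ω) (ka ω, kb ω)).1,
      (lin c (L ω) (ka ω, kb ω)).2)) +
      2 * ∑ ω, p ω * (Real.log (sz (A * A).card (QQ A L v ka kb ω).2.1) +
        Real.log (sz (A * A).card (QQ A L v ka kb ω).2.2)) + Cst ((A * A).card ^ 2) := by
  refine h1 p (QQ A L v ka kb) (xa v ka) (xb v kb) (fun ω => (lin c (L ω) (ka ω, kb ω)).1)
    (fun ω => (lin c (L ω) (ka ω, kb ω)).2)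
    (fun q => sz (A * A).card q.2.1) (fun q => sz (A * A).card q.2.2) ((A * A).card ^ 2)
    (fun q => cls A q.2.1) (fun q => cls A q.2.2) (LL A B c) hp
    (fun q => cls_card hA _) (fun q => cls_card hA _) (fun q => LL_card hA B hB c q)
    (fun q => Nat.div_le_self _ _) ?_
  intro ω hω
  obtain ⟨v0, a0, b0⟩ := h0 ω hω
  obtain ⟨f0, f1⟩ := hf ω hω
  have l1 := hL ω hω 1
  have l2 := hL ω hω 2
  refine ⟨mem_cls hA f0, mem_cls hA f1, ?_, ?_, ?_⟩
  · show -(c 1 (L ω) / c 2 (L ω)) * (ka ω / kb ω) ≠ 0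
    exact mul_ne_zero (neg_ne_zero.2 (div_ne_zero l1 l2)) (div_ne_zero a0 b0)
  · show v 2 ω / (v 0 ω * kb ω) = -(c 1 (L ω) / c 2 (L ω)) * (ka ω / kb ω) *
      (v 1 ω / (v 0 ω * ka ω)) + -(c 0 (L ω) / c 2 (L ω)) / kb ω
    have r := hr ω hω
    rw [Fin.sum_univ_three] at r
    field_simp
    linear_combination r
  · have : LL A B c (QQ A L v ka kb ω) = ((A / A) ×ˢ B (L ω)).image (lin c (L ω)) :=
      if_pos ⟨low A f0, low A f1⟩
    rw [this]
    exact Finset.mem_image.2 ⟨(ka ω, kb ω), Finset.mem_product.2 (hk ω hω), rfl⟩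

theorem core (h1 : S_STD) (hp : IsLaw p) (hA : ∀ a ∈ A, 0 < a)
    (hB : ∀ g, (B g).card ≤ (A / A).card * (A / A).card)
    (h0 : ∀ ω, p ω ≠ 0 → v 0 ω ≠ 0 ∧ ka ω ≠ 0 ∧ kb ω ≠ 0)
    (hk : ∀ ω, p ω ≠ 0 → ka ω ∈ A / A ∧ kb ω ∈ B (L ω))
    (hf : ∀ ω, p ω ≠ 0 → 1 ≤ (fib (A * A) (xa v ka ω)).card ∧
      1 ≤ (fib (A * A) (xb v kb ω)).card)
    (hL : ∀ ω, p ω ≠ 0 → ∀ i, c i (L ω) ≠ 0)
    (hr : ∀ ω, p ω ≠ 0 → ∑ i, c i (L ω) * v i ω = 0) :
    3 * CH p L (fun ω => (v 1 ω / v 0 ω, (ka ω, kb ω))) +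
      2 * ∑ ω, p ω * Real.log ((fib (A * A) (xa v ka ω)).card : ℝ) +
      2 * ∑ ω, p ω * Real.log ((fib (A * A) (xb v kb ω)).card : ℝ) ≤
      2 * CH p L (fun ω => (ka ω, kb ω)) + 8 * Real.log (A * A).card + Er (A * A).card := by
  have st := std A B L v ka kb c h1 hp hA hB h0 hk hf hL hr
  have hs := logs A L v ka kb hp hf
  have hmono := dets A L v ka kb c hp h0 hL
  have h31 : Det p (QQ A L v ka kb) L := fun x y _ _ hxy => congrArg Prod.fst hxy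
  have h32 : Det p (fun ω => (L ω, (ka ω, kb ω))) (fun ω => ((lin c (L ω) (ka ω, kb ω)).1,
      (lin c (L ω) (ka ω, kb ω)).2)) := by
    intro x y _ _ hxy
    have e1 : L x = L y := congrArg Prod.fst hxy
    have e2 : (ka x, kb x) = (ka y, kb y) := congrArg Prod.snd hxy
    show ((lin c (L x) (ka x, kb x)).1, (lin c (L x) (ka x, kb x)).2) =
      ((lin c (L y) (ka y, kb y)).1, (lin c (L y) (ka y, kb y)).2)
    rw [e1, e2]
  have h3 : CH p (QQ A L v ka kb) (fun ω => ((lin c (L ω) (ka ω, kb ω)).1,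
      (lin c (L ω) (ka ω, kb ω)).2)) ≤ CH p L (fun ω => (ka ω, kb ω)) :=
    le_trans (CH_anti hp h31) (CH_mono hp h32)
  have h4 := CH_QQ (p := p) A L v ka kb hp (fun ω => (v 1 ω / v 0 ω, (ka ω, kb ω)))
  have h5 := CH_cls (p := p) A L v ka kb hp
  have h6 : Er (A * A).card = 4 * Real.log 2 + Cst ((A * A).card ^ 2) +
    6 * Real.log ((Nat.log 2 (A * A).card : ℝ) + 1) := rfl
  rw [h6]
  generalize CH p (QQ A L v ka kb) (fun ω => (((lin c (L ω) (ka ω, kb ω)).1,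
      (lin c (L ω) (ka ω, kb ω)).2), (xa v ka ω, xb v kb ω))) = t1 at *
  generalize CH p (QQ A L v ka kb) (fun ω => ((lin c (L ω) (ka ω, kb ω)).1,
      (lin c (L ω) (ka ω, kb ω)).2)) = t2 at *
  generalize CH p (QQ A L v ka kb) (fun ω => (v 1 ω / v 0 ω, (ka ω, kb ω))) = t3 at *
  generalize CH p L (fun ω => (QQ A L v ka kb ω).2) = t4 at *
  generalize Cst ((A * A).card ^ 2) = t5 at *
  linarith

end core

/-- The entropy part: `L` are the four slopes, `v` the three forms, `M = (L 0, L 1, L 3)`. -/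
lemma entropy {Ω : Type} [Fintype Ω] {p : Ω → ℝ} (hp : IsLaw p) (L : Ω → Fin 4 → ℝ)
    (v : Fin 3 → Ω → ℝ) (ka kb : Ω → ℝ) (hne : ∀ ω, p ω ≠ 0 → L ω 2 - L ω 3 ≠ 0) (ca cb : ℝ)
    (hG : H p (fun ω => ((L ω, zz v ω), (ka ω, kb ω))) = H p (fun ω => (L ω, zz v ω)) + ca + cb) :
    CH p (fun ω => (L ω 0, (L ω 1, L ω 3))) (fun ω => v 1 ω / v 0 ω) +
      2 * CH p L (fun ω => v 1 ω / v 0 ω) + (3 * ca - 2 * CH p L ka) + (3 * cb - 2 * CH p L kb) ≤
      3 * CH p (fun ω => (L ω 0, (L ω 1, L ω 3)))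
        (fun ω => (v 1 ω / v 0 ω, (ka ω, (L ω 2 - L ω 3) * kb ω))) -
      2 * CH p (fun ω => (L ω 0, (L ω 1, L ω 3))) (fun ω => (ka ω, (L ω 2 - L ω 3) * kb ω)) := by
  -- the same with the merged unknown
  have hG' : H p (fun ω => ((L ω, zz v ω), (ka ω, (L ω 2 - L ω 3) * kb ω))) =
      H p (fun ω => (L ω, zz v ω)) + ca + cb := by
    rw [← hG]
    exact H_congr hp
      (Det.mk' (fun t => (t.1, (t.2.1, t.2.2 / (t.1.1 2 - t.1.1 3)))) fun ω hω => by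
        have h := hne ω hω
        show _ = ((L ω, zz v ω), (ka ω, (L ω 2 - L ω 3) * kb ω / (L ω 2 - L ω 3)))
        rw [mul_div_cancel_left₀ _ h])
      (Det.mk' (fun t => (t.1, (t.2.1, (t.1.1 2 - t.1.1 3) * t.2.2))) fun ω _ => rfl)
  have s1 := submod' hp (f := fun ω => (L ω, zz v ω))
    (g := fun ω => ((L ω 0, (L ω 1, L ω 3)), (v 1 ω / v 0 ω, (ka ω, (L ω 2 - L ω 3) * kb ω))))
    (h := fun ω => ((L ω 0, (L ω 1, L ω 3)), v 1 ω / v 0 ω))
    (k := fun ω => ((L ω, zz v ω), (ka ω, (L ω 2 - L ω 3) * kb ω)))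
    (Det.mk' (fun t => ((t.1 0, (t.1 1, t.1 3)), t.2 1 / t.2 0)) fun ω _ => rfl)
    (Det.mk' (fun t => (t.1, t.2.1)) fun ω _ => rfl)
    (Det.mk' (fun t => (t.1, t.2.2.2)) fun ω _ => rfl)
  have s2 := submod' hp (f := fun ω => (L ω, zz v ω))
    (g := fun ω => (L ω, (v 1 ω / v 0 ω, (ka ω, kb ω))))
    (h := fun ω => (L ω, v 1 ω / v 0 ω)) (k := fun ω => ((L ω, zz v ω), (ka ω, kb ω)))
    (Det.mk' (fun t => (t.1, t.2 1 / t.2 0)) fun ω _ => rfl)
    (Det.mk' (fun t => (t.1, t.2.1)) fun ω _ => rfl)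
    (Det.mk' (fun t => (t.1, t.2.2.2)) fun ω _ => rfl)
  have s3 := submod' hp (f := fun ω => (L ω, (ka ω, kb ω)))
    (g := fun ω => ((L ω 0, (L ω 1, L ω 3)), (v 1 ω / v 0 ω, (ka ω, (L ω 2 - L ω 3) * kb ω))))
    (h := fun ω => ((L ω 0, (L ω 1, L ω 3)), (ka ω, (L ω 2 - L ω 3) * kb ω)))
    (k := fun ω => (L ω, (v 1 ω / v 0 ω, (ka ω, kb ω))))
    (Det.mk' (fun t => ((t.1 0, (t.1 1, t.1 3)), (t.2.1, (t.1 2 - t.1 3) * t.2.2)))
      fun ω _ => rfl)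
    (Det.mk' (fun t => (t.1, t.2.2)) fun ω _ => rfl)
    (Det.mk' (fun t => (t.1.1, (t.2.2.1, t.1.2))) fun ω _ => rfl)
  have s4 : CH p L (fun ω => (ka ω, kb ω)) ≤ CH p L ka + CH p L kb :=
    CH_subadd hp (Det.snd _ _ _)
  unfold CH at *
  linarith

theorem tFI4 (h1 : Pool.Agent.W798.SP.S_STD) : Pool.Agent.TH408.SP.S_FI4 := by
  intro Ω _ A p l u n B₁ D₁ B₂ D₂ hA hb e0 e1
  obtain ⟨Ωa, _, pa, La, va, ka, hpa, ia, sa, ba, da⟩ := e0
  obtain ⟨Ωb, _, pb, Lb, vb, kb, hpb, ib, sb, bb, db⟩ := e1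
  have hfg : ∀ c, im pa (fun ω => (La ω, zz va ω)) c = im pb (fun ω => (Lb ω, zz vb ω)) c :=
    fun c => (ia c).trans (ib c).symm
  obtain ⟨P, hP⟩ : ∃ P, P = glue pa pb (fun ω => (La ω, zz va ω)) (fun ω => (Lb ω, zz vb ω)) :=
    ⟨_, rfl⟩
  have hPl : IsLaw P := by
    rw [hP]
    exact glue_law hpa hpb hfg
  -- the support
  have hsup : ∀ z, P z ≠ 0 → pa z.1 ≠ 0 ∧ pb z.2 ≠ 0 ∧ La z.1 = Lb z.2 ∧
      ∀ i, va i z.1 = vb i z.2 := by
    intro z hz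
    rw [hP] at hz
    obtain ⟨e, z1, z2⟩ := glue_supp hz
    exact ⟨z1, z2, congrArg Prod.fst e, fun i => congrFun (congrArg Prod.snd e) i⟩
  have hbase : ∀ x, pa x ≠ 0 → La x 0 - La x 3 ≠ 0 ∧ La x 1 - La x 3 ≠ 0 ∧ La x 2 - La x 3 ≠ 0 ∧
      La x 2 ∈ A / A ∧
      (La x 0 - La x 3) * va 0 x + (La x 1 - La x 3) * va 1 x = (La x 2 - La x 3) * va 2 x := by
    intro x hx
    obtain ⟨ω, hω, e⟩ := supp_of_im hpa ia hx
    have e1 : zz l ω = La x := congrArg Prod.fst e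
    have e2 : zz u ω = zz va x := congrArg Prod.snd e
    have f1 : ∀ i, l i ω = La x i := fun i => congrFun e1 i
    have f2 : ∀ i, u i ω = va i x := fun i => congrFun e2 i
    have g0 := hb.ne ω hω 0
    have g1 := hb.ne ω hω 1
    have g2 := hb.ne ω hω 2
    have g3 := hb.rel ω hω
    have g4 := hb.mem ω hω 2
    have k0 : (0 : Fin 3).castSucc = (0 : Fin 4) := rfl
    have k1 : (1 : Fin 3).castSucc = (1 : Fin 4) := rfl
    have k2 : (2 : Fin 3).castSucc = (2 : Fin 4) := rfl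
    rw [k0, f1, f1] at g0
    rw [k1, f1, f1] at g1
    rw [k2, f1, f1] at g2
    rw [k2, f1, f2] at g4
    rw [f1, f1, f1, f1, f2, f2, f2] at g3
    refine ⟨sub_ne_zero.2 g0, sub_ne_zero.2 g1, sub_ne_zero.2 g2, ?_, g3⟩
    obtain ⟨h2, h3⟩ := Finset.mem_filter.1 g4
    refine Finset.mem_div.2 ⟨La x 2 * va 2 x, h3, va 2 x, h2, ?_⟩
    rw [mul_div_assoc, div_self (hA _ h2).ne', mul_one]
  -- entropies
  have E0 : H P (fun z => (La z.1, zz va z.1)) = H pa (fun ω => (La ω, zz va ω)) := by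
    rw [hP]
    exact H_glue_fst hpa hfg (fun ω => (La ω, zz va ω))
  have Eg : H pb (fun ω => (Lb ω, zz vb ω)) = H pa (fun ω => (La ω, zz va ω)) :=
    (H_eq_of_im_eq hfg).symm
  have G1 : H P (fun z => (((La z.1, zz va z.1), ka z.1), ((Lb z.2, zz vb z.2), kb z.2))) =
      H pa (fun ω => ((La ω, zz va ω), ka ω)) +
      H pb (fun ω => ((Lb ω, zz vb ω), kb ω)) - H pa (fun ω => (La ω, zz va ω)) := by
    rw [hP]
    exact H_glue hpa hpb hfg (u := fun ω => ((La ω, zz va ω), ka ω))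
      (v := fun ω => ((Lb ω, zz vb ω), kb ω)) (Det.fst _ _ _) (Det.fst _ _ _)
  have eqz : ∀ z : Ωa × Ωb, P z ≠ 0 → (La z.1 = Lb z.2 ∧ zz va z.1 = zz vb z.2) := fun z hz =>
    ⟨(hsup z hz).2.2.1, funext fun i => (hsup z hz).2.2.2 i⟩
  have C1 : H P (fun z => ((La z.1, zz (fun i z => va i z.1) z), (ka z.1, kb z.2))) =
      H P (fun z => (((La z.1, zz va z.1), ka z.1), ((Lb z.2, zz vb z.2), kb z.2))) :=
    H_congr hPl
      (Det.mk' (fun t => ((t.1, t.2.1), (t.1, t.2.2))) fun z hz => by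
        obtain ⟨a1, a2⟩ := eqz z hz
        show _ = (((La z.1, zz va z.1), ka z.1), ((La z.1, zz va z.1), kb z.2))
        rw [a1, a2])
      (Det.mk' (fun t => (t.1.1, (t.1.2, t.2.2))) fun z _ => rfl)
  have C3 : CH P (fun z => La z.1) (fun z => ka z.1) = CH pa La ka := by
    unfold CH
    rw [hP, ← H_glue_fst hpa hfg La, ← H_glue_fst hpa hfg (fun ω => (La ω, ka ω))]
  have C4 : CH P (fun z => La z.1) (fun z => kb z.2) = CH pb Lb kb := by
    have : CH P (fun z => La z.1) (fun z => kb z.2) = CH P (fun z => Lb z.2) (fun z => kb z.2) :=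
      CH_congr hPl (Det.mk' (fun t => t) fun z hz => ((eqz z hz).1).symm)
        (Det.mk' (fun t => t) fun z hz => (eqz z hz).1) (Det.snd _ _ _) (Det.snd _ _ _)
    rw [this]
    unfold CH
    rw [hP, ← H_glue_snd hpb hfg Lb, ← H_glue_snd hpb hfg (fun ω => (Lb ω, kb ω))]
  have A1 := entropy hPl (fun z => La z.1) (fun i z => va i z.1) (fun z => ka z.1)
    (fun z => kb z.2) (fun z hz => (hbase z.1 (hsup z hz).1).2.2.1)
    (CH pa (fun ω => (La ω, zz va ω)) ka) (CH pb (fun ω => (Lb ω, zz vb ω)) kb) (by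
      rw [C1, G1]
      have : H P (fun z => (La z.1, zz (fun i z => va i z.1) z)) =
        H pa (fun ω => (La ω, zz va ω)) := E0
      rw [this]
      unfold CH
      linarith)
  rw [C3, C4] at A1
  -- the merged relation
  let v' : Fin 3 → Ωa × Ωb → ℝ :=
    ![fun z => va 0 z.1, fun z => va 1 z.1, fun z => (La z.1 2 - La z.1 3) * va 2 z.1]
  let c : Fin 3 → ℝ × (ℝ × ℝ) → ℝ := ![fun t => t.1 - t.2.2, fun t => t.2.1 - t.2.2, fun _ => -1]
  let kc : Ωa × Ωb → ℝ := fun z => (La z.1 2 - La z.1 3) * kb z.2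
  have hxb : ∀ z, P z ≠ 0 → xb v' kc z = vb 2 z.2 / (vb 0 z.2 * kb z.2) := by
    intro z hz
    obtain ⟨z1, z2, -, hv⟩ := hsup z hz
    have h2 := (hbase z.1 z1).2.2.1
    have k0 := (sb z.2 z2).1
    have w0 := (sb z.2 z2).2.2.2.1
    show (La z.1 2 - La z.1 3) * va 2 z.1 / (va 0 z.1 * ((La z.1 2 - La z.1 3) * kb z.2)) = _
    rw [hv 0, hv 2]
    field_simp
  let B : ℝ × (ℝ × ℝ) → Finset ℝ := fun g =>
    ((A / A) ×ˢ (A / A)).image (fun t => (t.1 - g.2.2) * t.2)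
  have A2 := core (p := P) A B (fun z : Ωa × Ωb => (La z.1 0, (La z.1 1, La z.1 3))) v'
    (fun z => ka z.1) kc c h1 hPl hA
    (fun g => Finset.card_image_le.trans (Finset.card_product _ _).le)
    (fun z hz => by
      obtain ⟨z1, z2, -, -⟩ := hsup z hz
      exact ⟨(sa z.1 z1).2.2.2.1, (sa z.1 z1).1, mul_ne_zero (hbase z.1 z1).2.2.1 (sb z.2 z2).1⟩)
    (fun z hz => by
      obtain ⟨z1, z2, -, -⟩ := hsup z hz
      exact ⟨(sa z.1 z1).2.1, Finset.mem_image.2 ⟨(La z.1 2, kb z.2),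
        Finset.mem_product.2 ⟨(hbase z.1 z1).2.2.2.1, (sb z.2 z2).2.1⟩, rfl⟩⟩)
    (fun z hz => by
      obtain ⟨z1, z2, -, hv⟩ := hsup z hz
      refine ⟨(sa z.1 z1).2.2.2.2, ?_⟩
      rw [hxb z hz]
      exact (sb z.2 z2).2.2.2.2)
    (fun z hz i => by
      obtain ⟨z1, z2, -, hv⟩ := hsup z hz
      obtain ⟨g0, g1, g2, -, -⟩ := hbase z.1 z1
      fin_cases i
      · exact g0
      · exact g1
      · exact neg_ne_zero.2 one_ne_zero)
    (fun z hz => by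
      obtain ⟨z1, z2, -, hv⟩ := hsup z hz
      have g := (hbase z.1 z1).2.2.2.2
      rw [Fin.sum_univ_three]
      show (La z.1 0 - La z.1 3) * va 0 z.1 + (La z.1 1 - La z.1 3) * va 1 z.1 +
        (-1) * ((La z.1 2 - La z.1 3) * va 2 z.1) = 0
      linarith)
  have h3 : ∀ a, im P (fun z => (La z.1, zz va z.1)) a = im p (fun ω => (zz l ω, zz u ω)) a := by
    intro a
    rw [hP]
    exact (im_glue_fst hpa hfg (fun ω => (La ω, zz va ω)) a).trans (ia a)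
  have A3 : CH P (fun z => La z.1) (fun z => va 1 z.1 / va 0 z.1) =
      CH p (zz l) (fun ω => u 1 ω / u 0 ω) := CH_of_im' h3 (fun t => t.2 1 / t.2 0)
  have A3' : CH P (fun z => (La z.1 0, (La z.1 1, La z.1 3))) (fun z => va 1 z.1 / va 0 z.1) =
      CH p (Lm l) (fun ω => u 1 ω / u 0 ω) :=
    CH_of_im (im_map_eq h3 (fun t => ((t.1 0, (t.1 1, t.1 3)), t.2 1 / t.2 0)))
  have A5 : ∑ z, P z * Real.log ((fib (A * A) (xa v' (fun z => ka z.1) z)).card : ℝ) =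
      ∑ x, pa x * Real.log ((fib (A * A) (va 1 x / (va 0 x * ka x))).card : ℝ) := by
    rw [hP]
    exact sum_fst hpa hfg (fun x => Real.log ((fib (A * A) (va 1 x / (va 0 x * ka x))).card : ℝ))
  have A6 : ∑ z, P z * Real.log ((fib (A * A) (xb v' kc z)).card : ℝ) =
      ∑ x, pb x * Real.log ((fib (A * A) (vb 2 x / (vb 0 x * kb x))).card : ℝ) := by
    have : ∑ z, P z * Real.log ((fib (A * A) (xb v' kc z)).card : ℝ) =
        ∑ z, P z * Real.log ((fib (A * A) (vb 2 z.2 / (vb 0 z.2 * kb z.2))).card : ℝ) := by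
      refine Finset.sum_congr rfl fun z _ => ?_
      by_cases hz : P z = 0
      · rw [hz, zero_mul, zero_mul]
      rw [hxb z hz]
    rw [this, hP]
    exact sum_snd hpb hfg (fun x => Real.log ((fib (A * A) (vb 2 x / (vb 0 x * kb x))).card : ℝ))
  rw [A5, A6] at A2
  have A7 : CH P (fun z : Ωa × Ωb => (La z.1 0, (La z.1 1, La z.1 3)))
      (fun ω => (v' 1 ω / v' 0 ω, (ka ω.1, kc ω))) =
      CH P (fun z : Ωa × Ωb => (La z.1 0, (La z.1 1, La z.1 3)))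
        (fun z => (va 1 z.1 / va 0 z.1, (ka z.1, (La z.1 2 - La z.1 3) * kb z.2))) := rfl
  have A8 : CH P (fun z : Ωa × Ωb => (La z.1 0, (La z.1 1, La z.1 3)))
      (fun ω => (ka ω.1, kc ω)) =
      CH P (fun z : Ωa × Ωb => (La z.1 0, (La z.1 1, La z.1 3)))
        (fun z => (ka z.1, (La z.1 2 - La z.1 3) * kb z.2)) := rfl
  rw [A7, A8] at A2
  rw [A3, A3'] at A1
  linarith

end Pool.Agent.TH408.SP.FI4
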