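import Pool.Agent.TH408.SP.Stm4
import Pool.Agent.TH408.SP.RB3

/-!
# Sum-product with exponent 122/91: the entropy of a product
-/

set_option autoImplicit false
set_option linter.unusedSectionVars false

open Finset
open scoped Classical

namespace Pool.Agent.TH408.SP.PR4

open Pool.Agent.W904.AK Pool.Agent.W798.SP Pool.Agent.TH408.SP.RB3

theorem tPR4 (hJ : S_J3) : S_PR4 := by
  intro Ω Ω₁ Γ₁ Ω₂ Γ₂ K₁ K₂ _ _ _ p kA kB a b p₁ Lam₁ α κ₁ p₂ Lam₂ β κ₂ n N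
    hp hN hT1 hT2 ha hb hne hE
  -- the gluing
  set F : Ω → (K₁ × K₂) × ℝ := fun ω => ((kA ω, kB ω), a ω * b ω) with hF
  have hfg : ∀ t, im p F t = im p F t := fun _ => rfl
  set pG : Ω × Ω → ℝ := glue p p F F with hpG
  have hG : IsLaw pG := glue_law hp hp hfg
  set LL : Ω × Ω → K₁ × K₂ := fun z => (kA z.1, kB z.1) with hLL
  have hsupp : ∀ z, pG z ≠ 0 → p z.1 ≠ 0 ∧ p z.2 ≠ 0 ∧ kA z.1 = kA z.2 ∧ kB z.1 = kB z.2 ∧
      a z.1 * b z.1 = a z.2 * b z.2 := by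
    intro z hz
    obtain ⟨h0, h1, h2⟩ := glue_supp hz
    exact ⟨h1, h2, congrArg (fun t => t.1.1) h0, congrArg (fun t => t.1.2) h0,
      congrArg Prod.snd h0⟩
  have hH : H pG LL = H p (fun ω => (kA ω, kB ω)) := H_glue_fst hp hfg (fun ω => (kA ω, kB ω))
  -- numbers
  set ca := CH p kA a with hca
  set cb := CH p kB b with hcb
  set R := CH p (fun ω => (kA ω, kB ω)) (fun ω => a ω * b ω) with hR
  -- the full pair
  set U : Ω → (K₁ × K₂) × (ℝ × ℝ) := fun ω => ((kA ω, kB ω), (a ω, b ω)) with hU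
  have hUF : Det p U F := Det.mk' (fun t => (t.1, t.2.1 * t.2.2)) fun ω _ => rfl
  have hTT : CH pG LL (fun z => (U z.1, U z.2)) = 2 * (ca + cb) - R := by
    have e1 : H pG (fun z => (LL z, (U z.1, U z.2))) = H pG (fun z => (U z.1, U z.2)) :=
      H_congr hG (Det.mk' (fun t => t.2) fun ω _ => rfl)
        (Det.mk' (fun t => (t.1.1, t)) fun ω _ => rfl)
    have e2 : H pG (fun z => (U z.1, U z.2)) = H p U + H p U - H p F :=
      H_glue hp hp hfg hUF hUF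
    have e3 : H p U - H p (fun ω => (kA ω, kB ω)) = ca + cb := hE
    have e4 : H p F - H p (fun ω => (kA ω, kB ω)) = R := rfl
    unfold CH
    rw [e1, e2, hH]
    linarith
  -- the ratio
  set r : Ω × Ω → ℝ := fun z => a z.2 / a z.1 with hr
  have q1 : ∀ z, pG z ≠ 0 → r z = b z.1 / b z.2 := by
    intro z hz
    obtain ⟨h1, h2, h3, h4, h5⟩ := hsupp z hz
    simp only [hr]
    rw [div_eq_div_iff (hne _ h1).1 (hne _ h2).2]
    linarith
  set Qa : Ω × Ω → ℝ × ℝ := fun z => (a z.1, a z.2) with hQa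
  set Qb : Ω × Ω → ℝ × ℝ := fun z => (b z.1, b z.2) with hQb
  have s1 : CH pG LL (fun z => (U z.1, U z.2)) + CH pG LL r ≤ CH pG LL Qa + CH pG LL Qb := by
    apply CH_submod hG
    · exact Det.mk' (fun t => t.2.2 / t.2.1) fun ω _ => rfl
    · exact Det.mk' (fun t => t.2.1 / t.2.2) fun ω hω => q1 ω hω
    · refine Det.mk' (fun t => ((t.1, (t.2.1.1, t.2.2.1)), (t.1, (t.2.1.2, t.2.2.2))))
        fun ω hω => ?_
      obtain ⟨h1, h2, h3, h4, h5⟩ := hsupp ω hω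
      simp only [hU, hQa, hQb, hLL]
      rw [h3, h4]
  have imA1 : ∀ (t : K₁ × ℝ), im pG (fun z => (kA z.1, a z.1)) t =
      im p (fun ω => (kA ω, a ω)) t := fun t => im_glue_fst hp hfg (fun ω => (kA ω, a ω)) t
  have imB1 : ∀ (t : K₂ × ℝ), im pG (fun z => (kB z.1, b z.1)) t =
      im p (fun ω => (kB ω, b ω)) t := fun t => im_glue_fst hp hfg (fun ω => (kB ω, b ω)) t
  have imA2 : ∀ (t : K₁ × ℝ), im pG (fun z => (kA z.1, a z.2)) t =
      im p (fun ω => (kA ω, a ω)) t := by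
    intro t
    have e1 : im pG (fun z => (kA z.1, a z.2)) t = im pG (fun z => (kA z.2, a z.2)) t := by
      apply im_congr_supp
      intro z hz
      rw [(hsupp z hz).2.2.1]
    rw [e1]
    exact im_glue_snd hp hfg (fun ω => (kA ω, a ω)) t
  have imB2 : ∀ (t : K₂ × ℝ), im pG (fun z => (kB z.1, b z.2)) t =
      im p (fun ω => (kB ω, b ω)) t := by
    intro t
    have e1 : im pG (fun z => (kB z.1, b z.2)) t = im pG (fun z => (kB z.2, b z.2)) t := by
      apply im_congr_supp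
      intro z hz
      rw [(hsupp z hz).2.2.2.1]
    rw [e1]
    exact im_glue_snd hp hfg (fun ω => (kB ω, b ω)) t
  have hk1 : CH p₁ (fun ω => κ₁ (Lam₁ ω)) (α 0) = ca :=
    (CH_of_im (Q := kA) (f := a) (Q' := fun ω => κ₁ (Lam₁ ω)) (f' := α 0) ha).symm
  have hk2 : CH p₂ (fun ω => κ₂ (Lam₂ ω)) (β 0) = cb :=
    (CH_of_im (Q := kB) (f := b) (Q' := fun ω => κ₂ (Lam₂ ω)) (f' := β 0) hb).symm
  have j1 := hJ p₁ Lam₁ α κ₁ p₁ Lam₁ α κ₁ n N pG (fun z => kA z.1) (fun z => kA z.1)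
    (fun z => a z.1) (fun z => a z.2) LL hT1 hT1 hN hG
    (fun t => (imA1 t).trans (ha t)) (fun t => (imA2 t).trans (ha t))
    (Det.mk' (fun t => t.1) fun ω _ => rfl) (Det.mk' (fun t => t.1) fun ω _ => rfl)
  have j2 := hJ p₂ Lam₂ β κ₂ p₂ Lam₂ β κ₂ n N pG (fun z => kB z.1) (fun z => kB z.1)
    (fun z => b z.1) (fun z => b z.2) LL hT2 hT2 hN hG
    (fun t => (imB1 t).trans (hb t)) (fun t => (imB2 t).trans (hb t))
    (Det.mk' (fun t => t.2) fun ω _ => rfl) (Det.mk' (fun t => t.2) fun ω _ => rfl)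
  have r2 : CH pG LL (fun z => b z.2 / b z.1) ≤ CH pG LL r := by
    apply CH_mono hG
    refine Det.mk' (fun t => t.2⁻¹) fun z hz => ?_
    simp only
    rw [q1 z hz, inv_div]
  rw [hTT] at s1
  rw [hk1] at j1
  rw [hk2] at j2
  have j1' : 2 * CH pG LL Qa ≤ CH pG LL r + 3 * Real.log n + 3 * Real.log N + Cst N -
      2 * (CH p₁ Lam₁ (zz α) - ca) - 2 * (CH p₁ Lam₁ (zz α) - ca) := j1
  have j2' : 2 * CH pG LL Qb ≤ CH pG LL (fun z => b z.2 / b z.1) + 3 * Real.log n +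
      3 * Real.log N + Cst N -
      2 * (CH p₂ Lam₂ (zz β) - cb) - 2 * (CH p₂ Lam₂ (zz β) - cb) := j2
  linarith

end Pool.Agent.TH408.SP.PR4
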