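import Pool.Agent.TH408.SP.Chain3
import Pool.Agent.TH408.SP.PR4
import Pool.Agent.TH408.SP.EX4
import Pool.Agent.TH408.SP.FI4
import Pool.Agent.TH408.SP.AS4
import Pool.Agent.TH408.SP.C4
import Pool.Agent.TH408.SP.PO4

/-!
# Sum-product with exponent 122/91: the chain of the parts
-/

set_option autoImplicit false

namespace Pool.Agent.TH408.SP

open Pool.Agent.W798.SP

theorem pPR4 : S_PR4 := PR4.tPR4 pJ3
theorem pEX4 : S_EX4 := EX4.tEX4 pPR4 pSR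
theorem pFI4 : S_FI4 := FI4.tFI4 pSTD
theorem pC04 : S_C04 := C4.tC04 Pool.Agent.W315.SP.t_CC
theorem pCL4 : S_CL4 := C4.tCL4 pC04
theorem pAS4 : S_AS4 := AS4.tAS4 pCL4 pGC pJ3 pEX4 pFI4
theorem pPO4 : S_PO4 := PO4.tPO4 pAS4 pDY3 pEN pCS
theorem pRE4 : S_RE4 := PO4.tRE4 pPO4

end Pool.Agent.TH408.SP
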