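import Pool.Agent.TH408.SP.Stm3
import Pool.Agent.W342.SPY.EX2

/-!
# Sum-product (exponent 91/68): existence of the extensions by a random ratio
-/

set_option autoImplicit false
set_option linter.unusedSectionVars false

open Finset
open scoped Classical Pointwise

namespace Pool.Agent.TH408.SP.EX3

open Pool.Agent.W904.AK Pool.Agent.W798.SP Pool.Agent.W135.SPX.EX Pool.Agent.W342.SPY.EX2
open Pool.Agent.TH408.SP

/-- Conditional entropy is at most the logarithm of a bound for the number of values. -/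
lemma CH_le_log {Ω γ α : Type} [Fintype Ω] {p : Ω → ℝ} (hp : IsLaw p) (Q : Ω → γ) (f : Ω → α)
    (F : γ → Finset α) (n : ℕ) (hF : ∀ ω, p ω ≠ 0 → f ω ∈ F (Q ω) ∧ (F (Q ω)).card ≤ n) :
    CH p Q f ≤ Real.log n := by
  refine (CH_le_avg hp Q f F fun ω h => (hF ω h).1).trans ?_
  have h1 : ∑ ω, p ω * Real.log ((F (Q ω)).card : ℝ) ≤ ∑ ω, p ω * Real.log n := by
    refine Finset.sum_le_sum fun ω _ => ?_
    by_cases h : p ω = 0
    · simp [h]
    refine mul_le_mul_of_nonneg_left ?_ (hp.nonneg ω)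
    obtain ⟨h2, h3⟩ := hF ω h
    exact Real.log_le_log (by exact_mod_cast Finset.card_pos.2 ⟨_, h2⟩) (by exact_mod_cast h3)
  rw [← Finset.sum_mul, hp.total, one_mul] at h1
  exact h1

/-- EX3. -/
theorem tEX3 (h0 : S_KB3) (h1 : S_RB3) (_h2 : Pool.Agent.W798.SP.S_GC) : S_EX3 := by
  intro Ω Γ₁ Γ₂ _ A p l u n N₁ N₂ i Lam₁ α κ₁ Lam₂ β κ₂ hA hpos hB hn1 hn2 hT1 hk1 hT2 hk2
  have hp := hB.law
  have hl1 := p1_law (Lam := l 0) hA hp
  -- the law `P` and its variables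
  set P : (Ω × Ω) × ↥A → ℝ := p1 A p (l 0) with hP
  set W : (Ω × Ω) × ↥A → ℝ × ℝ :=
    fun t => (u i t.1.1 * u 0 t.1.2, u 0 t.1.1 * (t.2 : ℝ)) with hW
  have hsupp : ∀ t, P t ≠ 0 → l 0 t.1.1 = l 0 t.1.2 ∧ p t.1.1 ≠ 0 ∧ p t.1.2 ≠ 0 :=
    fun t ht => p1_supp ht
  have hfibA : ∀ (a : ℝ) {x : ℝ}, x ∈ fib A a → x ∈ A := fun a x hx =>
    (Finset.mem_filter.1 hx).1
  have hfibA' : ∀ (a : ℝ) {x : ℝ}, x ∈ fib A a → a * x ∈ A := fun a x hx =>
    (Finset.mem_filter.1 hx).2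
  have hm0 : ∀ ω, p ω ≠ 0 → u 0 ω ∈ fib A (l 0 ω) := fun ω h => hB.mem ω h 0
  have hf1 : (fun ω => (κ₁ (Lam₁ ω), α 0 ω)) = fun ω => (l 0 ω, u 0 ω) :=
    funext fun ω => by rw [(hk1 ω).1, (hk1 ω).2]
  have hf2 : (fun ω => (κ₂ (Lam₂ ω), β 0 ω)) = fun ω => ((l 0 ω, l i.castSucc ω), u i ω) :=
    funext fun ω => by rw [(hk2 ω).1, (hk2 ω).2]
  have eH1 : ∀ {α : Type} (f : Ω → α), H P (fun t => f t.1.1) = H p f := fun f =>
    p1_H_fst hA hp f
  -- the conditional independence of the pair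
  have e1 : CH P (fun t => zz l t.1.1) (fun t => (zz u t.1.1, ((t.2 : ℝ), u 0 t.1.2))) =
      CH p (zz l) (zz u) + (Real.log A.card + CH p (l 0) (u 0)) := by
    have a := p1_H_all (Lam := l 0) hA hp (fun ω => (zz l ω, zz u ω)) (u 0)
    have b := eH1 (zz l)
    have c : H P (fun t => (zz l t.1.1, (zz u t.1.1, ((t.2 : ℝ), u 0 t.1.2)))) =
        H P (fun t => (l 0 t.1.1, ((zz l t.1.1, zz u t.1.1), ((t.2 : ℝ), u 0 t.1.2)))) :=
      H_congr hl1 (Det.mk' (fun w => (w.1 0, ((w.1, w.2.1), w.2.2))) fun _ _ => rfl)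
        (Det.mk' (fun w => (w.2.1.1, (w.2.1.2, w.2.2))) fun _ _ => rfl)
    have d : H p (fun ω => (l 0 ω, (zz l ω, zz u ω))) = H p (fun ω => (zz l ω, zz u ω)) :=
      H_congr hp (Det.mk' (fun w => w.2) fun _ _ => rfl)
        (Det.mk' (fun w => (w.1 0, w)) fun _ _ => rfl)
    have e : H P (fun t => (l 0 t.1.1, ((zz l t.1.1, zz u t.1.1), ((t.2 : ℝ), u 0 t.1.2)))) =
        H p (fun ω => (l 0 ω, (zz l ω, zz u ω))) + (Real.log A.card + CH p (l 0) (u 0)) := a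
    unfold CH at e ⊢
    rw [c, b, e, d]
    ring
  have e2 : CH P (fun t => zz l t.1.1) (fun t => ((t.2 : ℝ), u 0 t.1.2)) =
      Real.log A.card + CH p (l 0) (u 0) := by
    have a := p1_H_all (Lam := l 0) hA hp (zz l) (u 0)
    have b := eH1 (zz l)
    have c : H P (fun t => (zz l t.1.1, ((t.2 : ℝ), u 0 t.1.2))) =
        H P (fun t => (l 0 t.1.1, (zz l t.1.1, ((t.2 : ℝ), u 0 t.1.2)))) :=
      H_congr hl1 (Det.mk' (fun w => (w.1 0, (w.1, w.2))) fun _ _ => rfl)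
        (Det.mk' (fun w => (w.2.1, w.2.2)) fun _ _ => rfl)
    have d : H p (fun ω => (l 0 ω, zz l ω)) = H p (zz l) :=
      H_congr hp (Det.mk' (fun w => w.2) fun _ _ => rfl)
        (Det.mk' (fun w => (w 0, w)) fun _ _ => rfl)
    unfold CH at a ⊢
    rw [c, b, a, d]
    ring
  have e2' : CH P (fun t => l 0 t.1.1) (fun t => ((t.2 : ℝ), u 0 t.1.2)) =
      Real.log A.card + CH p (l 0) (u 0) := by
    have a := p1_H_all (Lam := l 0) hA hp (fun _ => ()) (u 0)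
    have b := eH1 (l 0)
    have c : H P (fun t => (l 0 t.1.1, ((t.2 : ℝ), u 0 t.1.2))) =
        H P (fun t => (l 0 t.1.1, ((), ((t.2 : ℝ), u 0 t.1.2)))) :=
      H_congr hl1 (Det.mk' (fun w => (w.1, ((), w.2))) fun _ _ => rfl)
        (Det.mk' (fun w => (w.1, w.2.2)) fun _ _ => rfl)
    have d : H p (fun ω => (l 0 ω, ())) = H p (l 0) :=
      H_congr hp (Det.fst _ _ _) (Det.pair (Det.refl _ _) (Det.of_unit _ _))
    unfold CH at a ⊢
    rw [c, b]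
    linarith
  have e3 : CH P (fun t => zz l t.1.1) (fun t => zz u t.1.1) = CH p (zz l) (zz u) := by
    have a := eH1 (fun ω => (zz l ω, zz u ω))
    have b := eH1 (zz l)
    unfold CH
    rw [a, b]
  -- the image laws
  have him0 : ∀ a, im P (fun t => (l 0 t.1.1, u 0 t.1.1)) a =
      im p (fun ω => (κ₁ (Lam₁ ω), α 0 ω)) a := by
    intro a
    rw [hf1]
    exact p1_im_fst (Lam := l 0) hA hp (fun ω => (l 0 ω, u 0 ω)) a
  have him : ∀ a, im P (fun t => (l 0 t.1.1, u 0 t.1.2)) a =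
      im p (fun ω => (κ₁ (Lam₁ ω), α 0 ω)) a := by
    intro a
    rw [hf1]
    have a2 := p1_im_snd (Lam := l 0) hA hp (fun ω => (l 0 ω, u 0 ω)) a
    have a3 : im P (fun t => (l 0 t.1.1, u 0 t.1.2)) a =
        im P (fun t => (l 0 t.1.2, u 0 t.1.2)) a :=
      im_congr (fun t ht => by rw [(hsupp t ht).1]) a
    exact a3.trans a2
  have him2 : ∀ a, im P (fun t => ((l 0 t.1.1, l i.castSucc t.1.1), u i t.1.1)) a =
      im p (fun ω => (κ₂ (Lam₂ ω), β 0 ω)) a := by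
    intro a
    rw [hf2]
    exact p1_im_fst (Lam := l 0) hA hp (fun ω => ((l 0 ω, l i.castSucc ω), u i ω)) a
  have hneW : ∀ t, P t ≠ 0 → (t.2 : ℝ) ≠ 0 ∧ u 0 t.1.2 ≠ 0 ∧ u i t.1.1 ≠ 0 ∧ u 0 t.1.1 ≠ 0 := by
    intro t ht
    obtain ⟨-, b1, b2⟩ := hsupp t ht
    exact ⟨(hpos _ t.2.2).ne', (hpos _ (hfibA _ (hm0 _ b2))).ne',
      (hpos _ (hfibA _ (hB.mem _ b1 i))).ne', (hpos _ (hfibA _ (hm0 _ b1))).ne'⟩
  have hx : CH P (fun t => l 0 t.1.1) (fun t => u 0 t.1.2) = CH p (l 0) (u 0) := by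
    refine CH_of_im (fun a => ?_)
    rw [him a, hf1]
  -- the entropy of the random ratio
  have hK := h0 A P (fun t => l 0 t.1.1) (fun t => u 0 t.1.2) (fun t => (t.2 : ℝ)) p Lam₁ α κ₁
    n N₁ hpos hl1 hn1 hT1 him (fun t ht => ⟨t.2.2, (hneW t ht).2.1⟩)
    (by
      rw [hx]
      have : CH P (fun t => l 0 t.1.1) (fun t => (u 0 t.1.2, (t.2 : ℝ))) =
          CH P (fun t => l 0 t.1.1) (fun t => ((t.2 : ℝ), u 0 t.1.2)) :=
        CH_eq hl1 (Det.mk' (fun w => (w.2.2, w.2.1)) fun _ _ => rfl)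
          (Det.mk' (fun w => (w.2.2, w.2.1)) fun _ _ => rfl)
      rw [this, e2']
      ring)
  -- the entropy of the two products
  have hR := h1 A P (fun t => l 0 t.1.1) (fun t => l i.castSucc t.1.1) (fun t => u i t.1.1)
    (fun t => u 0 t.1.1) (fun t => u 0 t.1.2) (fun t => (t.2 : ℝ)) p Lam₁ α κ₁ p Lam₂ β κ₂
    n N₁ N₂ hpos hl1 hn1 hn2 hT1 hT2 him0 him him2
    (fun t ht => ⟨t.2.2, (hneW t ht).2.1, (hneW t ht).2.2.1, (hneW t ht).2.2.2⟩)
    (by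
      rw [hx]
      have a := p1_H_all (Lam := l 0) hA hp (fun ω => (l i.castSucc ω, (u i ω, u 0 ω))) (u 0)
      have a' : H P (fun t => (l 0 t.1.1, ((l i.castSucc t.1.1, (u i t.1.1, u 0 t.1.1)),
          ((t.2 : ℝ), u 0 t.1.2)))) = H p (fun ω => (l 0 ω, (l i.castSucc ω, (u i ω, u 0 ω)))) +
          (Real.log A.card + CH p (l 0) (u 0)) := a
      have c : H P (fun t => (l 0 t.1.1, ((l i.castSucc t.1.1, (u i t.1.1, u 0 t.1.1)),
          (u 0 t.1.2, (t.2 : ℝ))))) = H P (fun t => (l 0 t.1.1, ((l i.castSucc t.1.1,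
          (u i t.1.1, u 0 t.1.1)), ((t.2 : ℝ), u 0 t.1.2)))) :=
        H_congr hl1 (Det.mk' (fun w => (w.1, (w.2.1, (w.2.2.2, w.2.2.1)))) fun _ _ => rfl)
          (Det.mk' (fun w => (w.1, (w.2.1, (w.2.2.2, w.2.2.1)))) fun _ _ => rfl)
      have d := eH1 (fun ω => (l 0 ω, (l i.castSucc ω, (u i ω, u 0 ω))))
      have e : CH P (fun t => l 0 t.1.1) (fun t => ((l i.castSucc t.1.1,
          (u i t.1.1, u 0 t.1.1)), (u 0 t.1.2, (t.2 : ℝ)))) =
          H P (fun t => (l 0 t.1.1, ((l i.castSucc t.1.1, (u i t.1.1, u 0 t.1.1)),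
          (u 0 t.1.2, (t.2 : ℝ))))) - H P (fun t => l 0 t.1.1) := rfl
      have f : CH P (fun t => l 0 t.1.1) (fun t => (l i.castSucc t.1.1,
          (u i t.1.1, u 0 t.1.1))) = H P (fun t => (l 0 t.1.1, (l i.castSucc t.1.1,
          (u i t.1.1, u 0 t.1.1)))) - H P (fun t => l 0 t.1.1) := rfl
      rw [e, f, c, a', d]
      ring)
  have hb : CH P (fun t => l 0 t.1.1) (fun t => u 0 t.1.1) ≤ Real.log n :=
    CH_le_log hl1 _ _ (fun a => fib A a) n fun t ht =>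
      ⟨hm0 _ (hsupp t ht).2.1, hB.card _ (hsupp t ht).2.1 0⟩
  have ha : CH P (fun t => (l 0 t.1.1, l i.castSucc t.1.1)) (fun t => u i t.1.1) ≤
      Real.log n :=
    CH_le_log hl1 _ _ (fun q => fib A q.2) n fun t ht =>
      ⟨hB.mem _ (hsupp t ht).2.1 i, hB.card _ (hsupp t ht).2.1 i⟩
  have hab : CH P (fun t => (l 0 t.1.1, l i.castSucc t.1.1)) (fun t => (u i t.1.1, u 0 t.1.1)) =
      CH p (fun ω => (l 0 ω, l i.castSucc ω)) (fun ω => (u i ω, u 0 ω)) := by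
    have a := eH1 (fun ω => ((l 0 ω, l i.castSucc ω), (u i ω, u 0 ω)))
    have b := eH1 (fun ω => (l 0 ω, l i.castSucc ω))
    unfold CH
    rw [a, b]
  rw [hab] at hR
  -- the values of `W`
  have hW1 : ∀ t, P t ≠ 0 → W t ∈ (A * A) ×ˢ (A * A) := by
    intro t ht
    obtain ⟨-, b1, b2⟩ := hsupp t ht
    exact Finset.mem_product.2 ⟨Finset.mul_mem_mul (hfibA _ (hB.mem _ b1 i)) (hfibA _ (hm0 _ b2)),
      Finset.mul_mem_mul (hfibA _ (hm0 _ b1)) t.2.2⟩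
  have hHW : H P W ≤ 2 * Real.log (A * A).card := by
    refine (H_le_card hl1 W _ hW1).trans ?_
    rw [Finset.card_product, Nat.cast_mul, ← pow_two, Real.log_pow]
    norm_num
  have hratio : ∀ t, P t ≠ 0 →
      u i t.1.1 / (u 0 t.1.1 * ((t.2 : ℝ) / u 0 t.1.2)) = (W t).1 / (W t).2 := by
    intro t ht
    obtain ⟨c1, c2, c3, c4⟩ := hneW t ht
    show _ = (u i t.1.1 * u 0 t.1.2) / (u 0 t.1.1 * (t.2 : ℝ))
    field_simp
  have hW2 : ∀ t, P t ≠ 0 → (W t).2 ≠ 0 := by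
    intro t ht
    obtain ⟨c1, c2, c3, c4⟩ := hneW t ht
    exact mul_ne_zero c4 c1
  -- the slope
  have hslope : ∀ t, P t ≠ 0 → l 0 t.1.1 * (W t).1 ∈ A * A ∧ l 0 t.1.1 * (W t).2 ∈ A * A := by
    intro t ht
    obtain ⟨b0, b1, b2⟩ := hsupp t ht
    constructor
    · have : l 0 t.1.1 * (W t).1 = u i t.1.1 * (l 0 t.1.2 * u 0 t.1.2) := by
        show l 0 t.1.1 * (u i t.1.1 * u 0 t.1.2) = _
        rw [b0]
        ring
      rw [this]
      exact Finset.mul_mem_mul (hfibA _ (hB.mem _ b1 i)) (hfibA' _ (hm0 _ b2))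
    · have : l 0 t.1.1 * (W t).2 = (l 0 t.1.1 * u 0 t.1.1) * (t.2 : ℝ) := by
        show l 0 t.1.1 * (u 0 t.1.1 * (t.2 : ℝ)) = _
        ring
      rw [this]
      exact Finset.mul_mem_mul (hfibA' _ (hm0 _ b1)) t.2.2
  have havg := CH_le_avg hl1 W (fun t => l 0 t.1.1)
    (fun w => (fib (A * A) (w.1 / w.2)).image (fun z => z / w.2))
    (by
      intro t ht
      obtain ⟨s1, s2⟩ := hslope t ht
      have hw2 := hW2 t ht
      refine Finset.mem_image.2 ⟨l 0 t.1.1 * (W t).2, ?_, ?_⟩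
      · refine Finset.mem_filter.2 ⟨s2, ?_⟩
        have : (W t).1 / (W t).2 * (l 0 t.1.1 * (W t).2) = l 0 t.1.1 * (W t).1 := by
          field_simp
        rw [this]
        exact s1
      · show l 0 t.1.1 * (W t).2 / (W t).2 = l 0 t.1.1
        field_simp)
  refine ⟨(Ω × Ω) × ↥A, inferInstance, P, fun t => zz l t.1.1, fun k t => u k t.1.1,
    fun t => (t.2 : ℝ) / u 0 t.1.2, hl1, ?_, ?_, ?_, hK.trans ?_, ?_⟩
  · intro a
    exact p1_im_fst (Lam := l 0) hA hp (fun ω => (zz l ω, zz u ω)) a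
  · intro t ht
    obtain ⟨c1, c2, c3, c4⟩ := hneW t ht
    obtain ⟨b0, b1, b2⟩ := hsupp t ht
    refine ⟨div_ne_zero c1 c2, Finset.div_mem_div t.2.2 (hfibA _ (hm0 _ b2)), c3, c4, ?_⟩
    rw [Nat.one_le_iff_ne_zero, ← Nat.pos_iff_ne_zero, Finset.card_pos]
    obtain ⟨w1, w2⟩ := Finset.mem_product.1 (hW1 t ht)
    refine ⟨(W t).2, Finset.mem_filter.2 ⟨w2, ?_⟩⟩
    show u i t.1.1 / (u 0 t.1.1 * ((t.2 : ℝ) / u 0 t.1.2)) * (W t).2 ∈ A * A
    rw [hratio t ht, div_mul_cancel₀ _ (hW2 t ht)]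
    exact w1
  · have dk : Det P (fun t => (zz l t.1.1, ((t.2 : ℝ), u 0 t.1.2)))
        (fun t => (t.2 : ℝ) / u 0 t.1.2) :=
      Det.mk' (fun w => w.2.1 / w.2.2) fun _ _ => rfl
    have s1 := CH_submod hl1 (Q := fun t => zz l t.1.1)
      (f := fun t => ((t.2 : ℝ), u 0 t.1.2)) (g := fun t => (zz u t.1.1, (t.2 : ℝ) / u 0 t.1.2))
      (h := fun t => (t.2 : ℝ) / u 0 t.1.2)
      (k := fun t => (zz u t.1.1, ((t.2 : ℝ), u 0 t.1.2)))
      dk (Det.mk' (fun w => w.2.2) fun _ _ => rfl)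
      (Det.mk' (fun w => (w.2.2.1, w.2.1)) fun _ _ => rfl)
    have s2 := CH_subadd hl1 (Q := fun t => zz l t.1.1) (f := fun t => zz u t.1.1)
      (g := fun t => (t.2 : ℝ) / u 0 t.1.2) (k := fun t => (zz u t.1.1, (t.2 : ℝ) / u 0 t.1.2))
      (Det.mk' (fun w => (w.2.1, w.2.2)) fun _ _ => rfl)
    rw [e1, e2] at s1
    show CH P (fun t => zz l t.1.1) (fun t => (zz u t.1.1, (t.2 : ℝ) / u 0 t.1.2)) =
      CH P (fun t => zz l t.1.1) (fun t => zz u t.1.1) +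
        CH P (fun t => zz l t.1.1) (fun t => (t.2 : ℝ) / u 0 t.1.2)
    rw [e3] at s2 ⊢
    linarith
  · have s := submod' hl1 (f := fun t => (l 0 t.1.1, ((t.2 : ℝ), u 0 t.1.2)))
      (g := fun t => (zz l t.1.1, (t.2 : ℝ) / u 0 t.1.2))
      (h := fun t => (l 0 t.1.1, (t.2 : ℝ) / u 0 t.1.2))
      (k := fun t => (zz l t.1.1, ((t.2 : ℝ), u 0 t.1.2)))
      (Det.mk' (fun w => (w.1, w.2.1 / w.2.2)) fun _ _ => rfl)
      (Det.mk' (fun w => (w.1 0, w.2)) fun _ _ => rfl)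
      (Det.mk' (fun w => (w.2.1, w.1.2)) fun _ _ => rfl)
    unfold CH at e2 e2' ⊢
    linarith
  · have c1 : CH P W (fun t => l 0 t.1.1) =
        H P (fun t => (l 0 t.1.1, W t)) - H P W := by
      unfold CH
      rw [H_congr hl1 (f := fun t => (W t, l 0 t.1.1))
        (g := fun t => (l 0 t.1.1, W t))
        (Det.mk' (fun w => (w.2, w.1)) fun _ _ => rfl)
        (Det.mk' (fun w => (w.2, w.1)) fun _ _ => rfl)]
    have b4 : CH P (fun t => l 0 t.1.1) (fun t => (u i t.1.1 * u 0 t.1.2,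
        u 0 t.1.1 * (t.2 : ℝ))) = H P (fun t => (l 0 t.1.1, W t)) - H p (l 0) := by
      unfold CH
      rw [eH1 (l 0)]
    rw [b4] at hR
    have c2 : ∑ t, P t * Real.log ((((fib (A * A) ((W t).1 / (W t).2)).image
        (fun z => z / (W t).2)).card : ℕ) : ℝ) ≤
        ∑ t, P t * Real.log ((fib (A * A) (u i t.1.1 / (u 0 t.1.1 *
          ((t.2 : ℝ) / u 0 t.1.2)))).card : ℝ) := by
      refine Finset.sum_le_sum fun t _ => ?_
      by_cases h : P t = 0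
      · simp [h]
      refine mul_le_mul_of_nonneg_left ?_ (hl1.nonneg t)
      rw [hratio t h]
      obtain ⟨w1, w2⟩ := Finset.mem_product.1 (hW1 t h)
      have hne : ((fib (A * A) ((W t).1 / (W t).2)).image (fun z => z / (W t).2)).Nonempty := by
        refine Finset.Nonempty.image ⟨(W t).2, Finset.mem_filter.2 ⟨w2, ?_⟩⟩ _
        rw [div_mul_cancel₀ _ (hW2 t h)]
        exact w1
      refine Real.log_le_log (by exact_mod_cast Finset.card_pos.2 hne) ?_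
      exact_mod_cast Finset.card_image_le
    have c3 := havg.trans c2
    rw [c1] at c3
    linarith

end Pool.Agent.TH408.SP.EX3
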