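import Pool.Agent.TH408.SP.Stm3

/-!
# Sum-product with exponent 91/68: the incidence inequality for two copies of linear relations
-/

set_option autoImplicit false
set_option linter.unusedSectionVars false

open Finset
open scoped Classical

namespace Pool.Agent.TH408.SP.J3

open Pool.Agent.W904.AK Pool.Agent.W798.SP

/-- The lines through a point with a slope that is a ratio. -/
noncomputable def lines (A B C D : Finset ℝ) : Finset (ℝ × ℝ) :=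
  (A ×ˢ (B ×ˢ (C ×ˢ D))).image fun t => (t.2.1 / t.1, t.2.2.2 - t.2.1 / t.1 * t.2.2.1)

lemma card_lines {A B C D : Finset ℝ} {n : ℕ} (hA : A.card ≤ n) (hB : B.card ≤ n)
    (hC : C.card ≤ n) (hD : D.card ≤ n) : (lines A B C D).card ≤ (n * n) ^ 2 := by
  refine Finset.card_image_le.trans ?_
  rw [Finset.card_product, Finset.card_product, Finset.card_product]
  calc A.card * (B.card * (C.card * D.card)) ≤ n * (n * (n * n)) :=
        Nat.mul_le_mul hA (Nat.mul_le_mul hB (Nat.mul_le_mul hC hD))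
    _ = (n * n) ^ 2 := by ring

lemma mem_lines {A B C D : Finset ℝ} {x y z w : ℝ} (hx : x ∈ A) (hy : y ∈ B) (hz : z ∈ C)
    (hw : w ∈ D) : (y / x, w - y / x * z) ∈ lines A B C D := by
  unfold lines
  rw [Finset.mem_image]
  exact ⟨(x, (y, (z, w))), by simp [hx, hy, hz, hw], rfl⟩

lemma log_mul_self' (n : ℕ) : Real.log ((n : ℝ) * n) = 2 * Real.log n := by
  rcases eq_or_ne (n : ℝ) 0 with h | h
  · rw [h]; simp
  · rw [Real.log_mul h h]; ring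

/-- The conditional entropy of a point of a Cartesian product. -/
lemma CH_pair_le (h2 : S_GC) {Ω γ : Type} [Fintype Ω] {p : Ω → ℝ} (Q : Ω → γ) (x y : Ω → ℝ)
    (n : ℕ) (X Y : γ → Finset ℝ) (hp : IsLaw p) (hX : ∀ q, (X q).card ≤ n)
    (hY : ∀ q, (Y q).card ≤ n) (h : ∀ ω, p ω ≠ 0 → x ω ∈ X (Q ω) ∧ y ω ∈ Y (Q ω)) :
    CH p Q (fun ω => (x ω, y ω)) ≤ 2 * Real.log n := by
  have h3 := h2 p Q (fun ω => (x ω, y ω)) (fun _ => ()) (fun q => X q ×ˢ Y q)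
    (fun _ _ => {()}) 0 ((n : ℝ) * n) hp
    (fun ω hω => ⟨Finset.mem_product.2 (h ω hω), by simp⟩)
    (fun ω _ => by
      simp only [pow_zero, Finset.sum_const, nsmul_eq_mul, mul_one, Finset.card_product]
      exact_mod_cast Nat.mul_le_mul (hX _) (hY _))
  rw [log_mul_self'] at h3
  push_cast at h3
  linarith

lemma Cst_mono {n N : ℕ} (h : n ≤ N) : Cst n ≤ Cst N := by
  unfold Cst
  have h1 : (Nat.log 2 n : ℝ) ≤ (Nat.log 2 N : ℝ) := by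
    exact_mod_cast Nat.log_mono_right h
  have h0 : (0 : ℝ) ≤ (Nat.log 2 n : ℝ) := Nat.cast_nonneg _
  refine Real.log_le_log (by positivity) ?_
  linarith

theorem tJ03 (h1 : S_STC) (h2 : S_GC) : S_J03 := by
  intro Ω γ _ p Q a b n N S S' hp hnN hS hS' hω
  have hsum : ∀ ω, p ω ≠ 0 → a 0 ω = - a 1 ω - a 2 ω ∧ b 0 ω = - b 1 ω - b 2 ω := by
    intro ω h
    obtain ⟨-, e1, e2⟩ := hω ω h
    rw [Fin.sum_univ_three] at e1 e2
    constructor <;> linarith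
  have hra : ∀ ω, p ω ≠ 0 → b 0 ω / a 0 ω * a 0 ω = b 0 ω := fun ω h =>
    div_mul_cancel₀ _ ((hω ω h).1 0).1
  have hβ : ∀ ω, p ω ≠ 0 →
      -(b 1 ω - b 0 ω / a 0 ω * a 1 ω) = b 2 ω - b 0 ω / a 0 ω * a 2 ω := by
    intro ω h
    obtain ⟨e1, e2⟩ := hsum ω h
    have e3 := hra ω h
    have e4 : a 2 ω = - a 0 ω - a 1 ω := by linarith
    have e5 : b 2 ω = - b 0 ω - b 1 ω := by linarith
    rw [e4, e5]
    linear_combination -e3
  -- the first point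
  have s1 := h1 p Q (a 1) (b 1) (fun ω => b 0 ω / a 0 ω)
    (fun ω => b 1 ω - b 0 ω / a 0 ω * a 1 ω) n n (S 1) (S' 1)
    (fun q => lines (S 0 q) (S' 0 q) (S 1 q) (S' 1 q)) hp (fun q => (hS q).2.1)
    (fun q => (hS' q).2.1)
    (fun q => card_lines (hS q).1 (hS' q).1 (hS q).2.1 (hS' q).2.1)
    (fun ω h => by
      have e := (hω ω h).1
      exact ⟨(e 1).2.2.1, (e 1).2.2.2, div_ne_zero (e 0).2.1 (e 0).1, by ring,
        mem_lines (e 0).2.2.1 (e 0).2.2.2 (e 1).2.2.1 (e 1).2.2.2⟩)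
  -- the second point
  have s2 := h1 p Q (a 2) (b 2) (fun ω => b 0 ω / a 0 ω)
    (fun ω => -(b 1 ω - b 0 ω / a 0 ω * a 1 ω)) N N (S 2) (S' 2)
    (fun q => lines (S 0 q) (S' 0 q) (S 2 q) (S' 2 q)) hp (fun q => (hS q).2.2)
    (fun q => (hS' q).2.2)
    (fun q => card_lines ((hS q).1.trans hnN) ((hS' q).1.trans hnN) (hS q).2.2 (hS' q).2.2)
    (fun ω h => by
      have e := (hω ω h).1
      refine ⟨(e 2).2.2.1, (e 2).2.2.2, div_ne_zero (e 0).2.1 (e 0).1, ?_, ?_⟩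
      · rw [hβ ω h]; ring
      · rw [hβ ω h]
        exact mem_lines (e 0).2.2.1 (e 0).2.2.2 (e 2).2.2.1 (e 2).2.2.2)
  have s2a : CH p Q (fun ω => (b 0 ω / a 0 ω, -(b 1 ω - b 0 ω / a 0 ω * a 1 ω))) =
      CH p Q (fun ω => (b 0 ω / a 0 ω, b 1 ω - b 0 ω / a 0 ω * a 1 ω)) :=
    CH_eq hp (Det.mk' (fun t => (t.2.1, -t.2.2)) fun ω _ => by simp)
      (Det.mk' (fun t => (t.2.1, -t.2.2)) fun ω _ => by simp)
  have s2b : CH p Q (fun ω => ((b 0 ω / a 0 ω, -(b 1 ω - b 0 ω / a 0 ω * a 1 ω)),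
      (a 2 ω, b 2 ω))) =
      CH p Q (fun ω => ((b 0 ω / a 0 ω, b 1 ω - b 0 ω / a 0 ω * a 1 ω), (a 2 ω, b 2 ω))) :=
    CH_eq hp (Det.mk' (fun t => ((t.2.1.1, -t.2.1.2), t.2.2)) fun ω _ => by simp)
      (Det.mk' (fun t => ((t.2.1.1, -t.2.1.2), t.2.2)) fun ω _ => by simp)
  rw [s2a, s2b] at s2
  -- submodularity
  have s3 := CH_submod hp (Q := Q)
    (f := fun ω => ((b 0 ω / a 0 ω, b 1 ω - b 0 ω / a 0 ω * a 1 ω), (a 1 ω, b 1 ω)))
    (g := fun ω => ((b 0 ω / a 0 ω, b 1 ω - b 0 ω / a 0 ω * a 1 ω), (a 2 ω, b 2 ω)))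
    (h := fun ω => (b 0 ω / a 0 ω, b 1 ω - b 0 ω / a 0 ω * a 1 ω))
    (k := fun ω => (zz a ω, zz b ω))
    (Det.mk' (fun t => t.2.1) fun ω _ => rfl) (Det.mk' (fun t => t.2.1) fun ω _ => rfl)
    (Det.mk' (fun t => ((![-t.2.1.2.1 - t.2.2.2.1, t.2.1.2.1, t.2.2.2.1] : Fin 3 → ℝ),
      (![-t.2.1.2.2 - t.2.2.2.2, t.2.1.2.2, t.2.2.2.2] : Fin 3 → ℝ))) fun ω h => by
      obtain ⟨e1, e2⟩ := hsum ω h
      refine Prod.ext ?_ ?_
      · funext i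
        fin_cases i
        · exact e1
        · rfl
        · rfl
      · funext i
        fin_cases i
        · exact e2
        · rfl
        · rfl)
  -- trivial bounds
  have s4 := CH_subadd hp (Q := Q) (f := fun ω => b 0 ω / a 0 ω) (g := fun ω => (a 1 ω, b 1 ω))
    (k := fun ω => ((b 0 ω / a 0 ω, b 1 ω - b 0 ω / a 0 ω * a 1 ω), (a 1 ω, b 1 ω)))
    (Det.mk' (fun t => ((t.2.1, t.2.2.2 - t.2.1 * t.2.2.1), t.2.2)) fun ω _ => rfl)
  have s5 := CH_subadd hp (Q := Q) (f := fun ω => b 0 ω / a 0 ω) (g := fun ω => (a 2 ω, b 2 ω))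
    (k := fun ω => ((b 0 ω / a 0 ω, b 1 ω - b 0 ω / a 0 ω * a 1 ω), (a 2 ω, b 2 ω)))
    (Det.mk' (fun t => ((t.2.1, -(t.2.2.2 - t.2.1 * t.2.2.1)), t.2.2)) fun ω h => by
      have e := hβ ω h
      refine Prod.ext (Prod.ext rfl ?_) rfl
      show b 1 ω - b 0 ω / a 0 ω * a 1 ω = -(b 2 ω - b 0 ω / a 0 ω * a 2 ω)
      rw [← e, neg_neg])
  have s6 := CH_pair_le h2 Q (a 1) (b 1) n (S 1) (S' 1) hp (fun q => (hS q).2.1)
    (fun q => (hS' q).2.1)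
    (fun ω h => ⟨((hω ω h).1 1).2.2.1, ((hω ω h).1 1).2.2.2⟩)
  have s7 := CH_pair_le h2 Q (a 2) (b 2) N (S 2) (S' 2) hp (fun q => (hS q).2.2)
    (fun q => (hS' q).2.2)
    (fun ω h => ⟨((hω ω h).1 2).2.2.1, ((hω ω h).1 2).2.2.2⟩)
  have s8 := Cst_mono hnN
  rw [log_mul_self'] at s1 s2
  linarith

theorem tJ3 (h : S_J03) : S_J3 := by
  intro Ω₁ Γ₁ K₁ Ω₂ Γ₂ K₂ Ω γ _ _ _ p₁ Lam₁ a κ₁ p₂ Lam₂ b κ₂ n N p kA kB f g Q
    htri₁ htri₂ hnN hp hf hg hQA hQB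
  obtain ⟨hp₁, c, S, hS, hrel⟩ := htri₁
  obtain ⟨hp₂, d, S', hS', hrel'⟩ := htri₂
  set F₁ : Ω → K₁ × ℝ := fun ω => (kA ω, f ω) with hF₁
  set G₁ : Ω₁ → K₁ × ℝ := fun ω => (κ₁ (Lam₁ ω), a 0 ω) with hG₁
  set G₂ : Ω₂ → K₂ × ℝ := fun ω => (κ₂ (Lam₂ ω), b 0 ω) with hG₂
  set pA : Ω × Ω₁ → ℝ := glue p p₁ F₁ G₁ with hpA
  set F₂ : Ω × Ω₁ → K₂ × ℝ := fun w => (kB w.1, g w.1) with hF₂
  set pB : (Ω × Ω₁) × Ω₂ → ℝ := glue pA p₂ F₂ G₂ with hpB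
  have hA : IsLaw pA := glue_law hp hp₁ hf
  have hfg₂ : ∀ c, im pA F₂ c = im p₂ G₂ c := by
    intro c
    rw [← hg c]
    exact im_glue_fst hp hf (fun ω => (kB ω, g ω)) c
  have hB : IsLaw pB := glue_law hA hp₂ hfg₂
  -- facts on the support
  have supp : ∀ w, pB w ≠ 0 → kA w.1.1 = κ₁ (Lam₁ w.1.2) ∧ f w.1.1 = a 0 w.1.2 ∧
      kB w.1.1 = κ₂ (Lam₂ w.2) ∧ g w.1.1 = b 0 w.2 ∧ p₁ w.1.2 ≠ 0 ∧ p₂ w.2 ≠ 0 := by
    intro w hw
    obtain ⟨e1, e2, e3⟩ := glue_supp hw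
    obtain ⟨e4, e5, e6⟩ := glue_supp e2
    exact ⟨congrArg Prod.fst e4, congrArg Prod.snd e4, congrArg Prod.fst e1,
      congrArg Prod.snd e1, e6, e3⟩
  let Q' : (Ω × Ω₁) × Ω₂ → (γ × Γ₁) × Γ₂ := fun w => ((Q w.1.1, Lam₁ w.1.2), Lam₂ w.2)
  let a' : Fin 3 → (Ω × Ω₁) × Ω₂ → ℝ := fun k w => c k (Lam₁ w.1.2) * a k w.1.2
  let b' : Fin 3 → (Ω × Ω₁) × Ω₂ → ℝ := fun k w => d k (Lam₂ w.2) * b k w.2
  have hJ0 := h pB Q' a' b' n N (fun k q => (S k q.1.2).image (fun x => c k q.1.2 * x))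
    (fun k q => (S' k q.2).image (fun x => d k q.2 * x)) hB hnN
    (fun q => ⟨Finset.card_image_le.trans (hS _).1, Finset.card_image_le.trans (hS _).2.1,
      Finset.card_image_le.trans (hS _).2.2⟩)
    (fun q => ⟨Finset.card_image_le.trans (hS' _).1, Finset.card_image_le.trans (hS' _).2.1,
      Finset.card_image_le.trans (hS' _).2.2⟩) (by
      intro w hw
      obtain ⟨s1, s2, s3, s4, s5, s6⟩ := supp w hw
      obtain ⟨r1, r2⟩ := hrel _ s5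
      obtain ⟨r3, r4⟩ := hrel' _ s6
      exact ⟨fun k => ⟨mul_ne_zero (r1 _).1 (r1 _).2.1, mul_ne_zero (r3 _).1 (r3 _).2.1,
        Finset.mem_image.2 ⟨a k w.1.2, (r1 _).2.2, rfl⟩,
        Finset.mem_image.2 ⟨b k w.2, (r3 _).2.2, rfl⟩⟩, r2, r4⟩)
  -- marginals
  have mar : ∀ {β : Type} (F : Ω → β), H pB (fun w => F w.1.1) = H p F := by
    intro β F
    have e5 := H_glue_fst (q := p₂) (g := G₂) hA hfg₂ (fun w : Ω × Ω₁ => F w.1)
    have e6 := H_glue_fst (q := p₁) (g := G₁) hp hf F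
    exact e5.trans e6
  -- the ratio
  have hratio : CH pB Q' (fun w => b' 0 w / a' 0 w) ≤ CH p Q (fun ω => g ω / f ω) := by
    have e1 : CH pB Q' (fun w => b' 0 w / a' 0 w) ≤ CH pB Q' (fun w => g w.1.1 / f w.1.1) := by
      apply CH_mono hB
      refine Det.mk' (fun t => d 0 t.1.2 / c 0 t.1.1.2 * t.2) fun w hw => ?_
      obtain ⟨s1, s2, s3, s4, s5, s6⟩ := supp w hw
      change d 0 (Lam₂ w.2) * b 0 w.2 / (c 0 (Lam₁ w.1.2) * a 0 w.1.2)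
        = d 0 (Lam₂ w.2) / c 0 (Lam₁ w.1.2) * (g w.1.1 / f w.1.1)
      rw [s4, s2, mul_div_mul_comm]
    have e2 : CH pB Q' (fun w => g w.1.1 / f w.1.1) ≤
        CH pB (fun w => Q w.1.1) (fun w => g w.1.1 / f w.1.1) :=
      CH_anti hB (Det.mk' (fun t => t.1.1) fun w _ => rfl)
    have e3 : CH pB (fun w => Q w.1.1) (fun w => g w.1.1 / f w.1.1) =
        CH p Q (fun ω => g ω / f ω) := by
      unfold CH
      have e4 := mar Q
      have e5 := mar (fun ω => (Q ω, g ω / f ω))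
      rw [e4, e5]
    rw [← e3]
    exact e1.trans e2
  -- the entropy of the condition
  have hcond : H pB Q' ≤ H p Q + (H p₁ Lam₁ - H p₁ (fun ω => κ₁ (Lam₁ ω))) +
      (H p₂ Lam₂ - H p₂ (fun ω => κ₂ (Lam₂ ω))) := by
    have e1 := submod' hB (f := fun w => Q w.1.1) (g := fun w => Lam₁ w.1.2)
      (h := fun w => κ₁ (Lam₁ w.1.2)) (k := fun w => (Q w.1.1, Lam₁ w.1.2))
      (by
        intro x y hx hy hxy
        have e3 := hQA x.1.1 y.1.1 (glue_supp (glue_supp hx).2.1).2.1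
          (glue_supp (glue_supp hy).2.1).2.1 hxy
        show κ₁ (Lam₁ x.1.2) = κ₁ (Lam₁ y.1.2)
        rw [← (supp x hx).1, ← (supp y hy).1, e3])
      (Det.mk' (fun t => κ₁ t) fun w _ => rfl) (Det.refl _ _)
    have e2 := submod' hB (f := fun w => (Q w.1.1, Lam₁ w.1.2)) (g := fun w => Lam₂ w.2)
      (h := fun w => κ₂ (Lam₂ w.2)) (k := Q')
      (by
        intro x y hx hy hxy
        have hxy' : Q x.1.1 = Q y.1.1 := congrArg Prod.fst hxy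
        have e3 := hQB x.1.1 y.1.1 (glue_supp (glue_supp hx).2.1).2.1
          (glue_supp (glue_supp hy).2.1).2.1 hxy'
        show κ₂ (Lam₂ x.2) = κ₂ (Lam₂ y.2)
        rw [← (supp x hx).2.2.1, ← (supp y hy).2.2.1, e3])
      (Det.mk' (fun t => κ₂ t) fun w _ => rfl) (Det.refl _ _)
    have m1 : H pB (fun w => Lam₁ w.1.2) = H p₁ Lam₁ := by
      have e5 := H_glue_fst (q := p₂) (g := G₂) hA hfg₂ (fun w : Ω × Ω₁ => Lam₁ w.2)
      have e6 := H_glue_snd (p := p) (f := F₁) hp₁ hf Lam₁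
      exact e5.trans e6
    have m2 : H pB (fun w => κ₁ (Lam₁ w.1.2)) = H p₁ (fun ω => κ₁ (Lam₁ ω)) := by
      have e5 := H_glue_fst (q := p₂) (g := G₂) hA hfg₂ (fun w : Ω × Ω₁ => κ₁ (Lam₁ w.2))
      have e6 := H_glue_snd (p := p) (f := F₁) hp₁ hf (fun ω => κ₁ (Lam₁ ω))
      exact e5.trans e6
    have m3 : H pB (fun w => Lam₂ w.2) = H p₂ Lam₂ :=
      H_glue_snd (p := pA) (f := F₂) hp₂ hfg₂ Lam₂
    have m4 : H pB (fun w => κ₂ (Lam₂ w.2)) = H p₂ (fun ω => κ₂ (Lam₂ ω)) :=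
      H_glue_snd (p := pA) (f := F₂) hp₂ hfg₂ (fun ω => κ₂ (Lam₂ ω))
    have m5 := mar Q
    rw [m1, m2, m5] at e1
    rw [m3, m4] at e2
    linarith
  -- the joint entropy
  have hjoint : H pB (fun w => (Q' w, (zz a' w, zz b' w))) =
      H p (fun ω => (Q ω, (f ω, g ω))) + H p₁ (fun ω => (Lam₁ ω, zz a ω)) - H p₁ G₁ +
        H p₂ (fun ω => (Lam₂ ω, zz b ω)) - H p₂ G₂ := by
    let big : (Ω × Ω₁) × Ω₂ → ((γ × (ℝ × ℝ)) × (Γ₁ × (Fin 3 → ℝ))) × (Γ₂ × (Fin 3 → ℝ)) :=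
      fun w => (((Q w.1.1, (f w.1.1, g w.1.1)), (Lam₁ w.1.2, zz a w.1.2)), (Lam₂ w.2, zz b w.2))
    have e7 : H pB (fun w => (Q' w, (zz a' w, zz b' w))) = H pB big := by
      apply H_congr hB
      · refine Det.mk' (fun t => (((t.1.1.1, (t.2.1 0 / c 0 t.1.1.2, t.2.2 0 / d 0 t.1.2)),
          (t.1.1.2, fun k => t.2.1 k / c k t.1.1.2)),
          (t.1.2, fun k => t.2.2 k / d k t.1.2))) fun w hw => ?_
        obtain ⟨s1, s2, s3, s4, s5, s6⟩ := supp w hw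
        obtain ⟨r1, r2⟩ := hrel _ s5
        obtain ⟨r3, r4⟩ := hrel' _ s6
        have q1 : ∀ k, c k (Lam₁ w.1.2) * a k w.1.2 / c k (Lam₁ w.1.2) = a k w.1.2 := fun k =>
          mul_div_cancel_left₀ _ (r1 k).1
        have q2 : ∀ k, d k (Lam₂ w.2) * b k w.2 / d k (Lam₂ w.2) = b k w.2 := fun k =>
          mul_div_cancel_left₀ _ (r3 k).1
        change (((Q w.1.1, (f w.1.1, g w.1.1)), (Lam₁ w.1.2, zz a w.1.2)),
          (Lam₂ w.2, zz b w.2)) = (((Q w.1.1,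
          (c 0 (Lam₁ w.1.2) * a 0 w.1.2 / c 0 (Lam₁ w.1.2),
            d 0 (Lam₂ w.2) * b 0 w.2 / d 0 (Lam₂ w.2))),
          (Lam₁ w.1.2, fun k => c k (Lam₁ w.1.2) * a k w.1.2 / c k (Lam₁ w.1.2))),
          (Lam₂ w.2, fun k => d k (Lam₂ w.2) * b k w.2 / d k (Lam₂ w.2)))
        simp only [q1, q2]
        rw [s2, s4]
        rfl
      · exact Det.mk' (fun t => (((t.1.1.1, t.1.2.1), t.2.1),
          ((fun k => c k t.1.2.1 * t.1.2.2 k), (fun k => d k t.2.1 * t.2.2 k)))) fun w _ => rfl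
    have e8 : H pB big = H pA (fun w => ((Q w.1, (f w.1, g w.1)), (Lam₁ w.2, zz a w.2))) +
        H p₂ (fun ω => (Lam₂ ω, zz b ω)) - H pA F₂ := by
      refine H_glue hA hp₂ hfg₂ (u := fun w : Ω × Ω₁ => ((Q w.1, (f w.1, g w.1)),
        (Lam₁ w.2, zz a w.2))) (v := fun ω => (Lam₂ ω, zz b ω)) ?_ ?_
      · intro x y hx hy hxy
        have hxy1 : Q x.1 = Q y.1 := congrArg (fun t => t.1.1) hxy
        have hxy2 : g x.1 = g y.1 := congrArg (fun t => t.1.2.2) hxy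
        have e3 := hQB x.1 y.1 (glue_supp hx).2.1 (glue_supp hy).2.1 hxy1
        show (kB x.1, g x.1) = (kB y.1, g y.1)
        rw [e3, hxy2]
      · exact Det.mk' (fun t => (κ₂ t.1, t.2 0)) fun w _ => rfl
    have e9 : H pA (fun w => ((Q w.1, (f w.1, g w.1)), (Lam₁ w.2, zz a w.2))) =
        H p (fun ω => (Q ω, (f ω, g ω))) + H p₁ (fun ω => (Lam₁ ω, zz a ω)) - H p F₁ := by
      refine H_glue hp hp₁ hf (u := fun ω => (Q ω, (f ω, g ω)))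
        (v := fun ω => (Lam₁ ω, zz a ω)) ?_ ?_
      · intro x y hx hy hxy
        have hxy1 : Q x = Q y := congrArg (fun t => t.1) hxy
        have hxy2 : f x = f y := congrArg (fun t => t.2.1) hxy
        have e3 := hQA x y hx hy hxy1
        show (kA x, f x) = (kA y, f y)
        rw [e3, hxy2]
      · exact Det.mk' (fun t => (κ₁ t.1, t.2 0)) fun w _ => rfl
    have e10 : H pA F₂ = H p₂ G₂ := H_eq_of_im_eq hfg₂
    have e11 : H p F₁ = H p₁ G₁ := H_eq_of_im_eq hf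
    rw [e7, e8, e9, e10, e11]
  have e12 : CH pB Q' (fun w => (zz a' w, zz b' w)) =
    H pB (fun w => (Q' w, (zz a' w, zz b' w))) - H pB Q' := rfl
  have e13 : CH p Q (fun ω => (f ω, g ω)) = H p (fun ω => (Q ω, (f ω, g ω))) - H p Q := rfl
  have e14 : CH p₁ Lam₁ (zz a) = H p₁ (fun ω => (Lam₁ ω, zz a ω)) - H p₁ Lam₁ := rfl
  have e15 : CH p₂ Lam₂ (zz b) = H p₂ (fun ω => (Lam₂ ω, zz b ω)) - H p₂ Lam₂ := rfl
  have e16 : CH p₁ (fun ω => κ₁ (Lam₁ ω)) (a 0) = H p₁ G₁ - H p₁ (fun ω => κ₁ (Lam₁ ω)) := rfl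
  have e17 : CH p₂ (fun ω => κ₂ (Lam₂ ω)) (b 0) = H p₂ G₂ - H p₂ (fun ω => κ₂ (Lam₂ ω)) := rfl
  rw [e12, hjoint] at hJ0
  rw [e13, e14, e15, e16, e17]
  linarith

end Pool.Agent.TH408.SP.J3
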