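import Pool.Agent.TH408.SP.Stm3
import Pool.Agent.W797.SP.DY
import Pool.Agent.W32.SPY.PO2
import Pool.Agent.W333.SPY.RE2

/-!
# Sum-product (exponent 91/68): the numbers

Job 859 of `helper408`: `tDY3` adapts `tDY` of `W797/SP/DY.lean`, `tPO3` adapts `tPO2` of
`W32/SPY/PO2.lean`, `tRE3` adapts `tRE2` of `W333/SPY/RE2.lean`.
-/

set_option autoImplicit false
set_option linter.all false
set_option maxHeartbeats 1000000

open Finset
open scoped Classical Pointwise

namespace Pool.Agent.TH408.SP.PO3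

open Pool.Agent.W904.AK Pool.Agent.W798.SP Pool.Agent.TH408.SP Pool.Agent.W797.SP
  Pool.Agent.W32.SPY

theorem tDY3 (h : S_CS) : S_DY3 := by
  intro A hne hA
  obtain ⟨h1, h2⟩ := h A hA
  have hn : A.card ≠ 0 := hne.card_pos.ne'
  set J := Nat.log 2 A.card + 1 with hJ
  have hfle : ∀ l, (fib A l).card ≤ A.card := fun l => Finset.card_filter_le _ _
  have hmaps : ∀ l ∈ A / A, Nat.log 2 (fib A l).card ∈ Finset.range J := by
    intro l _
    rw [Finset.mem_range, hJ]
    exact Nat.lt_succ_of_le (Nat.log_mono_right (hfle l))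
  have hsum : ∑ j ∈ Finset.range J, ∑ l ∈ (A / A).filter (fun l => Nat.log 2 (fib A l).card = j),
      (fib A l).card ^ 2 = en A :=
    Finset.sum_fiberwise_of_maps_to hmaps (fun l => (fib A l).card ^ 2)
  obtain ⟨j, hj, hle⟩ := Finset.exists_le_of_sum_le (s := Finset.range J)
    (f := fun _ => en A)
    (g := fun j => J * ∑ l ∈ (A / A).filter (fun l => Nat.log 2 (fib A l).card = j),
      (fib A l).card ^ 2) (Finset.nonempty_range_iff.2 (by omega)) (by
        rw [← Finset.mul_sum, hsum, Finset.sum_const, Finset.card_range, smul_eq_mul])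
  have hjJ : j ≤ Nat.log 2 A.card := by
    have := Finset.mem_range.1 hj
    omega
  have hS : ∀ l ∈ (A / A).filter (fun l => Nat.log 2 (fib A l).card = j),
      0 < l ∧ 2 ^ j ≤ (fib A l).card ∧ (fib A l).card < 2 * 2 ^ j := by
    intro l hl
    rw [Finset.mem_filter] at hl
    obtain ⟨hl1, hl2⟩ := hl
    obtain ⟨a1, a2⟩ := fib_pos A hA l hl1
    refine ⟨a1, ?_, ?_⟩
    · rw [← hl2]
      exact Nat.pow_log_le_self 2 (by omega)
    · have := Nat.lt_pow_succ_log_self (b := 2) (by norm_num) (fib A l).card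
      rw [hl2, pow_succ] at this
      omega
  refine ⟨2 ^ j, (A / A).filter (fun l => Nat.log 2 (fib A l).card = j), Nat.one_le_two_pow,
    ?_, hS, ?_, ?_, ?_⟩
  · exact le_trans (Nat.pow_le_pow_right (by norm_num) hjJ) (Nat.pow_log_le_self 2 hn)
  · have e1 : ∑ l ∈ (A / A).filter (fun l => Nat.log 2 (fib A l).card = j),
        (fib A l).card ^ 2 ≤
        ((A / A).filter (fun l => Nat.log 2 (fib A l).card = j)).card * (2 * 2 ^ j) ^ 2 := by
      rw [← smul_eq_mul]
      apply Finset.sum_le_card_nsmul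
      intro l hl
      exact Nat.pow_le_pow_left (hS l hl).2.2.le 2
    calc en A ≤ J * (((A / A).filter
            (fun l => Nat.log 2 (fib A l).card = j)).card * (2 * 2 ^ j) ^ 2) :=
          hle.trans (Nat.mul_le_mul_left _ e1)
      _ = _ := by ring
  · calc ((A / A).filter (fun l => Nat.log 2 (fib A l).card = j)).card * (2 ^ j) ^ 2
        ≤ ∑ l ∈ (A / A).filter (fun l => Nat.log 2 (fib A l).card = j), (fib A l).card ^ 2 := by
          rw [← smul_eq_mul]
          apply Finset.card_nsmul_le_sum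
          intro l hl
          exact Nat.pow_le_pow_left (hS l hl).2.1 2
      _ ≤ ∑ l ∈ A / A, (fib A l).card ^ 2 :=
          Finset.sum_le_sum_of_subset (Finset.filter_subset _ _)
      _ = en A := rfl
  · calc ((A / A).filter (fun l => Nat.log 2 (fib A l).card = j)).card * 2 ^ j
        ≤ ∑ l ∈ (A / A).filter (fun l => Nat.log 2 (fib A l).card = j), (fib A l).card := by
          rw [← smul_eq_mul]
          apply Finset.card_nsmul_le_sum
          intro l hl
          exact (hS l hl).2.1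
      _ ≤ ∑ l ∈ A / A, (fib A l).card :=
          Finset.sum_le_sum_of_subset (Finset.filter_subset _ _)
      _ = A.card ^ 2 := h2

/-- the logarithmic form -/
theorem main3 (hAS : S_AS3) (hDY : S_DY3) (hEN : S_EN) (hCS : S_CS) {δ : ℝ} (hδ : 0 < δ)
    (A : Finset ℝ) (hA : A.Nonempty) (hpos : ∀ x ∈ A, 0 < x) :
    (182 - δ) * Real.log A.card ≤ 81 * Real.log (A + A).card + 55 * Real.log (A * A).card +
      (|908 * Real.log 2 + 11 * Real.log 4097 +
        195 * (3 * (δ / 400) - Real.log (δ / 400))| +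
      |248 * Real.log 2 + 83 * (3 * (δ / 400) - Real.log (δ / 400))|) := by
  obtain ⟨η, hηd⟩ : ∃ η : ℝ, η = δ / 400 := ⟨_, rfl⟩
  have hη : 0 < η := by rw [hηd]; positivity
  rw [← hηd]
  obtain ⟨N, hNd⟩ : ∃ N : ℕ, N = A.card := ⟨_, rfl⟩
  obtain ⟨K, hKd⟩ : ∃ K : ℕ, K = (A + A).card := ⟨_, rfl⟩
  obtain ⟨P, hPd⟩ : ∃ P : ℕ, P = (A * A).card := ⟨_, rfl⟩
  have hN1 : 1 ≤ N := by rw [hNd]; exact hA.card_pos
  have hNK : N ≤ K := by rw [hNd, hKd]; exact Finset.card_le_card_add_self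
  have hP1 : 1 ≤ P := by rw [hPd]; exact (hA.mul hA).card_pos
  have hPN : P ≤ N * N := by rw [hPd, hNd]; exact Finset.card_mul_le
  have hK1 : 1 ≤ K := hN1.trans hNK
  obtain ⟨T, S, hT1, hTN, hS, hE1, hE3, hE2⟩ := hDY A hA hpos
  have hEN1 := hEN A hpos
  have hCS1 := (hCS A hpos).1
  have hAS1 := hAS A S T
  rw [← hNd] at hE1
  rw [← hNd, ← hPd] at hCS1
  rw [← hNd] at hTN hE2
  rw [← hNd, ← hKd] at hEN1
  rw [← hNd, ← hKd, ← hPd]
  obtain ⟨n, hnd⟩ : ∃ n : ℕ, n = S.card := ⟨_, rfl⟩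
  rw [← hnd] at hE1 hE2 hE3
  obtain ⟨J, hJd⟩ : ∃ J : ℕ, J = Nat.log 2 N + 1 := ⟨_, rfl⟩
  rw [← hJd] at hE1 hEN1
  have hJ1 : 1 ≤ J := by omega
  obtain ⟨E, hEd⟩ : ∃ E : ℕ, E = en A := ⟨_, rfl⟩
  rw [← hEd] at hEN1 hCS1 hE1 hE3
  have hEpos : 1 ≤ E := by
    by_contra h
    have h0 : E = 0 := by omega
    rw [h0] at hCS1
    have : 0 < N ^ 4 := by positivity
    simp at hCS1
    omega
  have hn1 : 1 ≤ n := by
    by_contra h
    have h0 : n = 0 := by omega
    rw [h0] at hE1
    simp at hE1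
    omega
  -- real casts
  have rN : (1 : ℝ) ≤ N := by exact_mod_cast hN1
  have rK : (1 : ℝ) ≤ K := by exact_mod_cast hK1
  have rP : (1 : ℝ) ≤ P := by exact_mod_cast hP1
  have rT : (1 : ℝ) ≤ T := by exact_mod_cast hT1
  have rn : (1 : ℝ) ≤ n := by exact_mod_cast hn1
  have rJ : (1 : ℝ) ≤ J := by exact_mod_cast hJ1
  have rE : (1 : ℝ) ≤ E := by exact_mod_cast hEpos
  have rNK : (N : ℝ) ≤ K := by exact_mod_cast hNK
  have rTN : (T : ℝ) ≤ N := by exact_mod_cast hTN
  have rE1 : (E : ℝ) ≤ 4 * J * (n * T ^ 2) := by exact_mod_cast hE1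
  have rE3 : (n : ℝ) * T ^ 2 ≤ E := by exact_mod_cast hE3
  have rE2 : (n : ℝ) * T ≤ N ^ 2 := by exact_mod_cast hE2
  have rEN : (E : ℝ) ≤ 8 * K ^ 2 * J := by exact_mod_cast hEN1
  have rCS : (N : ℝ) ^ 4 ≤ P * E := by exact_mod_cast hCS1
  -- logs
  obtain ⟨L, hL⟩ : ∃ L : ℝ, L = Real.log N := ⟨_, rfl⟩
  obtain ⟨s, hs⟩ : ∃ s : ℝ, s = Real.log K := ⟨_, rfl⟩
  obtain ⟨q, hq⟩ : ∃ q : ℝ, q = Real.log P := ⟨_, rfl⟩
  obtain ⟨j, hj⟩ : ∃ j : ℝ, j = Real.log J := ⟨_, rfl⟩
  obtain ⟨t, ht⟩ : ∃ t : ℝ, t = Real.log T := ⟨_, rfl⟩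
  obtain ⟨ν, hν⟩ : ∃ ν : ℝ, ν = Real.log n := ⟨_, rfl⟩
  obtain ⟨jj, hjj⟩ : ∃ jj : ℝ, jj = Real.log (2 * (J : ℝ) + 1) := ⟨_, rfl⟩
  have hL0 : 0 ≤ L := by rw [hL]; exact Real.log_nonneg rN
  have hj0 : 0 ≤ j := by rw [hj]; exact Real.log_nonneg rJ
  have hLs : L ≤ s := by rw [hL, hs]; exact Real.log_le_log (by linarith) rNK
  have hjjj : j ≤ jj := by
    rw [hj, hjj]
    exact Real.log_le_log (by linarith) (by linarith)
  have hjjη : jj ≤ η * (3 + 4 * L) - Real.log η := by
    have := lj_le hη N hN1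
    rw [hjj, hL, hJd]
    push_cast
    exact this
  have hl2 : 0 < Real.log 2 := Real.log_pos (by norm_num)
  have e4 : Real.log 4 = 2 * Real.log 2 := by
    rw [show (4 : ℝ) = 2 ^ 2 by norm_num, Real.log_pow]
    push_cast
    ring
  have lE : Real.log (E : ℝ) ≤ 2 * Real.log 2 + j + (ν + 2 * t) := by
    have h := Real.log_le_log (by positivity) rE1
    rw [Real.log_mul (by positivity) (by positivity),
      Real.log_mul (by positivity) (by positivity), Real.log_mul (by positivity) (by positivity),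
      Real.log_pow, e4] at h
    push_cast at h
    rw [hj, hν, ht]
    linarith
  have lCS : 4 * L ≤ q + Real.log (E : ℝ) := by
    have h := Real.log_le_log (by positivity) rCS
    rw [Real.log_pow, Real.log_mul (by positivity) (by positivity)] at h
    push_cast at h
    rw [hL, hq]
    exact h
  have lE1 : 4 * L ≤ 2 * Real.log 2 + q + j + (ν + 2 * t) := by linarith
  have lE2 : ν + t ≤ 2 * L := by
    have h := Real.log_le_log (by positivity) rE2
    rw [Real.log_mul (by positivity) (by positivity), Real.log_pow] at h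
    push_cast at h
    rw [hL, hν, ht]
    linarith
  -- the choice of M
  obtain ⟨M, hMd⟩ : ∃ M : ℕ, M = max 2 ⌈16 * (K : ℝ) ^ 2 / (n * T ^ 2)⌉₊ := ⟨_, rfl⟩
  have hM2 : 2 ≤ M := by rw [hMd]; exact le_max_left _ _
  have hMr : 16 * (K : ℝ) ^ 2 / (n * T ^ 2) ≤ M := by
    refine (Nat.le_ceil _).trans ?_
    rw [hMd]
    exact_mod_cast le_max_right _ _
  have hM16 : 16 * K ^ 2 ≤ M * n * T ^ 2 := by
    rw [div_le_iff₀ (by positivity)] at hMr
    have : (16 * (K : ℝ) ^ 2) ≤ M * n * T ^ 2 := by linarith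
    exact_mod_cast this
  have hMup : (M : ℝ) ≤ 32 * K ^ 2 * J / (n * T ^ 2) := by
    have h1 : (M : ℝ) ≤ 16 * (K : ℝ) ^ 2 / (n * T ^ 2) + 2 := by
      rw [hMd, Nat.cast_max]
      refine max_le ?_ ?_
      · have : 0 ≤ 16 * (K : ℝ) ^ 2 / (n * T ^ 2) := by positivity
        push_cast
        linarith
      · have := (Nat.ceil_lt_add_one (show 0 ≤ 16 * (K : ℝ) ^ 2 / (n * T ^ 2) by positivity)).le
        linarith
    have h2 : 16 * (K : ℝ) ^ 2 / (n * T ^ 2) ≤ 16 * K ^ 2 * J / (n * T ^ 2) := by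
      rw [div_le_div_iff_of_pos_right (by positivity)]
      have : 16 * (K : ℝ) ^ 2 * 1 ≤ 16 * (K : ℝ) ^ 2 * J :=
        mul_le_mul_of_nonneg_left rJ (by positivity)
      linarith
    have h3 : (2 : ℝ) ≤ 16 * K ^ 2 * J / (n * T ^ 2) := by
      rw [le_div_iff₀ (by positivity)]
      linarith
    have h4 : 16 * (K : ℝ) ^ 2 * J / (n * T ^ 2) + 16 * K ^ 2 * J / (n * T ^ 2) =
        32 * K ^ 2 * J / (n * T ^ 2) := by ring
    linarith
  have e32 : Real.log 32 = 5 * Real.log 2 := by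
    rw [show (32 : ℝ) = 2 ^ 5 by norm_num, Real.log_pow]
    push_cast
    ring
  have lup : Real.log (32 * (K : ℝ) ^ 2 * J / (n * T ^ 2)) =
      5 * Real.log 2 + 2 * s + j - (ν + 2 * t) := by
    rw [Real.log_div (by positivity) (by positivity), Real.log_mul (by positivity) (by positivity),
      Real.log_mul (by positivity) (by positivity), Real.log_mul (by positivity) (by positivity),
      Real.log_pow, Real.log_pow, e32, hs, hj, hν, ht]
    push_cast
    ring
  rcases le_or_gt M n with hMn | hMn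
  · -- first case
    have h1 := hAS1 M hA hpos hT1 hM2 (by rw [← hnd]; exact hMn) hS
      (by rw [← hnd, ← hKd]; exact hM16)
    rw [← hNd, ← hPd, ← hnd, ← hEd] at h1
    have rM : (1 : ℝ) ≤ M := by exact_mod_cast (by omega : 1 ≤ M)
    have g0 : Real.log ((T : ℝ) ^ 2 / 16) = 2 * t - 4 * Real.log 2 := by
      rw [Real.log_div (by positivity) (by positivity),
        Real.log_pow, show (16 : ℝ) = 2 ^ 4 by norm_num, Real.log_pow, ht]
      push_cast
      ring
    have g0' : Real.log ((T : ℝ) ^ 2 / (16 * (M : ℝ))) =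
        2 * t - 4 * Real.log 2 - Real.log M := by
      rw [Real.log_div (by positivity) (by positivity), Real.log_mul (by norm_num) (by positivity),
        Real.log_pow, show (16 : ℝ) = 2 ^ 4 by norm_num, Real.log_pow, ht]
      push_cast
      ring
    have g1 : Real.log ((T : ℝ) ^ 2 / (16 * (M : ℝ) ^ 2)) = 2 * t - 4 * Real.log 2 - 2 * Real.log M := by
      rw [Real.log_div (by positivity) (by positivity), Real.log_mul (by norm_num) (by positivity),
        Real.log_pow, Real.log_pow, show (16 : ℝ) = 2 ^ 4 by norm_num, Real.log_pow, ht]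
      push_cast
      ring
    have g2 : Real.log ((2 * T : ℕ) : ℝ) = Real.log 2 + t := by
      push_cast
      rw [Real.log_mul (by norm_num) (by positivity), ht]
    have g2' : Real.log ((2 * T * M : ℕ) : ℝ) = Real.log 2 + t + Real.log M := by
      push_cast
      rw [Real.log_mul (by positivity) (by positivity),
        Real.log_mul (by norm_num) (by positivity), ht]
    have g3 : Real.log ((n : ℝ) / 64) = ν - 6 * Real.log 2 := by
      rw [Real.log_div (by positivity) (by norm_num), show (64 : ℝ) = 2 ^ 6 by norm_num,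
        Real.log_pow, hν]
      push_cast
      ring
    have g5 : Real.log (M : ℝ) ≤ 5 * Real.log 2 + 2 * s + j - (ν + 2 * t) := by
      have h := Real.log_le_log (by positivity) hMup
      rw [lup] at h
      exact h
    have g6 : Cst (2 * T * M) ≤ Real.log 4097 + jj := by
      rw [hjj]
      refine Cst_le ?_
      have hTM : T * M ≤ N ^ 2 := by
        calc T * M ≤ T * n := Nat.mul_le_mul_left _ hMn
          _ = n * T := mul_comm _ _
          _ ≤ N ^ 2 := hE2
      have hNJ : N < 2 ^ J := by rw [hJd]; exact Nat.lt_pow_succ_log_self (by norm_num) N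
      have hNJ2 : N ^ 2 < 2 ^ (2 * J) := by
        calc N ^ 2 = N * N := pow_two N
          _ < 2 ^ J * 2 ^ J := Nat.mul_lt_mul'' hNJ hNJ
          _ = 2 ^ (2 * J) := by rw [← pow_add]; congr 1; ring
      have h2 : 2 * T * M < 2 ^ (2 * J + 1) := by
        rw [pow_succ, mul_assoc]
        omega
      have h3 : Nat.log 2 (2 * T * M) < 2 * J + 1 :=
        Nat.log_lt_of_lt_pow (by
          have : 0 < 2 * T * M := by positivity
          omega) h2
      omega
    have g7 : Er P ≤ 5 * Real.log 2 + Real.log 4097 + 7 * jj := by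
      rw [hjj, hJd]
      exact Er_le hN1 hP1 hPN
    rw [g0, g0', g1, g2, g2', g3] at h1
    rw [← hL, ← hq] at h1
    have hfin : 364 * L ≤ 110 * q + 162 * s + (908 * Real.log 2 +
        11 * Real.log 4097) + 195 * jj := by
      linarith only [h1, lE, g5, g6, g7, lE1, lE2, hjjj]
    have hfin2 : 195 * jj ≤ 195 * (3 * η - Real.log η) + 2 * (δ * L) := by
      have h5 : 780 * η * L ≤ 2 * (δ * L) := by
        have h6 : 780 * η ≤ 2 * δ := by rw [hηd]; linarith only [hδ]
        have h7 := mul_le_mul_of_nonneg_right h6 hL0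
        linarith only [h7]
      linarith only [h5, hjjη]
    have hab := le_abs_self (908 * Real.log 2 + 11 * Real.log 4097 +
      195 * (3 * η - Real.log η))
    have hab2 := abs_nonneg (908 * Real.log 2 + 11 * Real.log 4097 +
      195 * (3 * η - Real.log η))
    have hab3 := abs_nonneg (248 * Real.log 2 + 83 * (3 * η - Real.log η))
    rw [← hL, ← hs, ← hq]
    linarith
  · -- second case
    have k1 : (n : ℝ) ≤ 32 * K ^ 2 * J / (n * T ^ 2) := by
      have : (n : ℝ) ≤ M := by exact_mod_cast hMn.le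
      exact this.trans hMup
    have k2 : ν ≤ 5 * Real.log 2 + 2 * s + j - (ν + 2 * t) := by
      have h := Real.log_le_log (by positivity) k1
      rw [lup] at h
      rw [hν]
      rw [hν] at h
      exact h
    have k3 : t ≤ L := by rw [ht, hL]; exact Real.log_le_log (by linarith) rTN
    have k5 : 6 * L ≤ 2 * q + 2 * s + 9 * Real.log 2 + 3 * j := by linarith
    have hab := le_abs_self (248 * Real.log 2 + 83 * (3 * η - Real.log η))
    have hab3 := abs_nonneg (908 * Real.log 2 + 11 * Real.log 4097 +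
      195 * (3 * η - Real.log η))
    have k6 : 83 * jj ≤ 83 * (3 * η - Real.log η) + δ * L := by
      have h5 : 332 * η * L ≤ δ * L := by
        have h6 : 332 * η ≤ δ := by rw [hηd]; linarith only [hδ]
        exact mul_le_mul_of_nonneg_right h6 hL0
      linarith only [h5, hjjη]
    rw [← hL, ← hs, ← hq]
    linarith

theorem tPO3 (hAS : S_AS3) (hDY : S_DY3) (hEN : S_EN) (hCS : S_CS) : S_PO3 := by
  intro δ hδ
  obtain ⟨C, hC⟩ : ∃ C : ℝ, C = |908 * Real.log 2 + 11 * Real.log 4097 +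
        195 * (3 * (δ / 400) - Real.log (δ / 400))| +
      |248 * Real.log 2 + 83 * (3 * (δ / 400) - Real.log (δ / 400))| := ⟨_, rfl⟩
  refine ⟨Real.exp (-C), Real.exp_pos _, ?_⟩
  intro A hA hpos
  have h := main3 hAS hDY hEN hCS hδ A hA hpos
  rw [← hC] at h
  have hN : (0 : ℝ) < A.card := by exact_mod_cast hA.card_pos
  have hK : (0 : ℝ) < (A + A).card := by exact_mod_cast (hA.add hA).card_pos
  have hP : (0 : ℝ) < (A * A).card := by exact_mod_cast (hA.mul hA).card_pos
  have e1 : (A.card : ℝ) ^ (182 - δ) = Real.exp ((182 - δ) * Real.log A.card) := by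
    rw [Real.rpow_def_of_pos hN, mul_comm]
  have e2 : ((A + A).card : ℝ) ^ 81 = Real.exp (81 * Real.log (A + A).card) := by
    rw [show (81 : ℝ) * Real.log (A + A).card = ((81 : ℕ) : ℝ) * Real.log (A + A).card by norm_num,
      Real.exp_nat_mul, Real.exp_log hK]
  have e3 : ((A * A).card : ℝ) ^ 55 = Real.exp (55 * Real.log (A * A).card) := by
    rw [show (55 : ℝ) * Real.log (A * A).card = ((55 : ℕ) : ℝ) * Real.log (A * A).card by norm_num,
      Real.exp_nat_mul, Real.exp_log hP]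
  rw [e1, e2, e3, ← Real.exp_add, ← Real.exp_add]
  exact Real.exp_le_exp.2 (by linarith)

lemma rhs_mono (A B : Finset ℝ) (h1 : (B + B).card ≤ (A + A).card)
    (h2 : (B * B).card ≤ (A * A).card) :
    ((B + B).card : ℝ) ^ 81 * ((B * B).card : ℝ) ^ 55 ≤
      ((A + A).card : ℝ) ^ 81 * ((A * A).card : ℝ) ^ 55 := by
  have h1' : ((B + B).card : ℝ) ≤ ((A + A).card : ℝ) := by exact_mod_cast h1
  have h2' : ((B * B).card : ℝ) ≤ ((A * A).card : ℝ) := by exact_mod_cast h2
  gcongr

theorem tRE3 (h : S_PO3) : S_RE3 := by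
  intro δ hδ
  have hδ' : 0 < min δ 1 := lt_min hδ one_pos
  obtain ⟨c, hc, hP⟩ := h (min δ 1) hδ'
  have he0 : 0 ≤ 182 - min δ 1 := by
    have := min_le_right δ 1
    linarith
  have he1 : 182 - min δ 1 ≤ 182 := by linarith
  have he2 : 182 - δ ≤ 182 - min δ 1 := by
    have := min_le_left δ 1
    linarith
  set e : ℝ := 182 - min δ 1 with he
  refine ⟨min c 1 / 3 ^ (182:ℝ), by positivity, ?_⟩
  intro A hA
  have hA1 : 1 ≤ A.card := hA.card_pos
  have hN1 : (1:ℝ) ≤ A.card := by exact_mod_cast hA1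
  have hcn : 0 ≤ min c 1 / 3 ^ (182:ℝ) := by positivity
  have hstep : min c 1 / 3 ^ (182:ℝ) * (A.card : ℝ) ^ (182 - δ) ≤
      min c 1 / 3 ^ (182:ℝ) * (A.card : ℝ) ^ e :=
    mul_le_mul_of_nonneg_left (Real.rpow_le_rpow_of_exponent_le hN1 he2) hcn
  refine hstep.trans ?_
  have h3pos : (0:ℝ) < 3 ^ (182:ℝ) := by positivity
  rcases Nat.lt_or_ge A.card 3 with h3 | h3
  · -- small sets
    have hN3 : (A.card : ℝ) ≤ 3 := by exact_mod_cast h3.le
    have h1 : (A.card : ℝ) ^ e ≤ 3 ^ (182:ℝ) := by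
      calc (A.card : ℝ) ^ e ≤ 3 ^ e := Real.rpow_le_rpow (by linarith) hN3 he0
        _ ≤ 3 ^ (182:ℝ) := Real.rpow_le_rpow_of_exponent_le (by norm_num) he1
    have h2 : min c 1 / 3 ^ (182:ℝ) * (A.card : ℝ) ^ e ≤ 1 := by
      rw [div_mul_eq_mul_div, div_le_one h3pos]
      calc min c 1 * (A.card : ℝ) ^ e ≤ 1 * (A.card : ℝ) ^ e :=
            mul_le_mul_of_nonneg_right (min_le_right _ _) (by positivity)
        _ ≤ 3 ^ (182:ℝ) := by rw [one_mul]; exact h1
    have h4 : (1:ℝ) ≤ ((A + A).card : ℝ) := by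
      exact_mod_cast (hA.add hA).card_pos
    have h5 : (1:ℝ) ≤ ((A * A).card : ℝ) := by
      exact_mod_cast (hA.mul hA).card_pos
    have h6 : (1:ℝ) ≤ ((A + A).card : ℝ) ^ 81 * ((A * A).card : ℝ) ^ 55 :=
      one_le_mul_of_one_le_of_one_le (one_le_pow₀ h4) (one_le_pow₀ h5)
    linarith
  · obtain ⟨B, hB0, hBp, hB3, hBs, hBm⟩ := Pool.Agent.W919.SP.posPart A h3
    have h7 := hP B hB0 hBp
    have h8 := rhs_mono A B hBs hBm
    refine le_trans ?_ (h7.trans h8)
    have hB3' : (A.card : ℝ) ≤ 3 * B.card := by exact_mod_cast hB3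
    have h9 : (A.card : ℝ) ^ e ≤ 3 ^ (182:ℝ) * (B.card : ℝ) ^ e := by
      calc (A.card : ℝ) ^ e ≤ (3 * (B.card : ℝ)) ^ e :=
            Real.rpow_le_rpow (by linarith) hB3' he0
        _ = 3 ^ e * (B.card : ℝ) ^ e := Real.mul_rpow (by norm_num) (by positivity)
        _ ≤ 3 ^ (182:ℝ) * (B.card : ℝ) ^ e :=
            mul_le_mul_of_nonneg_right (Real.rpow_le_rpow_of_exponent_le (by norm_num) he1)
              (by positivity)
    calc min c 1 / 3 ^ (182:ℝ) * (A.card : ℝ) ^ e
        ≤ min c 1 / 3 ^ (182:ℝ) * (3 ^ (182:ℝ) * (B.card : ℝ) ^ e) :=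
          mul_le_mul_of_nonneg_left h9 hcn
      _ = min c 1 * (B.card : ℝ) ^ e := by
          field_simp
      _ ≤ c * (B.card : ℝ) ^ e :=
          mul_le_mul_of_nonneg_right (min_le_left _ _) (by positivity)


end Pool.Agent.TH408.SP.PO3
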