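import Pool.Agent.W798.SP.Chain2
import Pool.Agent.TH408.SP.J3
import Pool.Agent.TH408.SP.RB3
import Pool.Agent.TH408.SP.AS3
import Pool.Agent.TH408.SP.C3
import Pool.Agent.TH408.SP.EX3
import Pool.Agent.TH408.SP.FI3
import Pool.Agent.TH408.SP.PO3

/-!
# Sum-product with exponent 91/68: the chain of the parts
-/

set_option autoImplicit false

namespace Pool.Agent.TH408.SP

open Pool.Agent.W798.SP

theorem pJ03 : S_J03 := J3.tJ03 pSTC pGC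
theorem pJ3 : S_J3 := J3.tJ3 pJ03
theorem pRB3 : S_RB3 := RB3.tRB3 pJ3 pSR
theorem pKB3 : S_KB3 := RB3.tKB3 pJ3 pSR
theorem pC03 : S_C03 := C3.tC03 Pool.Agent.W315.SP.t_CC
theorem pCL3 : S_CL3 := C3.tCL3 pC03
theorem pEX3 : S_EX3 := EX3.tEX3 pKB3 pRB3 pGC
theorem pFI3 : S_FI3 := FI3.tFI3 pSTD
theorem pAS3 : S_AS3 := AS3.tAS3 pCL3 pTR pGC pJ3 pEX3 pFI3
theorem pDY3 : S_DY3 := PO3.tDY3 pCS
theorem pPO3 : S_PO3 := PO3.tPO3 pAS3 pDY3 pEN pCS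
theorem pRE3 : S_RE3 := PO3.tRE3 pPO3

end Pool.Agent.TH408.SP
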