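import Pool.Agent.W798.SP.Stm2

/-!
# Sum-product over the reals with exponent 91/68: statements of the new parts

Compared with the exponent 226/169, the slopes are merged: the relation
`(l 0 - l 3) u 0 + (l 1 - l 3) u 1 = (l 2 - l 3) u 2` is used with the single unknown
`(l 2 - l 3) u 2` in place of the pair `l 2, u 2`, so that only three slopes are conditioned on,
and the inequality of the two copies is used with different conditions for the two copies.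
-/

set_option autoImplicit false
set_option linter.unusedSectionVars false

open Finset
open scoped Classical Pointwise

namespace Pool.Agent.TH408.SP

open Pool.Agent.W904.AK Pool.Agent.W798.SP

/-- Three real functions which satisfy one linear relation with nonzero coefficients depending on
`Lam`, and which lie in sets depending on `Lam` with at most `n`, `n`, `N` elements. -/
structure Tri3 {Ω Γ : Type} [Fintype Ω] (p : Ω → ℝ) (Lam : Ω → Γ) (u : Fin 3 → Ω → ℝ) (n N : ℕ) :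
    Prop where
  law : IsLaw p
  rel : ∃ (c : Fin 3 → Γ → ℝ) (S : Fin 3 → Γ → Finset ℝ),
    (∀ g, (S 0 g).card ≤ n ∧ (S 1 g).card ≤ n ∧ (S 2 g).card ≤ N) ∧
    ∀ ω, p ω ≠ 0 → (∀ i, c i (Lam ω) ≠ 0 ∧ u i ω ≠ 0 ∧ u i ω ∈ S i (Lam ω)) ∧
      ∑ i, c i (Lam ω) * u i ω = 0

/-- The three slopes of the merged relation. -/
def Lm {Ω : Type} (l : Fin 4 → Ω → ℝ) (ω : Ω) : ℝ × (ℝ × ℝ) := (l 0 ω, (l 1 ω, l 3 ω))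

/-- The merged unknown. -/
def v2 {Ω : Type} (l : Fin 4 → Ω → ℝ) (u : Fin 3 → Ω → ℝ) (ω : Ω) : ℝ :=
  (l 2 ω - l 3 ω) * u 2 ω

/-- The extension by a random ratio `k` of elements of `A`, independent of the forms given
`Lam`, such that `v i / (v 0 * k)` is on average a popular ratio of the product set. -/
def Ext3 {Ω₀ Γ : Type} [Fintype Ω₀] (A : Finset ℝ) (p₀ : Ω₀ → ℝ) (Lam : Ω₀ → Γ)
    (u : Fin 3 → Ω₀ → ℝ) (i : Fin 3) (K D : ℝ) : Prop :=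
  ∃ (Ω : Type) (_ : Fintype Ω) (p : Ω → ℝ) (L : Ω → Γ) (v : Fin 3 → Ω → ℝ)
    (k : Ω → ℝ), IsLaw p ∧
    (∀ a, im p (fun ω => (L ω, zz v ω)) a = im p₀ (fun ω => (Lam ω, zz u ω)) a) ∧
    (∀ ω, p ω ≠ 0 → k ω ≠ 0 ∧ k ω ∈ A / A ∧ v i ω ≠ 0 ∧ v 0 ω ≠ 0 ∧
      1 ≤ (fib (A * A) (v i ω / (v 0 ω * k ω))).card) ∧
    CH p L (fun ω => (zz v ω, k ω)) = CH p L (zz v) + CH p L k ∧
    K ≤ CH p L k ∧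
    D ≤ ∑ ω, p ω * Real.log ((fib (A * A) (v i ω / (v 0 ω * k ω))).card : ℝ)

/-- DY3: a dyadic class of slopes with maximal energy. -/
def S_DY3 : Prop := ∀ A : Finset ℝ, A.Nonempty → (∀ x ∈ A, 0 < x) →
  ∃ (T : ℕ) (S : Finset ℝ), 1 ≤ T ∧ T ≤ A.card ∧
    (∀ l ∈ S, 0 < l ∧ T ≤ (fib A l).card ∧ (fib A l).card < 2 * T) ∧
    en A ≤ 4 * (Nat.log 2 A.card + 1) * (S.card * T ^ 2) ∧
    S.card * T ^ 2 ≤ en A ∧ S.card * T ≤ A.card ^ 2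

/-- C03: the combinatorial configuration set. -/
def S_C03 : Prop := ∀ (A S : Finset ℝ) (T M : ℕ), (∀ x ∈ A, 0 < x) → 1 ≤ T → 2 ≤ M → M ≤ S.card →
  (∀ l ∈ S, 0 < l ∧ T ≤ (fib A l).card ∧ (fib A l).card < 2 * T) →
  16 * (A + A).card ^ 2 ≤ M * S.card * T ^ 2 →
  ∃ (W : Finset ((Fin 4 → ℝ) × (Fin 3 → ℝ))) (c : ℝ → ℕ),
    (∀ w ∈ W, (∀ i, w.1 i ∈ S ∧ c (w.1 i) = c (w.1 0)) ∧
      (∀ i : Fin 3, w.2 i ∈ fib A (w.1 i.castSucc)) ∧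
      (∀ i : Fin 3, w.1 i.castSucc ≠ w.1 3) ∧
      (w.1 0 - w.1 3) * w.2 0 + (w.1 1 - w.1 3) * w.2 1 = (w.1 2 - w.1 3) * w.2 2) ∧
    M * S.card * T ^ 2 ≤ 16 * W.card ∧
    (∀ j, (S.filter (fun a => c a = j)).card ≤ M) ∧
    (∀ w ∈ W, ∀ w' ∈ W, w.1 0 = w'.1 0 → w.1 1 = w'.1 1 → w.2 0 = w'.2 0 → w.2 1 = w'.2 1 →
      w = w')

/-- CL3: the basic law. -/
def S_CL3 : Prop := ∀ (A S : Finset ℝ) (T M : ℕ), (∀ x ∈ A, 0 < x) → 1 ≤ T → 2 ≤ M → M ≤ S.card →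
  (∀ l ∈ S, 0 < l ∧ T ≤ (fib A l).card ∧ (fib A l).card < 2 * T) →
  16 * (A + A).card ^ 2 ≤ M * S.card * T ^ 2 →
  ∃ (Ω : Type) (_ : Fintype Ω) (p : Ω → ℝ) (l : Fin 4 → Ω → ℝ) (u : Fin 3 → Ω → ℝ),
    Base A p l u (2 * T) ∧ Real.log (S.card / 64) ≤ H p (l 0) ∧
    Real.log ((T : ℝ) ^ 2 / 16) ≤ CH p (fun ω => (l 0 ω, l 1 ω)) (fun ω => (u 0 ω, u 1 ω)) ∧
    Real.log ((T : ℝ) ^ 2 / (16 * (M : ℝ))) ≤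
      CH p (Lm l) (zz (![u 0, u 1, v2 l u] : Fin 3 → Ω → ℝ)) ∧
    Real.log ((T : ℝ) ^ 2 / (16 * (M : ℝ) ^ 2)) ≤ CH p (zz l) (zz u) ∧
    CH p (fun ω => (l 0 ω, l 1 ω)) (fun ω => (l 2 ω, l 3 ω)) ≤ 2 * Real.log M ∧
    Tri3 p (Lm l) ![u 0, u 1, v2 l u] (2 * T) (2 * T * M)

/-- J03: the incidence inequality for two copies, with sets of different sizes. -/
def S_J03 : Prop := ∀ {Ω γ : Type} [Fintype Ω] (p : Ω → ℝ) (Q : Ω → γ) (a b : Fin 3 → Ω → ℝ)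
  (n N : ℕ) (S S' : Fin 3 → γ → Finset ℝ), IsLaw p → n ≤ N →
  (∀ g, (S 0 g).card ≤ n ∧ (S 1 g).card ≤ n ∧ (S 2 g).card ≤ N) →
  (∀ g, (S' 0 g).card ≤ n ∧ (S' 1 g).card ≤ n ∧ (S' 2 g).card ≤ N) →
  (∀ ω, p ω ≠ 0 → (∀ i, a i ω ≠ 0 ∧ b i ω ≠ 0 ∧ a i ω ∈ S i (Q ω) ∧ b i ω ∈ S' i (Q ω)) ∧
    ∑ i, a i ω = 0 ∧ ∑ i, b i ω = 0) →
  2 * CH p Q (fun ω => (zz a ω, zz b ω)) ≤
    CH p Q (fun ω => b 0 ω / a 0 ω) + 3 * Real.log n + 3 * Real.log N + Cst N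

/-- J3: the incidence inequality for a pair of forms of two triple laws, where only functions
`κ₁`, `κ₂` of the parameters are conditioned on. -/
def S_J3 : Prop := ∀ {Ω₁ Γ₁ K₁ Ω₂ Γ₂ K₂ Ω γ : Type} [Fintype Ω₁] [Fintype Ω₂] [Fintype Ω]
  (p₁ : Ω₁ → ℝ) (Lam₁ : Ω₁ → Γ₁) (a : Fin 3 → Ω₁ → ℝ) (κ₁ : Γ₁ → K₁)
  (p₂ : Ω₂ → ℝ) (Lam₂ : Ω₂ → Γ₂) (b : Fin 3 → Ω₂ → ℝ) (κ₂ : Γ₂ → K₂) (n N : ℕ)
  (p : Ω → ℝ) (kA : Ω → K₁) (kB : Ω → K₂) (f g : Ω → ℝ) (Q : Ω → γ),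
  Tri3 p₁ Lam₁ a n N → Tri3 p₂ Lam₂ b n N → n ≤ N → IsLaw p →
  (∀ c, im p (fun ω => (kA ω, f ω)) c = im p₁ (fun ω => (κ₁ (Lam₁ ω), a 0 ω)) c) →
  (∀ c, im p (fun ω => (kB ω, g ω)) c = im p₂ (fun ω => (κ₂ (Lam₂ ω), b 0 ω)) c) →
  Det p Q kA → Det p Q kB →
  2 * CH p Q (fun ω => (f ω, g ω)) ≤
    CH p Q (fun ω => g ω / f ω) + 3 * Real.log n + 3 * Real.log N + Cst N -
      2 * (CH p₁ Lam₁ (zz a) - CH p₁ (fun ω => κ₁ (Lam₁ ω)) (a 0)) -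
      2 * (CH p₂ Lam₂ (zz b) - CH p₂ (fun ω => κ₂ (Lam₂ ω)) (b 0))

/-- RB3: the entropy of the two products. -/
def S_RB3 : Prop := ∀ {Ω Ω₁ Γ₁ Ω₂ Γ₂ K Λ : Type} [Fintype Ω] [Fintype Ω₁] [Fintype Ω₂]
  (A : Finset ℝ) (p : Ω → ℝ) (κ : Ω → K) (ℓ : Ω → Λ) (a b x y : Ω → ℝ)
  (p₁ : Ω₁ → ℝ) (Lam₁ : Ω₁ → Γ₁) (α : Fin 3 → Ω₁ → ℝ) (κ₁ : Γ₁ → K)
  (p₂ : Ω₂ → ℝ) (Lam₂ : Ω₂ → Γ₂) (β : Fin 3 → Ω₂ → ℝ) (κ₂ : Γ₂ → K × Λ) (n N₁ N₂ : ℕ),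
  (∀ a ∈ A, 0 < a) → IsLaw p → n ≤ N₁ → n ≤ N₂ → Tri3 p₁ Lam₁ α n N₁ → Tri3 p₂ Lam₂ β n N₂ →
  (∀ c, im p (fun ω => (κ ω, b ω)) c = im p₁ (fun ω => (κ₁ (Lam₁ ω), α 0 ω)) c) →
  (∀ c, im p (fun ω => (κ ω, x ω)) c = im p₁ (fun ω => (κ₁ (Lam₁ ω), α 0 ω)) c) →
  (∀ c, im p (fun ω => ((κ ω, ℓ ω), a ω)) c = im p₂ (fun ω => (κ₂ (Lam₂ ω), β 0 ω)) c) →
  (∀ ω, p ω ≠ 0 → y ω ∈ A ∧ x ω ≠ 0 ∧ a ω ≠ 0 ∧ b ω ≠ 0) →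
  CH p κ (fun ω => ((ℓ ω, (a ω, b ω)), (x ω, y ω))) =
    CH p κ (fun ω => (ℓ ω, (a ω, b ω))) + (CH p κ x + Real.log A.card) →
  CH p (fun ω => (κ ω, ℓ ω)) (fun ω => (a ω, b ω)) + 2 * Real.log A.card +
    4 * CH p₁ Lam₁ (zz α) + 2 * CH p₂ Lam₂ (zz β) - CH p κ b - CH p (fun ω => (κ ω, ℓ ω)) a -
    9 / 2 * Real.log n - 3 * Real.log N₁ - 3 / 2 * Real.log N₂ - 1 / 2 * Real.log (en A) -
    Cst N₁ - 1 / 2 * Cst N₂ ≤ CH p κ (fun ω => (a ω * x ω, b ω * y ω))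

/-- KB3: the entropy of a random ratio. -/
def S_KB3 : Prop := ∀ {Ω Ω₁ Γ₁ K : Type} [Fintype Ω] [Fintype Ω₁]
  (A : Finset ℝ) (p : Ω → ℝ) (κ : Ω → K) (x y : Ω → ℝ)
  (p₁ : Ω₁ → ℝ) (Lam₁ : Ω₁ → Γ₁) (α : Fin 3 → Ω₁ → ℝ) (κ₁ : Γ₁ → K) (n N₁ : ℕ),
  (∀ a ∈ A, 0 < a) → IsLaw p → n ≤ N₁ → Tri3 p₁ Lam₁ α n N₁ →
  (∀ c, im p (fun ω => (κ ω, x ω)) c = im p₁ (fun ω => (κ₁ (Lam₁ ω), α 0 ω)) c) →
  (∀ ω, p ω ≠ 0 → y ω ∈ A ∧ x ω ≠ 0) →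
  CH p κ (fun ω => (x ω, y ω)) = CH p κ x + Real.log A.card →
  2 * Real.log A.card + 2 * CH p₁ Lam₁ (zz α) - 3 / 2 * Real.log n - 3 / 2 * Real.log N₁ -
    1 / 2 * Real.log (en A) - 1 / 2 * Cst N₁ ≤ CH p κ (fun ω => y ω / x ω)

/-- EX3: the extensions exist. -/
def S_EX3 : Prop := ∀ {Ω Γ₁ Γ₂ : Type} [Fintype Ω] (A : Finset ℝ) (p : Ω → ℝ)
  (l : Fin 4 → Ω → ℝ) (u : Fin 3 → Ω → ℝ) (n N₁ N₂ : ℕ) (i : Fin 3)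
  (Lam₁ : Ω → Γ₁) (α : Fin 3 → Ω → ℝ) (κ₁ : Γ₁ → ℝ)
  (Lam₂ : Ω → Γ₂) (β : Fin 3 → Ω → ℝ) (κ₂ : Γ₂ → ℝ × ℝ),
  A.Nonempty → (∀ a ∈ A, 0 < a) → Base A p l u n → n ≤ N₁ → n ≤ N₂ →
  Tri3 p Lam₁ α n N₁ → (∀ ω, κ₁ (Lam₁ ω) = l 0 ω ∧ α 0 ω = u 0 ω) →
  Tri3 p Lam₂ β n N₂ → (∀ ω, κ₂ (Lam₂ ω) = (l 0 ω, l i.castSucc ω) ∧ β 0 ω = u i ω) →
  Ext3 A p (zz l) u i
    (2 * Real.log A.card + 2 * CH p Lam₁ (zz α) - 3 / 2 * Real.log n - 3 / 2 * Real.log N₁ -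
      1 / 2 * Real.log (en A) - 1 / 2 * Cst N₁)
    (H p (l 0) + (CH p (fun ω => (l 0 ω, l i.castSucc ω)) (fun ω => (u i ω, u 0 ω)) +
      2 * Real.log A.card + 4 * CH p Lam₁ (zz α) + 2 * CH p Lam₂ (zz β) -
      13 / 2 * Real.log n - 3 * Real.log N₁ - 3 / 2 * Real.log N₂ - 1 / 2 * Real.log (en A) -
      Cst N₁ - 1 / 2 * Cst N₂) - 2 * Real.log (A * A).card)

/-- FI3: the final row. -/
def S_FI3 : Prop := ∀ {Ω Γ : Type} [Fintype Ω] (A : Finset ℝ) (p : Ω → ℝ) (Lam : Ω → Γ)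
  (u : Fin 3 → Ω → ℝ) (c : Fin 3 → Γ → ℝ) (K₁ D₁ K₂ D₂ : ℝ), (∀ a ∈ A, 0 < a) → IsLaw p →
  (∀ ω, p ω ≠ 0 → (∀ i, c i (Lam ω) ≠ 0) ∧ ∑ i, c i (Lam ω) * u i ω = 0) →
  Ext3 A p Lam u 1 K₁ D₁ → Ext3 A p Lam u 2 K₂ D₂ →
  3 * CH p Lam (fun ω => u 1 ω / u 0 ω) + K₁ + K₂ + 2 * (D₁ + D₂) ≤
    8 * Real.log (A * A).card + Er (A * A).card

/-- AS3: the inequality before optimisation. -/
def S_AS3 : Prop := ∀ (A S : Finset ℝ) (T M : ℕ), A.Nonempty → (∀ x ∈ A, 0 < x) → 1 ≤ T → 2 ≤ M →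
  M ≤ S.card → (∀ l ∈ S, 0 < l ∧ T ≤ (fib A l).card ∧ (fib A l).card < 2 * T) →
  16 * (A + A).card ^ 2 ≤ M * S.card * T ^ 2 →
  8 * Real.log ((T : ℝ) ^ 2 / 16) + 36 * Real.log ((T : ℝ) ^ 2 / (16 * (M : ℝ))) +
    6 * Real.log ((T : ℝ) ^ 2 / (16 * (M : ℝ) ^ 2)) - 53 * Real.log ((2 * T : ℕ) : ℝ) -
    27 * Real.log ((2 * T * M : ℕ) : ℝ) - 6 * Real.log M + 12 * Real.log A.card -
    3 * Real.log (en A) + 4 * Real.log (S.card / 64) - 10 * Cst (2 * T * M) ≤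
    16 * Real.log (A * A).card + Er (A * A).card

/-- PO3: the result for sets of positive reals. -/
def S_PO3 : Prop := ∀ δ : ℝ, 0 < δ → ∃ c : ℝ, 0 < c ∧ ∀ A : Finset ℝ, A.Nonempty →
  (∀ x ∈ A, 0 < x) → c * (A.card : ℝ) ^ (182 - δ) ≤
    ((A + A).card : ℝ) ^ 81 * ((A * A).card : ℝ) ^ 55

/-- RE3: the result for finite sets of reals. -/
def S_RE3 : Prop := ∀ δ : ℝ, 0 < δ → ∃ c : ℝ, 0 < c ∧ ∀ A : Finset ℝ, A.Nonempty →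
  c * (A.card : ℝ) ^ (182 - δ) ≤ ((A + A).card : ℝ) ^ 81 * ((A * A).card : ℝ) ^ 55

end Pool.Agent.TH408.SP
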