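import Pool.Agent.TH408.SP.Stm3

/-!
# Sum-product over the reals with exponent 122/91: statements of the new parts

Compared with the exponent 91/68, the random ratio `k` is built from two conditionally independent
copies of slopes, `k = (β u_i) / (α u_0)`, so that `u_i / (u_0 k) = α / β`, and the popularity of
`α / β` among the ratios of the product set is bounded by the entropy of a product `a b` of two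
independent fibre elements.
-/

set_option autoImplicit false
set_option linter.unusedSectionVars false

open Finset
open scoped Classical Pointwise

namespace Pool.Agent.TH408.SP

open Pool.Agent.W904.AK Pool.Agent.W798.SP

/-- The fourth form. -/
def u3 {Ω : Type} (u : Fin 3 → Ω → ℝ) (ω : Ω) : ℝ := u 0 ω + u 1 ω - u 2 ω

/-- A slope among the first two, different from the third. -/
noncomputable def lc {Ω : Type} (l : Fin 4 → Ω → ℝ) (ω : Ω) : ℝ :=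
  if l 2 ω ≠ l 0 ω then l 0 ω else l 1 ω

/-- The three slopes of the second merged relation. -/
noncomputable def Lt {Ω : Type} (l : Fin 4 → Ω → ℝ) (ω : Ω) : ℝ × (ℝ × ℝ) :=
  (l 2 ω, (l 3 ω, lc l ω))

/-- The merged unknown of the second merged relation
`(l 2 - lc) u 2 + (l 3 - lc) u 3 = vt`. -/
noncomputable def vt {Ω : Type} (l : Fin 4 → Ω → ℝ) (u : Fin 3 → Ω → ℝ) (ω : Ω) : ℝ :=
  if l 2 ω ≠ l 0 ω then (l 1 ω - l 0 ω) * u 1 ω else (l 0 ω - l 1 ω) * u 0 ω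

/-- The extension by a random ratio `k` of elements of `A`, such that `v i / (v 0 * k)` is on
average a popular ratio of the product set. -/
def Ext4 {Ω₀ : Type} [Fintype Ω₀] (A : Finset ℝ) (p₀ : Ω₀ → ℝ) (l : Fin 4 → Ω₀ → ℝ)
    (u : Fin 3 → Ω₀ → ℝ) (i : Fin 3) (B D : ℝ) : Prop :=
  ∃ (Ω : Type) (_ : Fintype Ω) (p : Ω → ℝ) (L : Ω → Fin 4 → ℝ) (v : Fin 3 → Ω → ℝ)
    (k : Ω → ℝ), IsLaw p ∧
    (∀ a, im p (fun ω => (L ω, zz v ω)) a = im p₀ (fun ω => (zz l ω, zz u ω)) a) ∧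
    (∀ ω, p ω ≠ 0 → k ω ≠ 0 ∧ k ω ∈ A / A ∧ v i ω ≠ 0 ∧ v 0 ω ≠ 0 ∧
      1 ≤ (fib (A * A) (v i ω / (v 0 ω * k ω))).card) ∧
    B ≤ 3 * CH p (fun ω => (L ω, zz v ω)) k - 2 * CH p L k ∧
    D ≤ ∑ ω, p ω * Real.log ((fib (A * A) (v i ω / (v 0 ω * k ω))).card : ℝ)

/-- C04: the combinatorial configuration set, for a partner map which is a bijection. -/
def S_C04 : Prop := ∀ (A S : Finset ℝ) (T M : ℕ), (∀ x ∈ A, 0 < x) → 1 ≤ T → 2 ≤ M → M ≤ S.card →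
  (∀ l ∈ S, 0 < l ∧ T ≤ (fib A l).card ∧ (fib A l).card < 2 * T) →
  16 * (A + A).card ^ 2 ≤ M * S.card * T ^ 2 →
  ∃ (W : Finset ((Fin 4 → ℝ) × (Fin 3 → ℝ))) (c : ℝ → ℕ),
    (∀ w ∈ W, (∀ i, w.1 i ∈ S ∧ c (w.1 i) = c (w.1 0)) ∧
      (∀ i : Fin 3, w.2 i ∈ fib A (w.1 i.castSucc)) ∧
      w.2 0 + w.2 1 - w.2 2 ∈ fib A (w.1 3) ∧
      w.1 0 ≠ w.1 1 ∧
      (∀ i : Fin 3, w.1 i.castSucc ≠ w.1 3) ∧
      (w.1 0 - w.1 3) * w.2 0 + (w.1 1 - w.1 3) * w.2 1 = (w.1 2 - w.1 3) * w.2 2) ∧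
    M * S.card * T ^ 2 ≤ 16 * W.card ∧
    (∀ j, (S.filter (fun a => c a = j)).card ≤ M) ∧
    (∀ w ∈ W, ∀ w' ∈ W, w.1 0 = w'.1 0 → w.1 1 = w'.1 1 → w.2 0 = w'.2 0 → w.2 1 = w'.2 1 →
      w = w') ∧
    (∀ w ∈ W, ∀ w' ∈ W, w.1 2 = w'.1 2 → w.1 3 = w'.1 3 → w.2 2 = w'.2 2 →
      w.2 0 + w.2 1 - w.2 2 = w'.2 0 + w'.2 1 - w'.2 2 → w = w')

/-- CL4: the basic law. -/
def S_CL4 : Prop := ∀ (A S : Finset ℝ) (T M : ℕ), (∀ x ∈ A, 0 < x) → 1 ≤ T → 2 ≤ M → M ≤ S.card →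
  (∀ l ∈ S, 0 < l ∧ T ≤ (fib A l).card ∧ (fib A l).card < 2 * T) →
  16 * (A + A).card ^ 2 ≤ M * S.card * T ^ 2 →
  ∃ (Ω : Type) (_ : Fintype Ω) (p : Ω → ℝ) (l : Fin 4 → Ω → ℝ) (u : Fin 3 → Ω → ℝ),
    Base A p l u (2 * T) ∧
    (∀ i : Fin 3, Real.log ((S.card : ℝ) * T / 32) ≤ H p (fun ω => (l i.castSucc ω, u i ω))) ∧
    Real.log ((T : ℝ) ^ 2 / 16) ≤ CH p (fun ω => (l 0 ω, l 1 ω)) (fun ω => (u 0 ω, u 1 ω)) ∧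
    Real.log ((T : ℝ) ^ 2 / (16 * (M : ℝ))) ≤
      CH p (Lm l) (zz (![u 0, u 1, v2 l u] : Fin 3 → Ω → ℝ)) ∧
    Real.log ((T : ℝ) ^ 2 / (16 * (M : ℝ))) ≤
      CH p (Lt l) (zz (![u 2, u3 u, vt l u] : Fin 3 → Ω → ℝ)) ∧
    CH p (fun ω => (l 0 ω, l 1 ω)) (l 3) ≤ Real.log M ∧
    CH p (fun ω => (l 0 ω, l 1 ω)) (fun ω => (l 2 ω, l 3 ω)) ≤ 2 * Real.log M ∧
    Tri3 p (Lm l) ![u 0, u 1, v2 l u] (2 * T) (2 * T * M) ∧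
    Tri3 p (Lm l) ![u 1, u 0, v2 l u] (2 * T) (2 * T * M) ∧
    Tri3 p (Lt l) ![u 2, u3 u, vt l u] (2 * T) (2 * T * M)

/-- PR4: the entropy of a product of two conditionally independent forms. -/
def S_PR4 : Prop := ∀ {Ω Ω₁ Γ₁ Ω₂ Γ₂ K₁ K₂ : Type} [Fintype Ω] [Fintype Ω₁] [Fintype Ω₂]
  (p : Ω → ℝ) (kA : Ω → K₁) (kB : Ω → K₂) (a b : Ω → ℝ)
  (p₁ : Ω₁ → ℝ) (Lam₁ : Ω₁ → Γ₁) (α : Fin 3 → Ω₁ → ℝ) (κ₁ : Γ₁ → K₁)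
  (p₂ : Ω₂ → ℝ) (Lam₂ : Ω₂ → Γ₂) (β : Fin 3 → Ω₂ → ℝ) (κ₂ : Γ₂ → K₂) (n N : ℕ),
  IsLaw p → n ≤ N → Tri3 p₁ Lam₁ α n N → Tri3 p₂ Lam₂ β n N →
  (∀ c, im p (fun ω => (kA ω, a ω)) c = im p₁ (fun ω => (κ₁ (Lam₁ ω), α 0 ω)) c) →
  (∀ c, im p (fun ω => (kB ω, b ω)) c = im p₂ (fun ω => (κ₂ (Lam₂ ω), β 0 ω)) c) →
  (∀ ω, p ω ≠ 0 → a ω ≠ 0 ∧ b ω ≠ 0) →
  CH p (fun ω => (kA ω, kB ω)) (fun ω => (a ω, b ω)) = CH p kA a + CH p kB b →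
  2 * CH p₁ Lam₁ (zz α) + 2 * CH p₂ Lam₂ (zz β) - 3 * Real.log n - 3 * Real.log N - Cst N ≤
    CH p (fun ω => (kA ω, kB ω)) (fun ω => a ω * b ω)

/-- EX4: the extensions exist. -/
def S_EX4 : Prop := ∀ {Ω Γ₁ Γ₂ : Type} [Fintype Ω] (A : Finset ℝ) (p : Ω → ℝ)
  (l : Fin 4 → Ω → ℝ) (u : Fin 3 → Ω → ℝ) (n N : ℕ) (i : Fin 3)
  (Lam₁ : Ω → Γ₁) (α : Fin 3 → Ω → ℝ) (κ₁ : Γ₁ → ℝ)
  (Lam₂ : Ω → Γ₂) (β : Fin 3 → Ω → ℝ) (κ₂ : Γ₂ → ℝ),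
  A.Nonempty → (∀ a ∈ A, 0 < a) → Base A p l u n → n ≤ N →
  Tri3 p Lam₁ α n N → (∀ ω, κ₁ (Lam₁ ω) = l 0 ω ∧ α 0 ω = u 0 ω) →
  Tri3 p Lam₂ β n N → (∀ ω, κ₂ (Lam₂ ω) = l i.castSucc ω ∧ β 0 ω = u i ω) →
  Ext4 A p l u i
    (3 * H p (fun ω => (l 0 ω, u 0 ω)) + 3 * H p (fun ω => (l i.castSucc ω, u i ω)) -
      8 * Real.log A.card - Real.log (en A))
    (2 * CH p Lam₁ (zz α) + 2 * CH p Lam₂ (zz β) - 3 * Real.log n - 3 * Real.log N - Cst N)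

/-- FI4: the final row. -/
def S_FI4 : Prop := ∀ {Ω : Type} [Fintype Ω] (A : Finset ℝ) (p : Ω → ℝ) (l : Fin 4 → Ω → ℝ)
  (u : Fin 3 → Ω → ℝ) (n : ℕ) (B₁ D₁ B₂ D₂ : ℝ), (∀ a ∈ A, 0 < a) → Base A p l u n →
  Ext4 A p l u 1 B₁ D₁ → Ext4 A p l u 2 B₂ D₂ →
  CH p (Lm l) (fun ω => u 1 ω / u 0 ω) + 2 * CH p (zz l) (fun ω => u 1 ω / u 0 ω) +
    B₁ + B₂ + 2 * (D₁ + D₂) ≤ 8 * Real.log (A * A).card + Er (A * A).card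

/-- AS4: the inequality before optimisation. -/
def S_AS4 : Prop := ∀ (A S : Finset ℝ) (T M : ℕ), A.Nonempty → (∀ x ∈ A, 0 < x) → 1 ≤ T → 2 ≤ M →
  M ≤ S.card → (∀ l ∈ S, 0 < l ∧ T ≤ (fib A l).card ∧ (fib A l).card < 2 * T) →
  16 * (A + A).card ^ 2 ≤ M * S.card * T ^ 2 →
  6 * Real.log ((T : ℝ) ^ 2 / 16) + 28 * Real.log ((T : ℝ) ^ 2 / (16 * (M : ℝ))) +
    12 * Real.log ((S.card : ℝ) * T / 32) - 33 * Real.log ((2 * T : ℕ) : ℝ) -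
    21 * Real.log ((2 * T * M : ℕ) : ℝ) - 5 * Real.log M - 16 * Real.log A.card -
    2 * Real.log (en A) - 7 * Cst (2 * T * M) ≤
    8 * Real.log (A * A).card + Er (A * A).card

/-- PO4: the result for sets of positive reals. -/
def S_PO4 : Prop := ∀ δ : ℝ, 0 < δ → ∃ c : ℝ, 0 < c ∧ ∀ A : Finset ℝ, A.Nonempty →
  (∀ x ∈ A, 0 < x) → c * (A.card : ℝ) ^ (122 - δ) ≤
    ((A + A).card : ℝ) ^ 54 * ((A * A).card : ℝ) ^ 37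

/-- RE4: the result for finite sets of reals. -/
def S_RE4 : Prop := ∀ δ : ℝ, 0 < δ → ∃ c : ℝ, 0 < c ∧ ∀ A : Finset ℝ, A.Nonempty →
  c * (A.card : ℝ) ^ (122 - δ) ≤ ((A + A).card : ℝ) ^ 54 * ((A * A).card : ℝ) ^ 37

end Pool.Agent.TH408.SP
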